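import Mathlib
import Pool.Agent.Lib.MP_8b8716_co_HN.Basic

set_option autoImplicit false

/-!
# MP_8b8716_co, project QF: definitions

The chromatic number of `F ^ 2` for real fields `F` (for instance real quadratic fields) over which
the small inert primes split in `F(i)`.
-/

noncomputable section

namespace Pool.Agent.MP_8b8716_co_QF

open Complex MeasureTheory Filter Topology Set
open Pool.Agent.MP_8b8716_co_HN

/-- the primes which are allowed to survive -/
def HP (l : ℕ) : Prop := l.Prime ∧ l % 4 = 3 ∧ 1250 < l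

/-- positive integers all of whose prime factors survive -/
def NH (M : ℕ) : Prop := M ≠ 0 ∧ ∀ l : ℕ, l.Prime → l ∣ M → HP l

/-- the Gaussian number `i` -/
def iK : KG := ⟨I, 0, 1, by simp⟩

/-- the Gaussian numbers which are integral at the surviving primes -/
def RH : Subring KG where
  carrier := {w | ∃ n : ℕ, n ≠ 0 ∧ (∀ l, HP l → ¬ l ∣ n) ∧ (n : KG) * w ∈ Zi}
  mul_mem' := by
    rintro x y ⟨m, h0, h1, h2⟩ ⟨n, h0', h1', h2'⟩
    refine ⟨m * n, mul_ne_zero h0 h0', fun l hl hd => ?_, ?_⟩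
    · rcases (hl.1.dvd_mul).1 hd with h | h
      · exact h1 l hl h
      · exact h1' l hl h
    · have := Zi.mul_mem h2 h2'
      rw [Nat.cast_mul]
      convert this using 1
      ring
  one_mem' := ⟨1, one_ne_zero, fun l hl hd => hl.1.one_lt.ne' (Nat.dvd_one.1 hd), by
    rw [Nat.cast_one, one_mul]; exact Zi.one_mem⟩
  add_mem' := by
    rintro x y ⟨m, h0, h1, h2⟩ ⟨n, h0', h1', h2'⟩
    refine ⟨m * n, mul_ne_zero h0 h0', fun l hl hd => ?_, ?_⟩
    · rcases (hl.1.dvd_mul).1 hd with h | h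
      · exact h1 l hl h
      · exact h1' l hl h
    · have := Zi.add_mem (Zi.mul_mem (natCast_mem Zi n) h2) (Zi.mul_mem (natCast_mem Zi m) h2')
      rw [Nat.cast_mul]
      convert this using 1
      ring
  zero_mem' := ⟨1, one_ne_zero, fun l hl hd => hl.1.one_lt.ne' (Nat.dvd_one.1 hd), by
    simp⟩
  neg_mem' := by
    rintro x ⟨m, h0, h1, h2⟩
    refine ⟨m, h0, h1, ?_⟩
    have := Zi.neg_mem h2
    convert this using 1
    ring

/-- the additive group of the Gaussian integers modulo `M` -/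
abbrev AM (M : ℕ) := ZMod M × ZMod M

/-- the unit circle in the Gaussian integers modulo `M` -/
def UM (M : ℕ) [NeZero M] : Finset (AM M) := Finset.univ.filter fun u => u.1 ^ 2 + u.2 ^ 2 = 1

/-- the mean value of `f` -/
def mean {M : ℕ} [NeZero M] (f : AM M → ℝ) : ℝ := (∑ h, f h) / (M : ℝ) ^ 2

/-- the mean value of `f (h + u) g h` over all `h` and all `u` on the unit circle -/
def cross {M : ℕ} [NeZero M] (f g : AM M → ℝ) : ℝ :=
  (∑ h, ∑ u ∈ UM M, f (h + u) * g h) / ((M : ℝ) ^ 2 * (UM M).card)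

/-- the standard representative of a class modulo `M` -/
def lft {M : ℕ} (h : AM M) : KG := (h.1.val : KG) + (h.2.val : KG) * iK

/-- the spectral gap constant, slightly less than `1 / 5` -/
def lam : ℝ := 1997 / 10000

/-- the functions which are, on `M RH`, characters of the plane -/
def SM (M : ℕ) : Set (KG → Circle) := {y | ∃ ξ : ℂ, ∀ w ∈ RH, y ((M : KG) * w) = el (M * ξ) w}

/-- the properties of the spectral measures of the invariant random colourings -/
structure Nice (ν : Measure (KG → Circle)) : Prop where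
  fin : IsFiniteMeasure ν
  chr : ∀ᵐ y ∂ν, IsChar y
  str : ∀ᵐ y ∂ν, y ∈ AA → ∃ M : ℕ, NH M ∧ y ∈ SM M
  zero : ∀ u : KG, u ≠ 0 → ∫ y in AAᶜ, (y u : ℂ) ∂ν = 0

/-- the points of a small box in `M RH` -/
def bx (M N : ℕ) (p : ℕ × ℕ) : KG := (M : KG) * ((p.1 : KG) + (p.2 : KG) * iK) / 2 ^ N

/-- the indices of the box -/
def sq (N : ℕ) : Finset (ℕ × ℕ) := Finset.range (N + 1) ×ˢ Finset.range (N + 1)

/-- small representatives of the classes modulo `M` -/
def zz {M : ℕ} (K : ℕ) (h : AM M) : KG := lft h / 2 ^ (M.totient * K)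

/-- the average of `y` over the small box -/
def av (M N : ℕ) (y : KG → Circle) : ℂ := ((N + 1 : ℂ) ^ 2)⁻¹ * ∑ p ∈ sq N, (y (bx M N p) : ℂ)

/-- the average of the indicator function of the colour `i` over the small box -/
def Av {k : ℕ} (M N : ℕ) (i : Fin k) (ω : KG → Fin k) : ℝ :=
  ((N + 1 : ℝ) ^ 2)⁻¹ * ∑ p ∈ sq N, ind i (shift (bx M N p) ω)

/-- a random colouring of `KG` together with its spectral measures -/
structure Spec (k : ℕ) (μ : Measure (KG → Fin k)) (ν : Fin k → Measure (KG → Circle)) : Prop where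
  col : RandCol KG k μ
  nice : ∀ i, Nice (ν i)
  corr : ∀ (i : Fin k) (u : KG),
    ((∫ ω, ind i (shift u ω) * ind i ω ∂μ : ℝ) : ℂ) = ∫ y, (y u : ℂ) ∂(ν i)

/-- `G` is the limit of the averages `Av M N i` -/
structure Lim {k : ℕ} (μ : Measure (KG → Fin k)) (M : ℕ) (i : Fin k) (G : (KG → Fin k) → ℝ) :
    Prop where
  meas : Measurable G
  nonneg : ∀ ω, 0 ≤ G ω
  le_one : ∀ ω, G ω ≤ 1
  lim : Tendsto (fun N => ∫ ω, (Av M N i ω - G ω) ^ 2 ∂μ) atTop (𝓝 0)

/-- the unit circle has a point `(q, y)`, `q` rational, `y ∈ F`, such that `l` divides the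
denominator of `2 q` -/
def PtF (F : Subfield ℝ) (l : ℕ) : Prop :=
  ∃ q : ℚ, ∃ y ∈ F, (q : ℝ) ^ 2 + y ^ 2 = 1 ∧ padicValRat l (2 * q) < 0

/-- the quadratic form of the mixing inequality -/
def FF (a b : ℝ) : ℝ := a * b - lam / 2 * (a * (1 - a) + b * (1 - b))

end Pool.Agent.MP_8b8716_co_QF
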