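import Mathlib
import Pool.Agent.Lib.MP_8b8716_co_QF.Defs

set_option autoImplicit false

/-!
# MP_8b8716_co, project QF: facts on `RH`
-/

noncomputable section

namespace Pool.Agent.MP_8b8716_co_QF

open Complex MeasureTheory Filter Topology Set
open Pool.Agent.MP_8b8716_co_HN

namespace RHf

theorem not_dvd_one {l : ℕ} (hl : HP l) : ¬ l ∣ 1 := fun hd => hl.1.one_lt.ne' (Nat.dvd_one.1 hd)

theorem HP.ne_two {l : ℕ} (hl : HP l) : l ≠ 2 := by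
  intro h
  have := hl.2.2
  omega

theorem HP.ne_five {l : ℕ} (hl : HP l) : l ≠ 5 := by
  intro h
  have := hl.2.2
  omega

theorem not_dvd_two_pow {l : ℕ} (hl : HP l) (n : ℕ) : ¬ l ∣ 2 ^ n := by
  intro hd
  exact HP.ne_two hl ((Nat.prime_dvd_prime_iff_eq hl.1 Nat.prime_two).1 (hl.1.dvd_of_dvd_pow hd))

theorem not_dvd_five_pow {l : ℕ} (hl : HP l) (n : ℕ) : ¬ l ∣ 5 ^ n := by
  intro hd
  exact HP.ne_five hl ((Nat.prime_dvd_prime_iff_eq hl.1 Nat.prime_five).1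
    (hl.1.dvd_of_dvd_pow hd))

theorem iK_mem_Zi : iK ∈ Zi := ⟨0, 1, by simp [iK]⟩

theorem coe_iK : (iK : ℂ) = I := rfl

theorem pp_mem_Zi : pp ∈ Zi := ⟨2, 1, by simp [pp]⟩

theorem pb_mul_pp : pb * pp = 5 := by
  apply Subtype.ext
  show (2 - I : ℂ) * (2 + I) = ((5 : KG) : ℂ)
  have h : ((5 : KG) : ℂ) = 5 := rfl
  rw [h]
  linear_combination -I_mul_I

theorem pb_ne_zero : pb ≠ 0 := by
  intro h
  have h1 := pb_mul_pp
  rw [h, zero_mul] at h1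
  have h2 : ((5 : KG) : ℂ) = 0 := by rw [← h1]; rfl
  have h3 : ((5 : KG) : ℂ) = 5 := rfl
  rw [h3] at h2
  norm_num at h2

theorem two_ne : (2 : KG) ≠ 0 := two_ne_zero

theorem NH.odd {M : ℕ} (hM : NH M) : Nat.Coprime 2 M := by
  rw [Nat.prime_two.coprime_iff_not_dvd]
  intro h
  exact HP.ne_two (hM.2 2 Nat.prime_two h) rfl

theorem coe_natCast (n : ℕ) : ((n : KG) : ℂ) = n := rfl

theorem re_add_mul_I (a b : ℕ) : ((a : ℂ) + (b : ℂ) * I).re = a := by simp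

theorem norm_add_mul_I_le (a b : ℕ) : ‖(a : ℂ) + (b : ℂ) * I‖ ≤ a + b := by
  refine (norm_add_le _ _).trans ?_
  rw [norm_mul, norm_I, mul_one]
  simp

end RHf

theorem Zi_le_RH {w : KG} (hw : w ∈ Zi) : w ∈ RH :=
  ⟨1, one_ne_zero, fun _ hl => RHf.not_dvd_one hl, by rwa [Nat.cast_one, one_mul]⟩

theorem div_two_pow_mem_RH {w : KG} (hw : w ∈ RH) (n : ℕ) : w / 2 ^ n ∈ RH := by
  obtain ⟨m, h0, h1, h2⟩ := hw
  refine ⟨m * 2 ^ n, mul_ne_zero h0 (by positivity), fun l hl hd => ?_, ?_⟩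
  · rcases (hl.1.dvd_mul).1 hd with h | h
    · exact h1 l hl h
    · exact RHf.not_dvd_two_pow hl n h
  · have h3 : ((m * 2 ^ n : ℕ) : KG) * (w / 2 ^ n) = m * w := by
      push_cast
      have := pow_ne_zero n RHf.two_ne
      field_simp
    rw [h3]
    exact h2

theorem Lt_one_sub_RH {k : ℕ} {w : KG} (hw : w ∈ Lt 1 k) : w ∈ RH := by
  obtain ⟨g, hg, rfl⟩ := hw
  refine ⟨5 ^ k, by positivity, fun l hl => RHf.not_dvd_five_pow hl k, ?_⟩
  have h1 : ((5 ^ k : ℕ) : KG) * (g / (1 * pb ^ (k : ℤ))) = g * pp ^ k := by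
    have h2 := pow_ne_zero k RHf.pb_ne_zero
    have h3 : ((5 ^ k : ℕ) : KG) = pb ^ k * pp ^ k := by
      rw [← mul_pow, RHf.pb_mul_pp]
      push_cast
      rfl
    rw [h3, one_mul, zpow_natCast]
    field_simp
  rw [h1]
  exact Zi.mul_mem hg (Zi.pow_mem RHf.pp_mem_Zi k)

theorem iK_mem_RH : iK ∈ RH := Zi_le_RH RHf.iK_mem_Zi

theorem bx_mem_RH (M N : ℕ) (p : ℕ × ℕ) : ∃ v ∈ RH, bx M N p = M * v := by
  refine ⟨((p.1 : KG) + (p.2 : KG) * iK) / 2 ^ N, div_two_pow_mem_RH ?_ N, ?_⟩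
  · exact RH.add_mem (natCast_mem RH _) (RH.mul_mem (natCast_mem RH _) iK_mem_RH)
  · rw [bx, mul_div_assoc]

theorem lft_mem_RH {M : ℕ} (h : AM M) : lft h ∈ RH :=
  RH.add_mem (natCast_mem RH _) (RH.mul_mem (natCast_mem RH _) iK_mem_RH)

theorem RHf.val_add {M : ℕ} [NeZero M] (a b : ZMod M) :
    ∃ s : ℤ, ((a + b).val : KG) - ((a.val : KG) + (b.val : KG)) = M * (s : KG) := by
  have h1 : (a + b).val = (a.val + b.val) % M := ZMod.val_add a b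
  have h2 := Nat.div_add_mod (a.val + b.val) M
  rw [← h1] at h2
  generalize (a.val + b.val) / M = q at h2
  refine ⟨-(q : ℤ), ?_⟩
  have h3 : ((M * q + (a + b).val : ℕ) : KG) = ((a.val + b.val : ℕ) : KG) := by
    rw [h2]
  push_cast at h3 ⊢
  linear_combination h3

theorem lft_add {M : ℕ} [NeZero M] (h h' : AM M) :
    ∃ v ∈ RH, lft (h + h') - (lft h + lft h') = M * v := by
  obtain ⟨s, hs⟩ := RHf.val_add h.1 h'.1
  obtain ⟨t, ht⟩ := RHf.val_add h.2 h'.2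
  refine ⟨(s : KG) + (t : KG) * iK, RH.add_mem (intCast_mem RH _)
    (RH.mul_mem (intCast_mem RH _) iK_mem_RH), ?_⟩
  unfold lft
  rw [Prod.fst_add, Prod.snd_add]
  linear_combination hs + iK * ht

theorem zz_sub_lft {M : ℕ} (hM : NH M) (K : ℕ) (h : AM M) :
    ∃ v ∈ RH, zz K h - lft h = M * v := by
  have h1 : M ∣ 2 ^ (M.totient * K) - 1 := by
    have h2 : 2 ^ M.totient ≡ 1 [MOD M] := Nat.ModEq.pow_totient (RHf.NH.odd hM)
    have h3 := h2.pow K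
    rw [one_pow, ← pow_mul] at h3
    exact (Nat.modEq_iff_dvd' Nat.one_le_two_pow).1 h3.symm
  obtain ⟨t, ht⟩ := h1
  have h4 : (2 : KG) ^ (M.totient * K) - 1 = M * t := by
    have h5 : ((2 ^ (M.totient * K) - 1 : ℕ) : KG) = ((M * t : ℕ) : KG) := by rw [ht]
    rw [Nat.cast_sub Nat.one_le_two_pow] at h5
    push_cast at h5
    exact h5
  refine ⟨-(lft h * t) / 2 ^ (M.totient * K), div_two_pow_mem_RH
    (RH.neg_mem (RH.mul_mem (lft_mem_RH h) (natCast_mem RH t))) _, ?_⟩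
  have h6 := pow_ne_zero (M.totient * K) RHf.two_ne
  unfold zz
  field_simp
  linear_combination -lft h * h4

theorem norm_zz_le {M : ℕ} (hM : NH M) (K : ℕ) (h : AM M) :
    ‖(zz K h : ℂ)‖ ≤ 2 * M / 2 ^ K := by
  have : NeZero M := ⟨hM.1⟩
  have h1 : (zz K h : ℂ) = ((h.1.val : ℂ) + (h.2.val : ℂ) * I) / 2 ^ (M.totient * K) := rfl
  rw [h1, norm_div, norm_pow, Complex.norm_ofNat]
  have h2 : ‖(h.1.val : ℂ) + (h.2.val : ℂ) * I‖ ≤ 2 * M := by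
    refine (RHf.norm_add_mul_I_le _ _).trans ?_
    have h3 : (h.1.val : ℝ) ≤ M := by exact_mod_cast (ZMod.val_lt h.1).le
    have h4 : (h.2.val : ℝ) ≤ M := by exact_mod_cast (ZMod.val_lt h.2).le
    linarith
  have h5 : (2 : ℝ) ^ K ≤ 2 ^ (M.totient * K) := by
    refine pow_le_pow_right₀ (by norm_num) ?_
    have := Nat.totient_pos.2 (Nat.pos_of_ne_zero hM.1)
    exact Nat.le_mul_of_pos_left K this
  gcongr

theorem norm_bx_le {M N : ℕ} {p : ℕ × ℕ} (hp : p ∈ sq N) :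
    ‖(bx M N p : ℂ)‖ ≤ 2 * M * N / 2 ^ N := by
  have h1 : (bx M N p : ℂ) = (M : ℂ) * ((p.1 : ℂ) + (p.2 : ℂ) * I) / 2 ^ N := rfl
  rw [sq, Finset.mem_product, Finset.mem_range, Finset.mem_range] at hp
  have h2 : ‖(p.1 : ℂ) + (p.2 : ℂ) * I‖ ≤ 2 * N := by
    refine (RHf.norm_add_mul_I_le _ _).trans ?_
    have h3 : (p.1 : ℝ) ≤ N := by exact_mod_cast Nat.lt_succ_iff.1 hp.1
    have h4 : (p.2 : ℝ) ≤ N := by exact_mod_cast Nat.lt_succ_iff.1 hp.2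
    linarith
  rw [h1, norm_div, norm_pow, Complex.norm_ofNat, norm_mul, Complex.norm_natCast]
  have h5 : (M : ℝ) * ‖(p.1 : ℂ) + (p.2 : ℂ) * I‖ ≤ 2 * M * N := by
    calc (M : ℝ) * ‖(p.1 : ℂ) + (p.2 : ℂ) * I‖ ≤ M * (2 * N) := by gcongr
      _ = _ := by ring
  gcongr

theorem bx_injective {M : ℕ} (hM : NH M) (N : ℕ) : Function.Injective (bx M N) := by
  intro p p' h
  have hM0 : (M : ℂ) ≠ 0 := Nat.cast_ne_zero.2 hM.1
  have h1 : (M : ℂ) * ((p.1 : ℂ) + (p.2 : ℂ) * I) / 2 ^ N =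
      (M : ℂ) * ((p'.1 : ℂ) + (p'.2 : ℂ) * I) / 2 ^ N := congrArg (Subtype.val) h
  have h2 : ((p.1 : ℂ) + (p.2 : ℂ) * I) = ((p'.1 : ℂ) + (p'.2 : ℂ) * I) := by
    have h3 : ((2 : ℂ) ^ N) ≠ 0 := pow_ne_zero N two_ne_zero
    have h4 := (div_left_inj' h3).1 h1
    exact mul_left_cancel₀ hM0 h4
  have h5 := congrArg Complex.re h2
  have h6 := congrArg Complex.im h2
  simp at h5 h6
  exact Prod.ext h5 h6

theorem coprime_of_HP {m n : ℕ} (hm : NH m) (hn : ∀ l, HP l → ¬ l ∣ n) : Nat.Coprime m n := by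
  rw [Nat.coprime_iff_gcd_eq_one]
  by_contra h
  obtain ⟨l, hl, hd⟩ := Nat.exists_prime_and_dvd h
  exact hn l (hm.2 l hl (hd.trans (Nat.gcd_dvd_left _ _))) (hd.trans (Nat.gcd_dvd_right _ _))

end Pool.Agent.MP_8b8716_co_QF
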