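import Mathlib
import Pool.Agent.Lib.MP_8b8716_co_HN.NumC
import Pool.Agent.Lib.MP_8b8716_co_QF.Defs
import Pool.Agent.Lib.MP_8b8716_co_QF.RHf

set_option autoImplicit false

/-!
# MP_8b8716_co, project QF: facts on `SM`
-/

noncomputable section

namespace Pool.Agent.MP_8b8716_co_QF

open Complex MeasureTheory Filter Topology Set
open Pool.Agent.MP_8b8716_co_HN

namespace SMf

theorem nat_mul_mem {w : KG} (hw : w ∈ RH) (t : ℕ) : (t : KG) * w ∈ RH :=
  RH.mul_mem (natCast_mem RH t) hw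

theorem el_nat (ξ : ℂ) (t : ℕ) (w : KG) : el ξ (((t : KG) * w : KG) : ℂ) = el (t * ξ) w := by
  have h : (((t : KG) * w : KG) : ℂ) = (t : ℂ) * w := by push_cast; rfl
  rw [h, el_mul, mul_comm ξ]

end SMf

theorem SM_mono {y : KG → Circle} {M M' : ℕ} (h : M ∣ M') (hy : y ∈ SM M) : y ∈ SM M' := by
  obtain ⟨t, rfl⟩ := h
  obtain ⟨ξ, hξ⟩ := hy
  refine ⟨ξ, fun w hw => ?_⟩
  have h1 := hξ _ (SMf.nat_mul_mem hw t)
  rw [SMf.el_nat] at h1
  have e1 : ((M * t : ℕ) : KG) * w = (M : KG) * ((t : KG) * w) := by push_cast; ring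
  have e2 : ((M * t : ℕ) : ℂ) * ξ = (t : ℂ) * ((M : ℂ) * ξ) := by push_cast; ring
  rw [e1, e2, h1]

theorem measurableSet_SM (M : ℕ) : MeasurableSet (SM M) := by
  have h1 : SM M = ⋃ R : ℕ, {y : KG → Circle | ∃ ξ : ℂ, ‖ξ‖ ≤ (R : ℝ) ∧
      ∀ w ∈ RH, y ((M : KG) * w) = el (M * ξ) w} := by
    ext y
    simp only [SM, mem_ofPred_eq, mem_iUnion]
    constructor
    · rintro ⟨ξ, hξ⟩
      obtain ⟨R, hR⟩ := exists_nat_ge ‖ξ‖
      exact ⟨R, ξ, hR, hξ⟩
    · rintro ⟨R, ξ, -, hξ⟩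
      exact ⟨ξ, hξ⟩
  rw [h1]
  refine MeasurableSet.iUnion fun R => IsClosed.measurableSet (NumC.isClosed_proj _ _ ?_)
  have h2 : {p : (KG → Circle) × ℂ | ∀ w ∈ RH, p.1 ((M : KG) * w) = el (M * p.2) w} =
      ⋂ w ∈ RH, {p : (KG → Circle) × ℂ | p.1 ((M : KG) * w) = el (M * p.2) w} := by
    ext p
    simp
  rw [h2]
  refine isClosed_biInter fun w _ => isClosed_eq ?_ ?_
  · exact (continuous_apply _).comp continuous_fst
  · exact (continuous_el_left w).comp (continuous_const.mul continuous_snd)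

theorem SM_freq {y : KG → Circle} {M M' : ℕ} (hM : M ≠ 0) (hM' : M' ≠ 0) {ξ ξ' : ℂ}
    (hy : IsChar y) (h : ∀ w ∈ RH, y ((M : KG) * w) = el (M * ξ) w)
    (h' : ∀ w ∈ RH, y ((M' : KG) * w) = el (M' * ξ') w) : ξ = ξ' := by
  have key : ∀ w ∈ RH, el ((M' : ℂ) * (M * ξ)) w = el ((M : ℂ) * (M' * ξ')) w := by
    intro w hw
    have h1 := h _ (SMf.nat_mul_mem hw M')
    have h2 := h' _ (SMf.nat_mul_mem hw M)
    rw [SMf.el_nat] at h1 h2
    rw [← h1, ← h2]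
    congr 1
    ring
  have h3 : (M : ℂ) * M' * (ξ - ξ') = 0 := by
    refine eq_zero_of_el fun k w hw => ?_
    have h4 := key w (Lt_one_sub_RH hw)
    have e : (M : ℂ) * M' * (ξ - ξ') = (M' : ℂ) * (M * ξ) - (M : ℂ) * (M' * ξ') := by ring
    rw [e, el_sub_left, h4, div_self']
  have h5 : (M : ℂ) ≠ 0 := by exact_mod_cast hM
  have h6 : (M' : ℂ) ≠ 0 := by exact_mod_cast hM'
  have h7 := (mul_eq_zero.1 h3).resolve_left (mul_ne_zero h5 h6)
  exact sub_eq_zero.1 h7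

theorem mem_SM_of {y : KG → Circle} (hy : IsChar y) {m M N : ℕ} (hm : NH m) (hM : NH M) {ξ : ℂ}
    (h : ∀ w ∈ RH, y ((m : KG) * w) = el (m * ξ) w)
    (h1 : y (M / 2 ^ N) = el ξ (M / 2 ^ N)) (h2 : y (M * iK / 2 ^ N) = el ξ (M * iK / 2 ^ N)) :
    ∀ w ∈ RH, y ((M : KG) * w) = el (M * ξ) w := by
  set τ : KG → Circle := y / fun w : KG => el ξ w with hτ
  have hτc : IsChar τ := hy.div (isChar_el KG ξ)
  have hτm : ∀ w ∈ RH, τ ((m : KG) * w) = 1 := by
    intro w hw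
    rw [hτ, Pi.div_apply, h w hw, SMf.el_nat, div_self']
  have h2N : (2 : KG) ^ N ≠ 0 := pow_ne_zero N two_ne_zero
  have hpow : ∀ v : KG, τ (v / 2 ^ N) = 1 → τ v = 1 := by
    intro v hv
    have e : v = ((2 ^ N : ℕ) : KG) * (v / 2 ^ N) := by
      push_cast
      field_simp
    rw [e, hτc.map_natMul, hv, one_pow]
  have hτ1 : τ (M : KG) = 1 := by
    apply hpow
    have e : (((M : KG) / 2 ^ N : KG) : ℂ) = (M : ℂ) / 2 ^ N := by push_cast; rfl
    rw [hτ, Pi.div_apply, h1, e, div_self']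
  have hτ2 : τ ((M : KG) * iK) = 1 := by
    apply hpow
    have e : (((M : KG) * iK / 2 ^ N : KG) : ℂ) = (M : ℂ) * iK / 2 ^ N := by push_cast; rfl
    rw [hτ, Pi.div_apply, h2, e, div_self']
  intro w hw
  obtain ⟨n, hn0, hn, a, b, hab⟩ := id hw
  have hab' : (n : KG) * w = (a : KG) + b * iK := by
    apply Subtype.ext
    rw [hab]
    push_cast
    rfl
  have hn1 : τ ((M : KG) * w) ^ n = 1 := by
    rw [← hτc.map_natMul]
    have e : (n : KG) * ((M : KG) * w) = (a : KG) * (M : KG) + (b : KG) * ((M : KG) * iK) := by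
      calc (n : KG) * ((M : KG) * w) = (M : KG) * ((n : KG) * w) := by ring
        _ = (M : KG) * ((a : KG) + b * iK) := by rw [hab']
        _ = _ := by ring
    rw [e, hτc, hτc.map_intMul, hτc.map_intMul, hτ1, hτ2, one_zpow, one_zpow, one_mul]
  have hm1 : τ ((M : KG) * w) ^ m = 1 := by
    rw [← hτc.map_natMul]
    exact hτm _ (SMf.nat_mul_mem hw M)
  have hcop := coprime_of_HP hm hn
  have hone : τ ((M : KG) * w) = 1 := by
    have d1 := orderOf_dvd_of_pow_eq_one hn1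
    have d2 := orderOf_dvd_of_pow_eq_one hm1
    have d3 := Nat.dvd_gcd d2 d1
    rw [hcop.gcd_eq_one, Nat.dvd_one] at d3
    exact orderOf_eq_one_iff.1 d3
  rw [hτ, Pi.div_apply, div_eq_one, SMf.el_nat] at hone
  exact hone

end Pool.Agent.MP_8b8716_co_QF
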