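import Mathlib
import Pool.Agent.Lib.MP_8b8716_co_QF.Defs
import Pool.Agent.Lib.MP_8b8716_co_QF.RHf
import Pool.Agent.Lib.MP_8b8716_co_QF.SMf

set_option autoImplicit false

/-!
# MP_8b8716_co, project QF, module AvY: averages of characters over small boxes
-/

noncomputable section

namespace Pool.Agent.MP_8b8716_co_QF

open Complex MeasureTheory Filter Topology Set
open Pool.Agent.MP_8b8716_co_HN

namespace AvY

theorem card_sq (N : ℕ) : (sq N).card = (N + 1) ^ 2 := by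
  unfold sq
  rw [Finset.card_product, Finset.card_range]
  ring

/-- averages over the box -/
theorem norm_avg_le {N : ℕ} {f : ℕ × ℕ → ℂ} {c : ℝ} (h : ∀ p ∈ sq N, ‖f p‖ ≤ c) :
    ‖((N + 1 : ℂ) ^ 2)⁻¹ * ∑ p ∈ sq N, f p‖ ≤ c := by
  have h0 : (0:ℝ) < ((N:ℝ) + 1) ^ 2 := by positivity
  have h1 : ‖∑ p ∈ sq N, f p‖ ≤ ((N:ℝ) + 1) ^ 2 * c := by
    refine (norm_sum_le _ _).trans ((Finset.sum_le_sum h).trans (le_of_eq ?_))
    rw [Finset.sum_const, card_sq, nsmul_eq_mul]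
    push_cast
    ring
  have h2 : ‖((N + 1 : ℂ) ^ 2)⁻¹‖ = (((N:ℝ) + 1) ^ 2)⁻¹ := by
    have h3 : ((N + 1 : ℂ) ^ 2)⁻¹ = (((((N:ℝ) + 1) ^ 2)⁻¹ : ℝ) : ℂ) := by
      push_cast
      ring
    rw [h3, Complex.norm_real, Real.norm_of_nonneg (by positivity)]
  rw [norm_mul, h2, inv_mul_le_iff₀ h0]
  exact h1

/-- the part of `y` which is not continuous -/
def tau (ξ : ℂ) (y : KG → Circle) : KG → Circle := fun w => y w * (el ξ w)⁻¹

theorem isChar_tau {ξ : ℂ} {y : KG → Circle} (hy : IsChar y) : IsChar (tau ξ y) := by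
  intro a b
  show y (a + b) * (el ξ ((a + b : KG) : ℂ))⁻¹ = y a * (el ξ a)⁻¹ * (y b * (el ξ b)⁻¹)
  rw [hy a b, Subfield.coe_add, el_add_right, mul_inv]
  exact mul_mul_mul_comm _ _ _ _

theorem eq_tau (ξ : ℂ) (y : KG → Circle) (w : KG) : y w = el ξ w * tau ξ y w := by
  unfold tau
  rw [mul_comm, inv_mul_cancel_right]

theorem tau_eq_one_iff {ξ : ℂ} {y : KG → Circle} {w : KG} : tau ξ y w = 1 ↔ y w = el ξ w := by
  unfold tau
  exact mul_inv_eq_one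

/-- `τ` is trivial on `m RH` -/
theorem tau_mul {ξ : ℂ} {y : KG → Circle} {m : ℕ}
    (h : ∀ w ∈ RH, y ((m : KG) * w) = el (m * ξ) w) {w : KG} (hw : w ∈ RH) :
    tau ξ y ((m : KG) * w) = 1 := by
  rw [tau_eq_one_iff, h w hw]
  have h1 : (((m : KG) * w : KG) : ℂ) = (m : ℂ) * (w : ℂ) := by
    rw [Subfield.coe_mul]
    rfl
  rw [h1, el_mul, mul_comm ξ]

/-- the two characters of the box -/
theorem tau_bx {ξ : ℂ} {y : KG → Circle} (hy : IsChar y) (M N : ℕ) (p : ℕ × ℕ) :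
    tau ξ y (bx M N p) = tau ξ y (M / 2 ^ N) ^ p.1 * tau ξ y (M * iK / 2 ^ N) ^ p.2 := by
  have h1 : bx M N p = (p.1 : KG) * (M / 2 ^ N) + (p.2 : KG) * (M * iK / 2 ^ N) := by
    unfold bx
    ring
  rw [h1, isChar_tau hy, (isChar_tau hy).map_natMul, (isChar_tau hy).map_natMul]

/-- the average of `y` is close to the average of `τ` -/
theorem av_sub_le {ξ : ℂ} {y : KG → Circle} (hy : IsChar y) (M N : ℕ) :
    ‖av M N y - ((N + 1 : ℂ) ^ 2)⁻¹ * ((∑ j ∈ Finset.range (N + 1), (tau ξ y (M / 2 ^ N) : ℂ) ^ j) *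
      ∑ j ∈ Finset.range (N + 1), (tau ξ y (M * iK / 2 ^ N) : ℂ) ^ j)‖ ≤
      2 * Real.pi * ‖ξ‖ * (2 * M * N / 2 ^ N) := by
  have h1 : (∑ j ∈ Finset.range (N + 1), (tau ξ y (M / 2 ^ N) : ℂ) ^ j) *
      ∑ j ∈ Finset.range (N + 1), (tau ξ y (M * iK / 2 ^ N) : ℂ) ^ j =
      ∑ p ∈ sq N, (tau ξ y (bx M N p) : ℂ) := by
    unfold sq
    rw [Finset.sum_mul_sum, ← Finset.sum_product']
    refine Finset.sum_congr rfl fun p _ => ?_
    rw [tau_bx hy]
    push_cast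
    ring
  rw [h1]
  unfold av
  rw [← mul_sub, ← Finset.sum_sub_distrib]
  refine norm_avg_le fun p hp => ?_
  have h2 : (y (bx M N p) : ℂ) - (tau ξ y (bx M N p) : ℂ) =
      ((el ξ (bx M N p) : ℂ) - 1) * (tau ξ y (bx M N p) : ℂ) := by
    have h3 := congrArg (fun z : Circle => (z : ℂ)) (eq_tau ξ y (bx M N p))
    simp only [Circle.coe_mul] at h3
    rw [h3]
    ring
  rw [h2, norm_mul, Circle.norm_coe, mul_one]
  refine (norm_el_sub_one_le _ _).trans ?_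
  exact mul_le_mul_of_nonneg_left (norm_bx_le hp) (by positivity)

theorem tendsto_err (c : ℝ) (M : ℕ) :
    Tendsto (fun N : ℕ => c * (2 * M * N / 2 ^ N : ℝ)) atTop (𝓝 0) := by
  have h1 : Tendsto (fun N : ℕ => (N : ℝ) * (1 / 2 : ℝ) ^ N) atTop (𝓝 0) :=
    tendsto_self_mul_const_pow_of_lt_one (by norm_num) (by norm_num)
  have h2 := h1.const_mul (c * (2 * M))
  rw [mul_zero] at h2
  refine h2.congr fun N => ?_
  rw [one_div, inv_pow]
  ring

/-- powers of a root of unity have bounded sums -/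
theorem norm_geom_le {m : ℕ} (hm : 0 < m) {z : ℂ} (hz : ‖z‖ = 1) (h : z ^ m = 1) (h1 : z ≠ 1)
    (N : ℕ) : ‖∑ j ∈ Finset.range N, z ^ j‖ ≤ 2 * m := by
  have hz1 : z - 1 ≠ 0 := sub_ne_zero.2 h1
  have hpos : 0 < ‖z - 1‖ := norm_pos_iff.2 hz1
  have hpow : ∀ j : ℕ, ‖1 - z ^ j‖ ≤ j * ‖z - 1‖ := by
    intro j
    rw [← mul_neg_geom_sum, norm_mul, norm_sub_rev 1 z, mul_comm]
    refine mul_le_mul_of_nonneg_right ?_ hpos.le
    refine (norm_sum_le _ _).trans (le_of_eq ?_)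
    simp [hz]
  have hm0 : (0:ℝ) < m := by exact_mod_cast hm
  have h2 : (m : ℝ) ≤ (m : ℝ) * ((m : ℝ) * ‖z - 1‖) := by
    have h3 : ∑ j ∈ Finset.range m, z ^ j = 0 := by
      rw [geom_sum_eq h1, h, sub_self, zero_div]
    have h4 : (m : ℂ) = ∑ j ∈ Finset.range m, (1 - z ^ j) := by
      rw [Finset.sum_sub_distrib, h3, sub_zero]
      simp
    have h5 : (m : ℝ) = ‖(m : ℂ)‖ := (Complex.norm_natCast m).symm
    calc (m : ℝ) = ‖∑ j ∈ Finset.range m, (1 - z ^ j)‖ := by rw [h5, ← h4]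
      _ ≤ ∑ j ∈ Finset.range m, ‖1 - z ^ j‖ := norm_sum_le _ _
      _ ≤ ∑ j ∈ Finset.range m, (m : ℝ) * ‖z - 1‖ := by
          refine Finset.sum_le_sum fun j hj => (hpow j).trans ?_
          refine mul_le_mul_of_nonneg_right ?_ hpos.le
          exact_mod_cast (Finset.mem_range.1 hj).le
      _ = (m : ℝ) * ((m : ℝ) * ‖z - 1‖) := by
          rw [Finset.sum_const, Finset.card_range, nsmul_eq_mul]
  have h3 : 1 ≤ (m : ℝ) * ‖z - 1‖ := by
    by_contra h4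
    have h5 : (m : ℝ) * ((m : ℝ) * ‖z - 1‖) < m * 1 := mul_lt_mul_of_pos_left (not_le.1 h4) hm0
    linarith
  rw [geom_sum_eq h1, norm_div, div_le_iff₀ hpos]
  have h4 : ‖z ^ N - 1‖ ≤ 2 := by
    refine (norm_sub_le _ _).trans ?_
    rw [norm_pow, hz, one_pow, norm_one]
    norm_num
  calc ‖z ^ N - 1‖ ≤ 2 := h4
    _ ≤ 2 * ((m : ℝ) * ‖z - 1‖) := by linarith
    _ = 2 * m * ‖z - 1‖ := by ring

theorem norm_geom_le' {z : ℂ} (hz : ‖z‖ = 1) (N : ℕ) :
    ‖∑ j ∈ Finset.range (N + 1), z ^ j‖ ≤ N + 1 := by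
  refine (norm_sum_le _ _).trans (le_of_eq ?_)
  simp [hz]

theorem measurable_ev (u : KG) : Measurable fun y : KG → Circle => (y u : ℂ) := by
  have h : Continuous fun z : Circle => (z : ℂ) := continuous_subtype_val
  exact h.measurable.comp (measurable_pi_apply u)

theorem integrable_ev (ν : Measure (KG → Circle)) [IsFiniteMeasure ν] (u : KG) :
    Integrable (fun y : KG → Circle => (y u : ℂ)) ν :=
  Integrable.of_bound (measurable_ev u).aestronglyMeasurable 1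
    (Eventually.of_forall fun y => by rw [Circle.norm_coe])

end AvY

open AvY

theorem av_tendsto_one {M : ℕ} (hM : NH M) {y : KG → Circle} (hy : IsChar y) (h : y ∈ SM M) :
    Tendsto (fun N => av M N y) atTop (𝓝 1) := by
  obtain ⟨ξ, hξ⟩ := h
  rw [tendsto_iff_norm_sub_tendsto_zero]
  refine squeeze_zero (fun N => norm_nonneg _) (fun N => ?_)
    (tendsto_err (2 * Real.pi * ‖ξ‖) M)
  have h1 := av_sub_le (ξ := ξ) hy M N
  have hα : tau ξ y (M / 2 ^ N) = 1 := by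
    rw [show (M : KG) / 2 ^ N = (M : KG) * (1 / 2 ^ N) by ring]
    exact tau_mul hξ (div_two_pow_mem_RH RH.one_mem N)
  have hβ : tau ξ y (M * iK / 2 ^ N) = 1 := by
    rw [show (M : KG) * iK / 2 ^ N = (M : KG) * (iK / 2 ^ N) by ring]
    exact tau_mul hξ (div_two_pow_mem_RH iK_mem_RH N)
  rw [hα, hβ] at h1
  have h2 : ((N + 1 : ℂ) ^ 2)⁻¹ * ((∑ j ∈ Finset.range (N + 1), ((1 : Circle) : ℂ) ^ j) *
      ∑ j ∈ Finset.range (N + 1), ((1 : Circle) : ℂ) ^ j) = 1 := by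
    have h3 : (N + 1 : ℂ) ≠ 0 := by exact_mod_cast Nat.succ_ne_zero N
    simp only [Circle.coe_one, one_pow, Finset.sum_const, Finset.card_range, nsmul_eq_mul, mul_one]
    push_cast
    field_simp
  rw [h2] at h1
  exact h1

theorem av_tendsto_zero {M : ℕ} (hM : NH M) {y : KG → Circle} (hy : IsChar y)
    (hs : ∃ m, NH m ∧ y ∈ SM m) (h : y ∉ SM M) :
    Tendsto (fun N => av M N y) atTop (𝓝 0) := by
  obtain ⟨m, hm, ξ, hξ⟩ := hs
  have hm0 : 0 < m := Nat.pos_of_ne_zero hm.1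
  rw [tendsto_zero_iff_norm_tendsto_zero]
  have hlim : Tendsto (fun N : ℕ => 2 * Real.pi * ‖ξ‖ * (2 * M * N / 2 ^ N) +
      2 * m * (1 / ((N : ℝ) + 1))) atTop (𝓝 0) := by
    have h1 := tendsto_err (2 * Real.pi * ‖ξ‖) M
    have h2 := (tendsto_one_div_add_atTop_nhds_zero_nat (𝕜 := ℝ)).const_mul (2 * (m : ℝ))
    have h3 := h1.add h2
    simpa using h3
  refine squeeze_zero (fun N => norm_nonneg _) (fun N => ?_) hlim
  have h1 := av_sub_le (ξ := ξ) hy M N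
  set α := tau ξ y (M / 2 ^ N) with hα
  set β := tau ξ y (M * iK / 2 ^ N) with hβ
  have hαm : α ^ m = 1 := by
    have h2 := tau_mul hξ (div_two_pow_mem_RH (natCast_mem RH M) N)
    rwa [(isChar_tau hy).map_natMul] at h2
  have hβm : β ^ m = 1 := by
    have h2 := tau_mul hξ (div_two_pow_mem_RH (RH.mul_mem (natCast_mem RH M) iK_mem_RH) N)
    rwa [(isChar_tau hy).map_natMul] at h2
  have hne : α ≠ 1 ∨ β ≠ 1 := by
    by_contra hcon
    push_neg at hcon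
    apply h
    exact ⟨ξ, mem_SM_of hy hm hM hξ (tau_eq_one_iff.1 (hα ▸ hcon.1))
      (tau_eq_one_iff.1 (hβ ▸ hcon.2))⟩
  have hαm' : (α : ℂ) ^ m = 1 := by
    have := congrArg (fun z : Circle => (z : ℂ)) hαm
    simpa using this
  have hβm' : (β : ℂ) ^ m = 1 := by
    have := congrArg (fun z : Circle => (z : ℂ)) hβm
    simpa using this
  have hbound : ‖(∑ j ∈ Finset.range (N + 1), (α : ℂ) ^ j) *
      ∑ j ∈ Finset.range (N + 1), (β : ℂ) ^ j‖ ≤ 2 * m * (N + 1) := by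
    rw [norm_mul]
    rcases hne with h2 | h2
    · have h3 : (α : ℂ) ≠ 1 := fun h4 => h2 (Circle.ext (by simpa using h4))
      exact mul_le_mul (norm_geom_le hm0 (Circle.norm_coe α) hαm' h3 _)
        (norm_geom_le' (Circle.norm_coe β) N) (norm_nonneg _) (by positivity)
    · have h3 : (β : ℂ) ≠ 1 := fun h4 => h2 (Circle.ext (by simpa using h4))
      rw [mul_comm]
      exact mul_le_mul (norm_geom_le hm0 (Circle.norm_coe β) hβm' h3 _)
        (norm_geom_le' (Circle.norm_coe α) N) (norm_nonneg _) (by positivity)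
  have h2 : ‖((N + 1 : ℂ) ^ 2)⁻¹ * ((∑ j ∈ Finset.range (N + 1), (α : ℂ) ^ j) *
      ∑ j ∈ Finset.range (N + 1), (β : ℂ) ^ j)‖ ≤ 2 * m * (1 / ((N : ℝ) + 1)) := by
    have h3 : ‖((N + 1 : ℂ) ^ 2)⁻¹‖ = (((N:ℝ) + 1) ^ 2)⁻¹ := by
      have h4 : ((N + 1 : ℂ) ^ 2)⁻¹ = (((((N:ℝ) + 1) ^ 2)⁻¹ : ℝ) : ℂ) := by
        push_cast
        ring
      rw [h4, Complex.norm_real, Real.norm_of_nonneg (by positivity)]
    rw [norm_mul, h3]
    have h5 : (0:ℝ) < (N:ℝ) + 1 := by positivity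
    calc (((N:ℝ) + 1) ^ 2)⁻¹ * ‖(∑ j ∈ Finset.range (N + 1), (α : ℂ) ^ j) *
        ∑ j ∈ Finset.range (N + 1), (β : ℂ) ^ j‖ ≤ (((N:ℝ) + 1) ^ 2)⁻¹ * (2 * m * (N + 1)) :=
          mul_le_mul_of_nonneg_left hbound (by positivity)
      _ = 2 * m * (1 / ((N : ℝ) + 1)) := by
          field_simp
  have h3 : av M N y = (av M N y - ((N + 1 : ℂ) ^ 2)⁻¹ *
      ((∑ j ∈ Finset.range (N + 1), (α : ℂ) ^ j) *
      ∑ j ∈ Finset.range (N + 1), (β : ℂ) ^ j)) + ((N + 1 : ℂ) ^ 2)⁻¹ *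
      ((∑ j ∈ Finset.range (N + 1), (α : ℂ) ^ j) *
      ∑ j ∈ Finset.range (N + 1), (β : ℂ) ^ j) := by ring
  rw [h3]
  exact (norm_add_le _ _).trans (add_le_add h1 h2)

theorem norm_av_le (M N : ℕ) (y : KG → Circle) : ‖av M N y‖ ≤ 1 :=
  norm_avg_le fun p _ => (Circle.norm_coe _).le

theorem av_off {ν : Measure (KG → Circle)} (hν : Nice ν) {M : ℕ} (hM : NH M) :
    Tendsto (fun N => ∫ y in AAᶜ, ‖av M N y‖ ^ 2 ∂ν) atTop (𝓝 0) := by
  haveI := hν.fin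
  have hchr : ∀ᵐ y ∂(ν.restrict AAᶜ), IsChar y := ae_restrict_of_ae hν.chr
  -- the integrals
  have hint : ∀ N : ℕ, ((∫ y in AAᶜ, ‖av M N y‖ ^ 2 ∂ν : ℝ) : ℂ) =
      ((N + 1 : ℂ) ^ 2)⁻¹ * (((ν.restrict AAᶜ) univ).toReal : ℂ) := by
    intro N
    rw [← integral_complex_ofReal]
    have h1 : ∀ᵐ y ∂(ν.restrict AAᶜ), (((‖av M N y‖ ^ 2 : ℝ)) : ℂ) =
        ((N + 1 : ℂ) ^ 2)⁻¹ * ((N + 1 : ℂ) ^ 2)⁻¹ *
          ∑ p ∈ sq N, ∑ p' ∈ sq N, (y (bx M N p - bx M N p') : ℂ) := by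
      filter_upwards [hchr] with y hy
      have h2 : (((‖av M N y‖ ^ 2 : ℝ)) : ℂ) = av M N y * (starRingEnd ℂ) (av M N y) := by
        rw [RCLike.mul_conj]
        push_cast
        rfl
      have h3 : (starRingEnd ℂ) (((N + 1 : ℂ) ^ 2)⁻¹) = ((N + 1 : ℂ) ^ 2)⁻¹ := by
        rw [map_inv₀, map_pow, map_add, map_one, Complex.conj_natCast]
      rw [h2]
      unfold av
      rw [map_mul, h3, map_sum]
      have h4 : ∑ p ∈ sq N, ∑ p' ∈ sq N, (y (bx M N p - bx M N p') : ℂ) =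
          (∑ p ∈ sq N, (y (bx M N p) : ℂ)) * ∑ p ∈ sq N, (starRingEnd ℂ) (y (bx M N p) : ℂ) := by
        rw [Finset.sum_mul_sum]
        refine Finset.sum_congr rfl fun p _ => Finset.sum_congr rfl fun p' _ => ?_
        rw [hy.map_sub, Circle.coe_div, div_eq_mul_inv, ← Circle.coe_inv, Circle.coe_inv_eq_conj]
      rw [h4]
      ring
    rw [integral_congr_ae h1, integral_const_mul, integral_finset_sum]
    · have h2 : ∀ p ∈ sq N, ∫ y in AAᶜ, ∑ p' ∈ sq N, (y (bx M N p - bx M N p') : ℂ) ∂ν =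
          (((ν.restrict AAᶜ) univ).toReal : ℂ) := by
        intro p hp
        rw [integral_finset_sum _ fun p' _ => integrable_ev _ _, Finset.sum_eq_single_of_mem p hp]
        · have h3 : ∀ᵐ y ∂(ν.restrict AAᶜ), (y (bx M N p - bx M N p) : ℂ) = 1 := by
            filter_upwards [hchr] with y hy
            rw [sub_self, hy.map_zero, Circle.coe_one]
          rw [integral_congr_ae h3, integral_const]
          simp [Measure.real]
        · intro p' _ hne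
          exact hν.zero _ (sub_ne_zero.2 fun h4 => hne (bx_injective hM N h4).symm)
      rw [Finset.sum_congr rfl h2, Finset.sum_const, card_sq, nsmul_eq_mul]
      have h3 : (N + 1 : ℂ) ≠ 0 := by exact_mod_cast Nat.succ_ne_zero N
      push_cast
      field_simp
    · intro p _
      exact integrable_finset_sum _ fun p' _ => integrable_ev _ _
  have hreal : ∀ N : ℕ, ∫ y in AAᶜ, ‖av M N y‖ ^ 2 ∂ν =
      (1 / ((N : ℝ) + 1)) ^ 2 * ((ν.restrict AAᶜ) univ).toReal := by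
    intro N
    have h1 := hint N
    have h2 : ((N + 1 : ℂ) ^ 2)⁻¹ * (((ν.restrict AAᶜ) univ).toReal : ℂ) =
        (((1 / ((N : ℝ) + 1)) ^ 2 * ((ν.restrict AAᶜ) univ).toReal : ℝ) : ℂ) := by
      push_cast
      rw [one_div, inv_pow]
    rw [h2] at h1
    exact_mod_cast h1
  simp only [hreal]
  have h1 := ((tendsto_one_div_add_atTop_nhds_zero_nat (𝕜 := ℝ)).pow 2).mul_const
    ((ν.restrict AAᶜ) univ).toReal
  simpa using h1

end Pool.Agent.MP_8b8716_co_QF
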