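import Mathlib
import Pool.Agent.Lib.MP_8b8716_co_QF.Defs

set_option autoImplicit false

/-!
# MP_8b8716_co, project QF: elements of modulus one, weak approximation
-/

noncomputable section

namespace Pool.Agent.MP_8b8716_co_QF

open Complex
open Pool.Agent.MP_8b8716_co_HN

/-- the Gaussian number `x + y i` -/
def gK (x y : ℤ) : KG := (x : KG) + (y : KG) * iK

theorem coe_gK (x y : ℤ) : ((gK x y : KG) : ℂ) = x + y * I := by
  unfold gK iK
  push_cast
  rfl

theorem gK_mem (x y : ℤ) : gK x y ∈ Zi := ⟨x, y, coe_gK x y⟩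

theorem gK_mul (x y x' y' : ℤ) : gK x y * gK x' y' = gK (x * x' - y * y') (x * y' + y * x') := by
  apply Subtype.ext
  rw [Subfield.coe_mul, coe_gK, coe_gK, coe_gK]
  push_cast
  linear_combination (y : ℂ) * y' * I_mul_I

theorem intCast_mul_gK (m x y : ℤ) : (m : KG) * gK x y = gK (m * x) (m * y) := by
  apply Subtype.ext
  rw [Subfield.coe_mul, coe_gK, coe_gK]
  push_cast
  ring

theorem exists_gK {w : KG} (hw : w ∈ Zi) : ∃ x y : ℤ, w = gK x y := by
  obtain ⟨x, y, h⟩ := hw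
  exact ⟨x, y, Subtype.ext (by rw [coe_gK, h])⟩

theorem gK_inj {x y x' y' : ℤ} (h : gK x y = gK x' y') : x = x' ∧ y = y' := by
  have h1 := congrArg (fun w : KG => (w : ℂ)) h
  simp only [coe_gK] at h1
  have h2 := congrArg Complex.re h1
  have h3 := congrArg Complex.im h1
  simp at h2 h3
  exact ⟨h2, h3⟩

theorem exists_den (c : KG) : ∃ n : ℕ, 0 < n ∧ (n : KG) * c ∈ Zi := by
  obtain ⟨a, b, h⟩ := c.2
  refine ⟨a.den * b.den, Nat.mul_pos a.den_pos b.den_pos, a.num * b.den, b.num * a.den, ?_⟩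
  rw [Subfield.coe_mul, h]
  have ha : (a : ℂ) * (a.den : ℂ) = a.num := by
    exact_mod_cast Rat.mul_den_eq_num a
  have hb : (b : ℂ) * (b.den : ℂ) = b.num := by
    exact_mod_cast Rat.mul_den_eq_num b
  push_cast
  linear_combination (b.den : ℂ) * ha + (a.den : ℂ) * I * hb

theorem norm_gK (x y : ℤ) : ‖((gK x y : KG) : ℂ)‖ ^ 2 = ((x ^ 2 + y ^ 2 : ℤ) : ℝ) := by
  rw [coe_gK, ← Complex.normSq_eq_norm_sq, Complex.normSq_apply]
  simp
  ring

/-- a good denominator for an element of modulus one -/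
theorem exists_good_den (c : KG) (hc : ‖(c : ℂ)‖ = 1) : ∃ (n : ℕ) (x y : ℤ), 0 < n ∧
    (∀ l : ℕ, l.Prime → l % 4 = 3 → ¬ l ∣ n) ∧ (n : KG) * c = gK x y ∧
      x ^ 2 + y ^ 2 = (n : ℤ) ^ 2 := by
  classical
  set n := Nat.find (exists_den c) with hn
  have h1 := Nat.find_spec (exists_den c)
  rw [← hn] at h1
  have hmin : ∀ m : ℕ, 0 < m → (m : KG) * c ∈ Zi → n ≤ m :=
    fun m h2 h3 => Nat.find_min' (exists_den c) ⟨h2, h3⟩
  obtain ⟨x, y, hxy⟩ := exists_gK h1.2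
  have hsq : x ^ 2 + y ^ 2 = (n : ℤ) ^ 2 := by
    have h2 := norm_gK x y
    rw [← hxy, Subfield.coe_mul, norm_mul, hc, mul_one] at h2
    have h3 : ‖(((n : KG)) : ℂ)‖ = n := by
      rw [show (((n : KG)) : ℂ) = (n : ℂ) by push_cast; rfl]
      exact Complex.norm_natCast n
    rw [h3] at h2
    exact_mod_cast h2.symm
  refine ⟨n, x, y, h1.1, fun l hl hl4 hd => ?_, hxy, hsq⟩
  have : Fact l.Prime := ⟨hl⟩
  obtain ⟨m, hm⟩ := hd
  have hmpos : 0 < m := by
    rcases Nat.eq_zero_or_pos m with h0 | h0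
    · rw [h0, mul_zero] at hm
      have := h1.1
      omega
    · exact h0
  have hz : (x : ZMod l) ^ 2 = -(y : ZMod l) ^ 2 := by
    have h2 : (((x ^ 2 + y ^ 2 : ℤ)) : ZMod l) = (((n : ℤ) ^ 2 : ℤ) : ZMod l) := by rw [hsq]
    push_cast at h2
    have h3 : (n : ZMod l) = 0 := by
      rw [hm]
      push_cast
      simp
    rw [h3] at h2
    linear_combination h2
  have hy0 : (y : ZMod l) = 0 := by
    by_contra hy
    exact ZMod.mod_four_ne_three_of_sq_eq_neg_sq' hy hz hl4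
  have hx0 : (x : ZMod l) = 0 := by
    rw [hy0] at hz
    have : (x : ZMod l) ^ 2 = 0 := by rw [hz]; ring
    exact pow_eq_zero_iff (two_ne_zero) |>.1 this
  obtain ⟨x', hx'⟩ := (ZMod.intCast_zmod_eq_zero_iff_dvd x l).1 hx0
  obtain ⟨y', hy'⟩ := (ZMod.intCast_zmod_eq_zero_iff_dvd y l).1 hy0
  have h2 : (m : KG) * c = gK x' y' := by
    have hl0 : ((l : ℤ) : KG) ≠ 0 := by
      exact_mod_cast hl.ne_zero
    apply mul_left_cancel₀ hl0
    rw [intCast_mul_gK, ← hx', ← hy', ← hxy, hm]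
    push_cast
    ring
  have h3 := hmin m hmpos (h2 ▸ gK_mem x' y')
  rw [hm] at h3
  have := hl.two_le
  nlinarith

theorem norm_one_mem_RH (c : KG) (hc : ‖(c : ℂ)‖ = 1) : c ∈ RH := by
  obtain ⟨n, x, y, h1, h2, h3, _⟩ := exists_good_den c hc
  exact ⟨n, h1.ne', fun l hl => h2 l hl.1 hl.2.1, h3 ▸ gK_mem x y⟩

theorem lft_eq_gK {M : ℕ} (u : AM M) : lft u = gK (u.1.val : ℤ) (u.2.val : ℤ) := by
  unfold lft gK
  push_cast
  rfl

theorem coprime_of_no_prime {M n : ℕ} (hM : NH M)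
    (hn : ∀ l : ℕ, l.Prime → l % 4 = 3 → ¬ l ∣ n) : Nat.Coprime n M := by
  rw [Nat.coprime_iff_gcd_eq_one]
  by_contra hne
  obtain ⟨l, hl, hd⟩ := Nat.exists_prime_and_dvd hne
  exact hn l hl (hM.2 l hl (hd.trans (Nat.gcd_dvd_right _ _))).2.1
    (hd.trans (Nat.gcd_dvd_left _ _))

theorem unit_class {M : ℕ} [NeZero M] (hM : NH M) (c : KG) (hc : ‖(c : ℂ)‖ = 1) :
    ∃ u ∈ UM M, ∃ v ∈ RH, c - lft u = M * v := by
  obtain ⟨n, x, y, h1, h2, h3, h4⟩ := exists_good_den c hc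
  have hcop := coprime_of_no_prime hM h2
  have hunit : IsUnit (n : ZMod M) := (ZMod.isUnit_iff_coprime n M).2 hcop
  have hinv := ZMod.mul_inv_of_unit _ hunit
  set u : AM M := ((n : ZMod M)⁻¹ * x, (n : ZMod M)⁻¹ * y) with hu
  have h4' : (x : ZMod M) ^ 2 + (y : ZMod M) ^ 2 = (n : ZMod M) ^ 2 := by
    exact_mod_cast congrArg (fun k : ℤ => (k : ZMod M)) h4
  have huM : u ∈ UM M := by
    rw [UM, Finset.mem_filter]
    refine ⟨Finset.mem_univ _, ?_⟩
    simp only [hu]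
    linear_combination ((n : ZMod M)⁻¹) ^ 2 * h4' +
      ((n : ZMod M) * (n : ZMod M)⁻¹ + 1) * hinv
  have hdiv : ∀ (z : ℤ), ∃ k : ℤ,
      z - n * (((n : ZMod M)⁻¹ * (z : ZMod M)).val : ℤ) = M * k := by
    intro z
    have h5 : ((z - n * (((n : ZMod M)⁻¹ * (z : ZMod M)).val : ℤ) : ℤ) : ZMod M) = 0 := by
      push_cast
      rw [ZMod.natCast_zmod_val]
      linear_combination (-(z : ZMod M)) * hinv
    exact (ZMod.intCast_zmod_eq_zero_iff_dvd _ M).1 h5
  obtain ⟨k1, hk1⟩ := hdiv x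
  obtain ⟨k2, hk2⟩ := hdiv y
  have hM0 : ((M : ℤ) : KG) ≠ 0 := by exact_mod_cast hM.1
  refine ⟨u, huM, (c - lft u) / (M : KG), ⟨n, h1.ne', fun l hl => h2 l hl.1 hl.2.1, ?_⟩, ?_⟩
  · have h6 : (n : KG) * ((c - lft u) / (M : KG)) = gK k1 k2 := by
      apply mul_left_cancel₀ hM0
      rw [intCast_mul_gK, ← hk1, ← hk2, lft_eq_gK]
      have h7 : gK (x - n * (((n : ZMod M)⁻¹ * (x : ZMod M)).val : ℤ))
          (y - n * (((n : ZMod M)⁻¹ * (y : ZMod M)).val : ℤ)) =
          gK x y - (n : KG) * gK (u.1.val : ℤ) (u.2.val : ℤ) := by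
        apply Subtype.ext
        rw [Subfield.coe_sub, Subfield.coe_mul, coe_gK, coe_gK, coe_gK, hu]
        push_cast
        ring
      rw [h7, ← h3]
      have hM1 : (M : KG) ≠ 0 := by exact_mod_cast hM.1
      push_cast
      field_simp
    rw [h6]
    exact gK_mem _ _
  · have hM1 : (M : KG) ≠ 0 := by exact_mod_cast hM.1
    field_simp

/-- the arithmetic part of Hilbert 90 -/
theorem hilbert90 {M : ℕ} [NeZero M] (hM : NH M) {u : AM M} (hu : u ∈ UM M) :
    ∃ a b : ℤ, (∀ l : ℕ, l.Prime → l ∣ M → ¬ (l : ℤ) ∣ a ^ 2 + b ^ 2) ∧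
      (M : ℤ) ∣ a - ((u.1.val : ℤ) * a + (u.2.val : ℤ) * b) ∧
      (M : ℤ) ∣ b - ((u.2.val : ℤ) * a - (u.1.val : ℤ) * b) := by
  classical
  set p : ℤ := (u.1.val : ℤ) with hp
  set q : ℤ := (u.2.val : ℤ) with hq
  have hpq : (M : ℤ) ∣ 1 - p ^ 2 - q ^ 2 := by
    rw [← ZMod.intCast_zmod_eq_zero_iff_dvd]
    have h1 := (Finset.mem_filter.1 hu).2
    rw [hp, hq]
    push_cast
    rw [ZMod.natCast_zmod_val, ZMod.natCast_zmod_val]
    linear_combination (-1) * h1
  set s : ℕ := ∏ l ∈ M.primeFactors.filter (fun l : ℕ => ¬ (l : ℤ) ∣ 1 + p), l with hs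
  refine ⟨1 + p + s * q, q + s * (1 - p), ?_, ?_, ?_⟩
  · intro l hl hlM hd
    have : Fact l.Prime := ⟨hl⟩
    have hHP := hM.2 l hl hlM
    have hl2 : ((2 : ℤ) : ZMod l) ≠ 0 := by
      intro h0
      have h1 := (ZMod.intCast_zmod_eq_zero_iff_dvd 2 l).1 h0
      have h2 : l ∣ 2 := by exact_mod_cast h1
      have h3 := Nat.le_of_dvd (by norm_num) h2
      have h4 := hHP.2.2
      omega
    have e1 : ((1 - p ^ 2 - q ^ 2 : ℤ) : ZMod l) = 0 :=
      (ZMod.intCast_zmod_eq_zero_iff_dvd _ l).2 ((Int.natCast_dvd_natCast.2 hlM).trans hpq)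
    have e2 : (((1 + p + s * q) ^ 2 + (q + s * (1 - p)) ^ 2 : ℤ) : ZMod l) = 0 :=
      (ZMod.intCast_zmod_eq_zero_iff_dvd _ l).2 hd
    push_cast at e1 e2 hl2
    by_cases hlp : (l : ℤ) ∣ 1 + p
    · have hls : ¬ l ∣ s := by
        intro h
        rw [hs] at h
        obtain ⟨l', hl', hd'⟩ := (Prime.dvd_finsetProd_iff hl.prime _).1 h
        have h5 := Finset.mem_filter.1 hl'
        have h6 : l = l' := (Nat.prime_dvd_prime_iff_eq hl (Nat.prime_of_mem_primeFactors h5.1)).1 hd'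
        rw [← h6] at h5
        exact h5.2 hlp
      have hs0 : (s : ZMod l) ≠ 0 := by
        intro h
        exact hls ((ZMod.natCast_eq_zero_iff _ _).1 h)
      have hp1 : (1 + p : ZMod l) = 0 := by
        have := (ZMod.intCast_zmod_eq_zero_iff_dvd (1 + p) l).2 hlp
        push_cast at this
        exact this
      have hq1 : (q : ZMod l) ^ 2 = 0 := by linear_combination (1 - (p : ZMod l)) * hp1 - e1
      have hq2 : (q : ZMod l) = 0 := pow_eq_zero_iff (two_ne_zero) |>.1 hq1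
      have hp2 : (p : ZMod l) = -1 := by linear_combination hp1
      rw [hq2, hp2] at e2
      have h7 : ((2 : ZMod l) * (s : ZMod l)) ^ 2 = 0 := by linear_combination e2
      have h8 := pow_eq_zero_iff (two_ne_zero) |>.1 h7
      rcases mul_eq_zero.1 h8 with h9 | h9
      · exact hl2 h9
      · exact hs0 h9
    · have hls : l ∣ s := by
        rw [hs]
        exact Finset.dvd_prod_of_mem _ (Finset.mem_filter.2
          ⟨Nat.mem_primeFactors.2 ⟨hl, hlM, hM.1⟩, hlp⟩)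
      have hs0 : (s : ZMod l) = 0 := (ZMod.natCast_eq_zero_iff _ _).2 hls
      rw [hs0] at e2
      have h7 : (2 : ZMod l) * (1 + (p : ZMod l)) = 0 := by linear_combination e2 + e1
      rcases mul_eq_zero.1 h7 with h9 | h9
      · exact hl2 h9
      · apply hlp
        rw [← ZMod.intCast_zmod_eq_zero_iff_dvd]
        push_cast
        exact h9
  · have : 1 + p + s * q - (p * (1 + p + s * q) + q * (q + s * (1 - p))) = 1 - p ^ 2 - q ^ 2 := by
      ring
    rw [this]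
    exact hpq
  · have : q + s * (1 - p) - (q * (1 + p + s * q) - p * (q + s * (1 - p))) =
        s * (1 - p ^ 2 - q ^ 2) := by
      ring
    rw [this]
    exact Dvd.dvd.mul_left hpq _

theorem mem_RH_of {M : ℕ} {N : ℕ} (hcop : Nat.Coprime M N) {v : KG}
    (h1 : (M : KG) * v ∈ RH) (h2 : (N : KG) * v ∈ Zi) : v ∈ RH := by
  obtain ⟨n, hn0, hn1, hn2⟩ := h1
  obtain ⟨α, β, hab⟩ := Nat.isCoprime_iff_coprime.2 hcop
  refine ⟨n, hn0, hn1, ?_⟩
  have hab' : (α : KG) * (M : KG) + (β : KG) * (N : KG) = 1 := by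
    exact_mod_cast congrArg (fun k : ℤ => (k : KG)) hab
  have h3 : (n : KG) * v = (α : KG) * ((n : KG) * ((M : KG) * v)) +
      (β : KG) * (n : KG) * ((N : KG) * v) := by
    linear_combination (-(n : KG) * v) * hab'
  rw [h3]
  exact Zi.add_mem (Zi.mul_mem (intCast_mem Zi α) hn2)
    (Zi.mul_mem (Zi.mul_mem (intCast_mem Zi β) (natCast_mem Zi n)) h2)

theorem lft_mem_RH' {M : ℕ} (u : AM M) : lft u ∈ RH := by
  refine ⟨1, one_ne_zero, fun l hl hd => hl.1.one_lt.ne' (Nat.dvd_one.1 hd), ?_⟩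
  rw [Nat.cast_one, one_mul, lft_eq_gK]
  exact gK_mem _ _

/-- the archimedean part of the approximation -/
theorem arch (M : ℕ) (hM : M ≠ 0) (a b : ℤ) {t : ℂ} (ht : ‖t‖ = 1) {δ : ℝ} (hδ : 0 < δ) :
    ∃ p q : ℤ, (a + M * p + (b + M * q) * I : ℂ) ≠ 0 ∧
      ‖(a + M * p + (b + M * q) * I : ℂ) / (a + M * p - (b + M * q) * I : ℂ) - t‖ < δ := by
  -- a square root of `t`
  obtain ⟨r, hr⟩ : ∃ r : ℂ, r ^ 2 = t := IsAlgClosed.exists_pow_nat_eq t (by norm_num)
  have hrn : ‖r‖ = 1 := by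
    have : ‖r‖ ^ 2 = 1 := by rw [← norm_pow, hr, ht]
    nlinarith [norm_nonneg r]
  have hrr : r * (starRingEnd ℂ) r = 1 := by
    rw [Complex.mul_conj, Complex.normSq_eq_norm_sq, hrn]
    simp
  set K : ℝ := ‖(a : ℂ) + b * I‖ + 2 * M with hK
  have hM1 : (1 : ℝ) ≤ M := by exact_mod_cast Nat.one_le_iff_ne_zero.2 hM
  have hK0 : 0 < K := by
    rw [hK]
    have := norm_nonneg ((a : ℂ) + b * I)
    linarith
  obtain ⟨R, hR⟩ : ∃ R : ℝ, K + 2 * K / δ + 1 ≤ M * R := by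
    refine ⟨K + 2 * K / δ + 1, ?_⟩
    have : 0 ≤ K + 2 * K / δ + 1 := by positivity
    nlinarith
  set p : ℤ := ⌊R * r.re⌋ with hp
  set q : ℤ := ⌊R * r.im⌋ with hq
  refine ⟨p, q, ?_⟩
  set w : ℂ := a + M * p + (b + M * q) * I with hw
  have he : ‖w - M * R * r‖ ≤ K := by
    have h1 : w - M * R * r = ((a : ℂ) + b * I) +
        M * (((p - R * r.re : ℝ) : ℂ) + ((q - R * r.im : ℝ) : ℂ) * I) := by
      rw [hw]
      have h2 : r = (r.re : ℂ) + (r.im : ℂ) * I := (Complex.re_add_im r).symm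
      nth_rewrite 1 [h2]
      push_cast
      ring
    rw [h1]
    refine (norm_add_le _ _).trans ?_
    rw [hK]
    have h3 : ‖(M : ℂ) * (((p - R * r.re : ℝ) : ℂ) + ((q - R * r.im : ℝ) : ℂ) * I)‖ ≤ 2 * M := by
      rw [norm_mul, Complex.norm_natCast]
      have h4 : ‖(((p - R * r.re : ℝ) : ℂ) + ((q - R * r.im : ℝ) : ℂ) * I)‖ ≤ 2 := by
        refine (norm_add_le _ _).trans ?_
        rw [norm_mul, Complex.norm_I, mul_one, Complex.norm_real, Complex.norm_real]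
        have h5 : ‖(p - R * r.re : ℝ)‖ ≤ 1 := by
          rw [Real.norm_eq_abs, abs_le]
          have := Int.floor_le (R * r.re)
          have h6 := Int.lt_floor_add_one (R * r.re)
          constructor <;> linarith
        have h6 : ‖(q - R * r.im : ℝ)‖ ≤ 1 := by
          rw [Real.norm_eq_abs, abs_le]
          have := Int.floor_le (R * r.im)
          have h6 := Int.lt_floor_add_one (R * r.im)
          constructor <;> linarith
        linarith
      nlinarith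
    linarith
  have hwn : 2 * K / δ + 1 ≤ ‖w‖ := by
    have h1 : ‖(M : ℂ) * R * r‖ ≤ ‖w‖ + K := by
      have h2 : (M : ℂ) * R * r = w - (w - M * R * r) := by ring
      rw [h2]
      exact (norm_sub_le _ _).trans (by linarith)
    have h2 : (M : ℝ) * R ≤ ‖(M : ℂ) * R * r‖ := by
      rw [norm_mul, norm_mul, hrn, mul_one, Complex.norm_natCast, Complex.norm_real,
        Real.norm_eq_abs]
      have := le_abs_self R
      nlinarith
    linarith
  have hwpos : 0 < ‖w‖ := by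
    have : 0 ≤ 2 * K / δ := by positivity
    linarith
  have hw0 : w ≠ 0 := norm_pos_iff.1 hwpos
  refine ⟨hw0, ?_⟩
  have hconj : (starRingEnd ℂ) w = a + M * p - (b + M * q) * I := by
    rw [hw]
    simp
    ring
  rw [← hconj]
  have hcw0 : (starRingEnd ℂ) w ≠ 0 := by
    intro h
    apply hw0
    rwa [map_eq_zero] at h
  have h1 : w / (starRingEnd ℂ) w - t =
      (w * (starRingEnd ℂ) r - r * (starRingEnd ℂ) w) / ((starRingEnd ℂ) w * (starRingEnd ℂ) r) := by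
    have hr0 : (starRingEnd ℂ) r ≠ 0 := by
      intro h
      rw [h, mul_zero] at hrr
      exact zero_ne_one hrr
    rw [← hr]
    rw [eq_div_iff (mul_ne_zero hcw0 hr0)]
    field_simp
    linear_combination (-r * (starRingEnd ℂ) w) * hrr
  rw [h1, norm_div, norm_mul, RCLike.norm_conj, RCLike.norm_conj, hrn, mul_one]
  have h2 : ‖w * (starRingEnd ℂ) r - r * (starRingEnd ℂ) w‖ ≤ 2 * K := by
    have h3 : w * (starRingEnd ℂ) r - r * (starRingEnd ℂ) w =
        (w - M * R * r) * (starRingEnd ℂ) r - r * (starRingEnd ℂ) (w - M * R * r) := by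
      simp only [map_sub, map_mul, Complex.conj_ofReal, Complex.conj_natCast]
      ring
    rw [h3]
    refine (norm_sub_le _ _).trans ?_
    rw [norm_mul, norm_mul, RCLike.norm_conj, RCLike.norm_conj, hrn]
    linarith
  rw [div_lt_iff₀ hwpos]
  calc ‖w * (starRingEnd ℂ) r - r * (starRingEnd ℂ) w‖ ≤ 2 * K := h2
    _ < δ * (2 * K / δ + 1) := by
      have : δ * (2 * K / δ + 1) = 2 * K + δ := by field_simp
      rw [this]
      linarith
    _ ≤ δ * ‖w‖ := by gcongr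

theorem approx {M : ℕ} [NeZero M] (hM : NH M) {u : AM M} (hu : u ∈ UM M) {t : ℂ} (ht : ‖t‖ = 1)
    {δ : ℝ} (hδ : 0 < δ) :
    ∃ c : KG, ‖(c : ℂ)‖ = 1 ∧ ‖(c : ℂ) - t‖ < δ ∧ ∃ v ∈ RH, c - lft u = M * v := by
  obtain ⟨a, b, hab, h1, h2⟩ := hilbert90 hM hu
  obtain ⟨p, q, hne, hlt⟩ := arch M hM.1 a b ht hδ
  set A : ℤ := a + M * p with hA
  set B : ℤ := b + M * q with hB
  have hAB : ((A : ℂ) + B * I) = (a + M * p + (b + M * q) * I : ℂ) := by
    rw [hA, hB]; push_cast; ring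
  have hAB' : ((A : ℂ) - B * I) = (a + M * p - (b + M * q) * I : ℂ) := by
    rw [hA, hB]; push_cast; ring
  rw [← hAB] at hne hlt
  rw [← hAB'] at hlt
  have hconj : (starRingEnd ℂ) ((A : ℂ) + B * I) = (A : ℂ) - B * I := by
    simp
    ring
  have hne' : (A : ℂ) - B * I ≠ 0 := by
    rw [← hconj]
    intro h
    apply hne
    rwa [map_eq_zero] at h
  have hcC : (((gK A B / gK A (-B) : KG)) : ℂ) = ((A : ℂ) + B * I) / ((A : ℂ) - B * I) := by
    rw [Subfield.coe_div, coe_gK, coe_gK]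
    push_cast
    ring_nf
  set c : KG := gK A B / gK A (-B) with hc
  have hcn : ‖(c : ℂ)‖ = 1 := by
    rw [hcC, norm_div, ← hconj, RCLike.norm_conj, div_self]
    exact norm_ne_zero_iff.2 hne
  have hM1 : (M : KG) ≠ 0 := by exact_mod_cast hM.1
  refine ⟨c, hcn, by rw [hcC]; exact hlt, (c - lft u) / (M : KG), ?_, by field_simp⟩
  -- integrality
  have hden : gK A (-B) ≠ 0 := by
    intro h
    apply hne'
    have := congrArg (fun w : KG => (w : ℂ)) h
    simp only [coe_gK] at this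
    push_cast at this
    rw [← this]
    ring
  have hN : gK A B * gK A (-B) = (((A ^ 2 + B ^ 2 : ℤ)) : KG) := by
    rw [gK_mul]
    have : (((A ^ 2 + B ^ 2 : ℤ)) : KG) = gK (A ^ 2 + B ^ 2) 0 := by
      unfold gK
      push_cast
      ring
    rw [this]
    congr 1
    · ring
    · ring
  have hcop : Nat.Coprime M (A ^ 2 + B ^ 2).natAbs := by
    rw [Nat.coprime_iff_gcd_eq_one]
    by_contra hg
    obtain ⟨l, hl, hd⟩ := Nat.exists_prime_and_dvd hg
    have hlM := hd.trans (Nat.gcd_dvd_left _ _)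
    have hlN := hd.trans (Nat.gcd_dvd_right _ _)
    apply hab l hl hlM
    have h3 : (l : ℤ) ∣ A ^ 2 + B ^ 2 := Int.natCast_dvd.2 hlN
    obtain ⟨m, hm⟩ := hlM
    have h4 : a ^ 2 + b ^ 2 = (A ^ 2 + B ^ 2) - (l : ℤ) * (m * (2 * a * p + M * p ^ 2 +
        2 * b * q + M * q ^ 2)) := by
      rw [hA, hB]
      have h5 : (M : ℤ) = l * m := by rw [hm]; push_cast; rfl
      linear_combination (-(2 * a * p + M * p ^ 2 + 2 * b * q + M * q ^ 2)) * h5
    rw [h4]
    exact dvd_sub h3 (Dvd.intro _ rfl)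
  refine mem_RH_of hcop ?_ ?_
  · have : (M : KG) * ((c - lft u) / (M : KG)) = c - lft u := by field_simp
    rw [this]
    exact RH.sub_mem (norm_one_mem_RH c hcn) (lft_mem_RH' u)
  · -- `N (c - u) / M` is a Gaussian integer
    have hnat : (((A ^ 2 + B ^ 2).natAbs : ℕ) : KG) = (((A ^ 2 + B ^ 2 : ℤ)) : KG) := by
      have h3 : (((A ^ 2 + B ^ 2).natAbs : ℕ) : ℤ) = A ^ 2 + B ^ 2 :=
        Int.natAbs_of_nonneg (by positivity)
      rw [← Int.cast_natCast, h3]
    rw [hnat]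
    obtain ⟨k1, hk1⟩ : (M : ℤ) ∣ A - ((u.1.val : ℤ) * A + (u.2.val : ℤ) * B) := by
      have h3 : A - ((u.1.val : ℤ) * A + (u.2.val : ℤ) * B) =
          (a - ((u.1.val : ℤ) * a + (u.2.val : ℤ) * b)) +
            M * (p - ((u.1.val : ℤ) * p + (u.2.val : ℤ) * q)) := by
        rw [hA, hB]; ring
      rw [h3]
      exact dvd_add h1 (Dvd.intro _ rfl)
    obtain ⟨k2, hk2⟩ : (M : ℤ) ∣ B - ((u.2.val : ℤ) * A - (u.1.val : ℤ) * B) := by
      have h3 : B - ((u.2.val : ℤ) * A - (u.1.val : ℤ) * B) =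
          (b - ((u.2.val : ℤ) * a - (u.1.val : ℤ) * b)) +
            M * (q - ((u.2.val : ℤ) * p - (u.1.val : ℤ) * q)) := by
        rw [hA, hB]; ring
      rw [h3]
      exact dvd_add h2 (Dvd.intro _ rfl)
    have h3 : gK A B - lft u * gK A (-B) = (M : KG) * gK k1 k2 := by
      rw [lft_eq_gK, gK_mul]
      have h4 : (M : KG) * gK k1 k2 = gK (M * k1) (M * k2) := by
        have := intCast_mul_gK (M : ℤ) k1 k2
        rw [← this]
        push_cast
        rfl
      rw [h4, ← hk1, ← hk2]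
      apply Subtype.ext
      rw [Subfield.coe_sub, coe_gK, coe_gK, coe_gK]
      push_cast
      ring
    have h5 : (((A ^ 2 + B ^ 2 : ℤ)) : KG) * ((c - lft u) / (M : KG)) = gK k1 k2 * gK A B := by
      rw [← hN, hc]
      field_simp
      linear_combination gK A B * h3
    rw [h5]
    exact Zi.mul_mem (gK_mem _ _) (gK_mem _ _)

end Pool.Agent.MP_8b8716_co_QF
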