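import Mathlib
import Pool.Agent.Lib.MP_8b8716_co_QF.Defs

set_option autoImplicit false

/-!
# MP_8b8716_co, project QF: correlations of the averages
-/

noncomputable section

namespace Pool.Agent.MP_8b8716_co_QF

open Complex MeasureTheory Filter Topology Set
open Pool.Agent.MP_8b8716_co_HN

namespace CorrAv

theorem shift_shift {k : ℕ} (a b : KG) (ω : KG → Fin k) :
    shift a (shift b ω) = shift (a + b) ω := by
  funext w
  simp only [shift]
  congr 1
  ring

theorem measurable_shift {k : ℕ} (b : KG) :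
    Measurable (shift b : (KG → Fin k) → KG → Fin k) :=
  measurable_pi_lambda _ fun z => measurable_pi_apply (z + b)

theorem measurable_ind {k : ℕ} (i : Fin k) : Measurable (ind i : (KG → Fin k) → ℝ) := by
  have h0 : Measurable fun ω : KG → Fin k => ω 0 := measurable_pi_apply (0 : KG)
  have h : MeasurableSet {ω : KG → Fin k | ω 0 = i} := h0 (measurableSet_singleton i)
  exact Measurable.ite h measurable_const measurable_const

theorem norm_ind_le {k : ℕ} (i : Fin k) (ω : KG → Fin k) : ‖ind i ω‖ ≤ 1 := by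
  unfold ind
  split_ifs <;> simp

theorem measurable_ind2 {k : ℕ} (i : Fin k) (a b : KG) :
    Measurable fun ω : KG → Fin k => ind i (shift a ω) * ind i (shift b ω) :=
  ((measurable_ind i).comp (measurable_shift a)).mul ((measurable_ind i).comp (measurable_shift b))

theorem integrable_ind2 {k : ℕ} {μ : Measure (KG → Fin k)} (hμ : RandCol KG k μ) (i : Fin k)
    (a b : KG) : Integrable (fun ω : KG → Fin k => ind i (shift a ω) * ind i (shift b ω)) μ := by
  have := hμ.prob
  refine Integrable.of_bound (measurable_ind2 i a b).aestronglyMeasurable 1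
    (Eventually.of_forall fun ω => ?_)
  rw [norm_mul]
  exact mul_le_one₀ (norm_ind_le i _) (norm_nonneg _) (norm_ind_le i _)

theorem mp_shift {k : ℕ} {μ : Measure (KG → Fin k)} (hμ : RandCol KG k μ) (b : KG) :
    MeasurePreserving (shift b : (KG → Fin k) → KG → Fin k) μ μ := by
  have h := hμ.inv 1 b (by simp)
  have h1 : (fun (ω : KG → Fin k) (z : KG) => ω (1 * z + b)) = shift b := by
    funext ω z
    simp [shift]
  rwa [h1] at h

theorem corr_two {k : ℕ} {μ : Measure (KG → Fin k)} {ν : Fin k → Measure (KG → Circle)}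
    (hS : Spec k μ ν) (i : Fin k) (a b : KG) :
    ((∫ ω, ind i (shift a ω) * ind i (shift b ω) ∂μ : ℝ) : ℂ) = ∫ y, (y (a - b) : ℂ) ∂(ν i) := by
  rw [← hS.corr i (a - b)]
  congr 1
  have hmp := mp_shift hS.col b
  have h1 : ∫ ω, ind i (shift (a - b) ω) * ind i ω ∂μ =
      ∫ ω, ind i (shift (a - b) (shift b ω)) * ind i (shift b ω) ∂μ := by
    conv_lhs => rw [← hmp.map_eq]
    rw [integral_map hmp.measurable.aemeasurable]
    exact (((measurable_ind i).comp (measurable_shift (a - b))).mul
      (measurable_ind i)).aestronglyMeasurable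
  rw [h1]
  simp only [shift_shift, sub_add_cancel]

theorem measurable_chr (u : KG) : Measurable fun y : KG → Circle => ((y u : Circle) : ℂ) := by
  have h0 : Continuous (fun z : Circle => (z : ℂ)) := continuous_subtype_val
  exact (h0.comp (continuous_apply u)).measurable

theorem integrable_chr3 {ν : Measure (KG → Circle)} [IsFiniteMeasure ν] (u v w : KG) :
    Integrable (fun y : KG → Circle => (y u : ℂ) * (y v : ℂ) * (starRingEnd ℂ) (y w : ℂ)) ν := by
  have hc : Measurable fun y : KG → Circle => (starRingEnd ℂ) ((y w : Circle) : ℂ) :=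
    Complex.continuous_conj.measurable.comp (measurable_chr w)
  refine Integrable.of_bound
    (((measurable_chr u).mul (measurable_chr v)).mul hc).aestronglyMeasurable 1
    (Eventually.of_forall fun y => ?_)
  rw [norm_mul, norm_mul, RCLike.norm_conj, Circle.norm_coe, Circle.norm_coe, Circle.norm_coe]
  simp

theorem chr3 {y : KG → Circle} (hy : IsChar y) (u v w : KG) :
    (y u : ℂ) * (y v : ℂ) * (starRingEnd ℂ) (y w : ℂ) = (y (u + v - w) : ℂ) := by
  rw [hy.map_sub, hy u v, Circle.coe_div, Circle.coe_mul, div_eq_mul_inv, ← Circle.coe_inv,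
    Circle.coe_inv_eq_conj]

end CorrAv

open CorrAv in
theorem corr_av {k : ℕ} {μ : Measure (KG → Fin k)} {ν : Fin k → Measure (KG → Circle)}
    (hS : Spec k μ ν) (i : Fin k) (M N M' N' : ℕ) (z : KG) :
    ((∫ ω, Av M N i (shift z ω) * Av M' N' i ω ∂μ : ℝ) : ℂ) =
      ∫ y, (y z : ℂ) * av M N y * (starRingEnd ℂ) (av M' N' y) ∂(ν i) := by
  have := (hS.nice i).fin
  -- the left side
  have hL : ∀ ω : KG → Fin k, Av M N i (shift z ω) * Av M' N' i ω =
      ∑ p ∈ sq N, ∑ p' ∈ sq N', (((N + 1 : ℝ) ^ 2)⁻¹ * ((N' + 1 : ℝ) ^ 2)⁻¹) *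
        (ind i (shift (bx M N p + z) ω) * ind i (shift (bx M' N' p') ω)) := by
    intro ω
    simp only [Av, shift_shift]
    rw [mul_mul_mul_comm, Finset.sum_mul_sum, Finset.mul_sum]
    refine Finset.sum_congr rfl fun p _ => ?_
    rw [Finset.mul_sum]
  have hLi : ∫ ω, Av M N i (shift z ω) * Av M' N' i ω ∂μ =
      ∑ p ∈ sq N, ∑ p' ∈ sq N', (((N + 1 : ℝ) ^ 2)⁻¹ * ((N' + 1 : ℝ) ^ 2)⁻¹) *
        ∫ ω, ind i (shift (bx M N p + z) ω) * ind i (shift (bx M' N' p') ω) ∂μ := by
    rw [integral_congr_ae (Eventually.of_forall hL), integral_finsetSum]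
    · refine Finset.sum_congr rfl fun p _ => ?_
      rw [integral_finsetSum]
      · refine Finset.sum_congr rfl fun p' _ => ?_
        rw [integral_const_mul]
      · intro p' _
        exact (integrable_ind2 hS.col i _ _).const_mul _
    · intro p _
      exact integrable_finsetSum _ fun p' _ => (integrable_ind2 hS.col i _ _).const_mul _
  -- the right side
  have hR : ∀ y : KG → Circle, (y z : ℂ) * av M N y * (starRingEnd ℂ) (av M' N' y) =
      ∑ p ∈ sq N, ∑ p' ∈ sq N', (((N + 1 : ℂ) ^ 2)⁻¹ * ((N' + 1 : ℂ) ^ 2)⁻¹) *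
        ((y z : ℂ) * (y (bx M N p) : ℂ) * (starRingEnd ℂ) (y (bx M' N' p') : ℂ)) := by
    intro y
    simp only [av, map_mul, map_inv₀, map_pow, map_add, map_natCast, map_one, map_sum]
    rw [show ∀ a c s c' s' : ℂ, a * (c * s) * (c' * s') = (c * c') * (a * (s * s')) by
      intros; ring, Finset.sum_mul_sum, Finset.mul_sum, Finset.mul_sum]
    refine Finset.sum_congr rfl fun p _ => ?_
    rw [Finset.mul_sum, Finset.mul_sum]
    refine Finset.sum_congr rfl fun p' _ => ?_
    ring
  have hRi : ∫ y, (y z : ℂ) * av M N y * (starRingEnd ℂ) (av M' N' y) ∂(ν i) =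
      ∑ p ∈ sq N, ∑ p' ∈ sq N', (((N + 1 : ℂ) ^ 2)⁻¹ * ((N' + 1 : ℂ) ^ 2)⁻¹) *
        ∫ y, (y z : ℂ) * (y (bx M N p) : ℂ) * (starRingEnd ℂ) (y (bx M' N' p') : ℂ) ∂(ν i) := by
    rw [integral_congr_ae (Eventually.of_forall hR), integral_finsetSum]
    · refine Finset.sum_congr rfl fun p _ => ?_
      rw [integral_finsetSum]
      · refine Finset.sum_congr rfl fun p' _ => ?_
        rw [integral_const_mul]
      · intro p' _
        exact (integrable_chr3 _ _ _).const_mul _
    · intro p _
      exact integrable_finsetSum _ fun p' _ => (integrable_chr3 _ _ _).const_mul _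
  rw [hLi, hRi]
  push_cast
  refine Finset.sum_congr rfl fun p _ => Finset.sum_congr rfl fun p' _ => ?_
  rw [corr_two hS i]
  congr 1
  refine integral_congr_ae ?_
  filter_upwards [(hS.nice i).chr] with y hy
  rw [chr3 hy]
  congr 3
  ring

end Pool.Agent.MP_8b8716_co_QF
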