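import Mathlib
import Pool.Agent.Lib.MP_8b8716_co_HN.AAf
import Pool.Agent.Lib.MP_8b8716_co_QF.Defs
import Pool.Agent.Lib.MP_8b8716_co_QF.SMf
import Pool.Agent.Lib.MP_8b8716_co_QF.AvY

/-!
# MP_8b8716_co, project QF, module CorrLim: the limit of the correlations
-/

set_option autoImplicit false

noncomputable section

namespace Pool.Agent.MP_8b8716_co_QF

open Complex MeasureTheory Filter Topology Set
open Pool.Agent.MP_8b8716_co_HN

namespace CorrLim

theorem measurable_coe (w : KG) : Measurable fun y : KG → Circle => (y w : ℂ) := by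
  have h : Continuous fun c : Circle => (c : ℂ) := by fun_prop
  exact h.measurable.comp (measurable_pi_apply w)

theorem measurable_av (M N : ℕ) : Measurable (av M N) := by
  unfold av
  exact (Finset.measurable_sum _ fun p _ => measurable_coe _).const_mul _

/-- the integrand -/
def ig (z : KG) (M M' : ℕ) (p : ℕ × ℕ) (y : KG → Circle) : ℂ :=
  (y z : ℂ) * av M p.1 y * (starRingEnd ℂ) (av M' p.2 y)

theorem measurable_ig (z : KG) (M M' : ℕ) (p : ℕ × ℕ) : Measurable (ig z M M' p) := by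
  unfold ig
  exact ((measurable_coe z).mul (measurable_av M p.1)).mul
    (Complex.continuous_conj.measurable.comp (measurable_av M' p.2))

theorem norm_ig (z : KG) (M M' : ℕ) (p : ℕ × ℕ) (y : KG → Circle) :
    ‖ig z M M' p y‖ = ‖av M p.1 y‖ * ‖av M' p.2 y‖ := by
  unfold ig
  rw [norm_mul, norm_mul, Circle.norm_coe, one_mul, RCLike.norm_conj]

theorem norm_ig_le (z : KG) (M M' : ℕ) (p : ℕ × ℕ) (y : KG → Circle) : ‖ig z M M' p y‖ ≤ 1 := by
  rw [norm_ig]
  exact mul_le_one₀ (norm_av_le _ _ _) (norm_nonneg _) (norm_av_le _ _ _)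

theorem norm_ig_le' (z : KG) (M M' : ℕ) (p : ℕ × ℕ) (y : KG → Circle) :
    ‖ig z M M' p y‖ ≤ ‖av M p.1 y‖ ^ 2 + ‖av M' p.2 y‖ ^ 2 := by
  rw [norm_ig]
  nlinarith [sq_nonneg (‖av M p.1 y‖ - ‖av M' p.2 y‖), norm_nonneg (av M p.1 y),
    norm_nonneg (av M' p.2 y), mul_nonneg (norm_nonneg (av M p.1 y)) (norm_nonneg (av M' p.2 y))]

theorem integrable_ig {ν : Measure (KG → Circle)} [IsFiniteMeasure ν] (z : KG) (M M' : ℕ)
    (p : ℕ × ℕ) : Integrable (ig z M M' p) ν :=
  (integrable_const (1 : ℝ)).mono' (measurable_ig z M M' p).aestronglyMeasurable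
    (Eventually.of_forall fun y => norm_ig_le z M M' p y)

theorem integrable_sq {ν : Measure (KG → Circle)} [IsFiniteMeasure ν] (M N : ℕ) :
    Integrable (fun y => ‖av M N y‖ ^ 2) ν :=
  (integrable_const (1 : ℝ)).mono' ((measurable_av M N).norm.pow_const 2).aestronglyMeasurable
    (Eventually.of_forall fun y => by
      rw [Real.norm_of_nonneg (by positivity)]
      exact pow_le_one₀ (norm_nonneg _) (norm_av_le _ _ _))

theorem off {ν : Measure (KG → Circle)} (hν : Nice ν) {M M' : ℕ} (hM : NH M) (hM' : NH M')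
    (z : KG) : Tendsto (fun p : ℕ × ℕ => ∫ y in AAᶜ, ig z M M' p y ∂ν) (atTop ×ˢ atTop) (𝓝 0) := by
  have := hν.fin
  have h1 : Tendsto (fun p : ℕ × ℕ => (∫ y in AAᶜ, ‖av M p.1 y‖ ^ 2 ∂ν) +
      ∫ y in AAᶜ, ‖av M' p.2 y‖ ^ 2 ∂ν) (atTop ×ˢ atTop) (𝓝 0) := by
    have := ((av_off hν hM).comp (tendsto_fst (f := atTop) (g := (atTop : Filter ℕ)))).add
      ((av_off hν hM').comp (tendsto_snd (f := (atTop : Filter ℕ)) (g := atTop)))
    simpa using this
  refine squeeze_zero_norm (fun p => ?_) h1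
  calc ‖∫ y in AAᶜ, ig z M M' p y ∂ν‖ ≤ ∫ y in AAᶜ, (‖av M p.1 y‖ ^ 2 + ‖av M' p.2 y‖ ^ 2) ∂ν :=
        norm_integral_le_of_norm_le ((integrable_sq M p.1).add (integrable_sq M' p.2))
          (Eventually.of_forall fun y => norm_ig_le' z M M' p y)
    _ = _ := integral_add (integrable_sq M p.1) (integrable_sq M' p.2)

theorem on {ν : Measure (KG → Circle)} (hν : Nice ν) {M M' : ℕ} (hM : NH M) (hM' : NH M')
    (z : KG) : Tendsto (fun p : ℕ × ℕ => ∫ y in AA, ig z M M' p y ∂ν) (atTop ×ˢ atTop)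
      (𝓝 (∫ y in AA ∩ SM M ∩ SM M', (y z : ℂ) ∂ν)) := by
  have := hν.fin
  have hS : MeasurableSet (SM M ∩ SM M') := (measurableSet_SM M).inter (measurableSet_SM M')
  rw [inter_assoc, ← setIntegral_indicator hS]
  refine tendsto_integral_filter_of_dominated_convergence (fun _ => (1 : ℝ))
    (Eventually.of_forall fun p => (measurable_ig z M M' p).aestronglyMeasurable)
    (Eventually.of_forall fun p => Eventually.of_forall fun y => norm_ig_le z M M' p y)
    (integrable_const _) ?_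
  rw [ae_restrict_iff' measurableSet_AA]
  filter_upwards [hν.chr, hν.str] with y hy hs hA
  have key : ∀ {L : ℕ}, NH L → Tendsto (fun N => av L N y) atTop
      (𝓝 (by classical exact if y ∈ SM L then (1 : ℂ) else 0)) := by
    intro L hL
    by_cases h : y ∈ SM L
    · simp only [h, if_true]
      exact av_tendsto_one hL hy h
    · simp only [h, if_false]
      exact av_tendsto_zero hL hy (hs hA) h
  have h1 := (key hM).comp (tendsto_fst (f := atTop) (g := (atTop : Filter ℕ)))
  have h2 := (key hM').comp (tendsto_snd (f := (atTop : Filter ℕ)) (g := atTop))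
  have h3 := (h1.const_mul (y z : ℂ)).mul ((Complex.continuous_conj.tendsto _).comp h2)
  refine Tendsto.congr' (Eventually.of_forall fun p => rfl) (h3.trans (le_of_eq ?_))
  congr 1
  by_cases ha : y ∈ SM M <;> by_cases hb : y ∈ SM M' <;> simp [ha, hb, indicator]

end CorrLim

theorem corr_lim {ν : Measure (KG → Circle)} (hν : Nice ν) {M M' : ℕ} (hM : NH M) (hM' : NH M')
    (z : KG) :
    Tendsto (fun p : ℕ × ℕ => ∫ y, (y z : ℂ) * av M p.1 y * (starRingEnd ℂ) (av M' p.2 y) ∂ν)
      (atTop ×ˢ atTop) (𝓝 (∫ y in AA ∩ SM M ∩ SM M', (y z : ℂ) ∂ν)) := by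
  have := hν.fin
  have h := (CorrLim.on hν hM hM' z).add (CorrLim.off hν hM hM' z)
  rw [add_zero] at h
  refine h.congr fun p => ?_
  exact integral_add_compl measurableSet_AA (CorrLim.integrable_ig z M M' p)

end Pool.Agent.MP_8b8716_co_QF
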