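import Mathlib
import Pool.Agent.Lib.MP_8b8716_co_QF.Defs
import Pool.Agent.Lib.MP_8b8716_co_QF.CorrAv
import Pool.Agent.Lib.MP_8b8716_co_QF.CorrLim

set_option autoImplicit false

/-!
# MP_8b8716_co, project QF: existence of the limits of the averages
-/

noncomputable section

namespace Pool.Agent.MP_8b8716_co_QF

open Complex MeasureTheory Filter Topology Set
open Pool.Agent.MP_8b8716_co_HN

namespace ExLim

theorem norm_sub_sq {Ω : Type*} [MeasurableSpace Ω] {μ : Measure Ω} (a b : Lp ℝ 2 μ) :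
    ‖a - b‖ ^ 2 = ∫ ω, (a ω - b ω) ^ 2 ∂μ := by
  rw [← real_inner_self_eq_norm_sq, MeasureTheory.L2.inner_def]
  apply integral_congr_ae
  filter_upwards [Lp.coeFn_sub a b] with ω hω
  rw [hω, Pi.sub_apply, real_inner_self_eq_norm_sq, Real.norm_eq_abs, sq_abs]

/-- limits in `L²` of functions with values in the unit interval -/
theorem l2_limit {Ω : Type*} [MeasurableSpace Ω] (μ : Measure Ω) [IsProbabilityMeasure μ]
    (f : ℕ → Ω → ℝ) (hm : ∀ n, Measurable (f n)) (h0 : ∀ n ω, 0 ≤ f n ω) (h1 : ∀ n ω, f n ω ≤ 1)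
    (hc : Tendsto (fun p : ℕ × ℕ => ∫ ω, (f p.1 ω - f p.2 ω) ^ 2 ∂μ) (atTop ×ˢ atTop) (𝓝 0)) :
    ∃ G : Ω → ℝ, Measurable G ∧ (∀ ω, 0 ≤ G ω) ∧ (∀ ω, G ω ≤ 1) ∧
      Tendsto (fun n => ∫ ω, (f n ω - G ω) ^ 2 ∂μ) atTop (𝓝 0) := by
  have hmem : ∀ n, MemLp (f n) 2 μ := fun n =>
    MemLp.of_bound (hm n).aestronglyMeasurable 1 (Filter.Eventually.of_forall fun ω => by
      rw [Real.norm_eq_abs, abs_of_nonneg (h0 n ω)]
      exact h1 n ω)
  let F : ℕ → Lp ℝ 2 μ := fun n => (hmem n).toLp (f n)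
  have hF : ∀ n, F n =ᵐ[μ] f n := fun n => (hmem n).coeFn_toLp
  have hd : ∀ n m, dist (F n) (F m) = Real.sqrt (∫ ω, (f n ω - f m ω) ^ 2 ∂μ) := by
    intro n m
    have e1 : ∫ ω, (f n ω - f m ω) ^ 2 ∂μ = ∫ ω, (F n ω - F m ω) ^ 2 ∂μ := by
      apply integral_congr_ae
      filter_upwards [hF n, hF m] with ω h2 h3
      rw [h2, h3]
    rw [e1, ← norm_sub_sq, Real.sqrt_sq (norm_nonneg _), dist_eq_norm]
  have hcau : CauchySeq F := by
    rw [cauchySeq_iff_tendsto_dist_atTop_0]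
    rw [prod_atTop_atTop_eq] at hc
    have h2 := (Real.continuous_sqrt.tendsto 0).comp hc
    rw [Real.sqrt_zero] at h2
    refine h2.congr fun p => ?_
    exact (hd p.1 p.2).symm
  obtain ⟨g, hg⟩ := cauchySeq_tendsto_of_complete hcau
  have hgm : Measurable (g : Ω → ℝ) := (Lp.stronglyMeasurable g).measurable
  refine ⟨fun ω => max 0 (min 1 (g ω)), measurable_const.max (measurable_const.min hgm),
    fun ω => le_max_left _ _, fun ω => max_le zero_le_one (min_le_left _ _), ?_⟩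
  have hlim : Tendsto (fun n => ‖F n - g‖ ^ 2) atTop (𝓝 0) := by
    have h2 := (tendsto_iff_norm_sub_tendsto_zero.1 hg).pow 2
    simpa using h2
  have hint : ∀ n, Integrable (fun ω => (f n ω - g ω) ^ 2) μ := by
    intro n
    exact ((hmem n).sub (Lp.memLp g)).integrable_sq
  refine squeeze_zero (fun n => integral_nonneg fun ω => sq_nonneg _) (fun n => ?_) hlim
  have e2 : ‖F n - g‖ ^ 2 = ∫ ω, (f n ω - g ω) ^ 2 ∂μ := by
    rw [norm_sub_sq]
    apply integral_congr_ae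
    filter_upwards [hF n] with ω h2
    rw [h2]
  rw [e2]
  have hle : ∀ ω, (f n ω - max 0 (min 1 (g ω))) ^ 2 ≤ (f n ω - g ω) ^ 2 := by
    intro ω
    have h2 := h0 n ω
    have h3 := h1 n ω
    rcases le_total (g ω) 0 with h4 | h4
    · rw [min_eq_right (by linarith), max_eq_left h4]
      nlinarith
    · rcases le_total (g ω) 1 with h5 | h5
      · rw [min_eq_right h5, max_eq_right h4]
      · rw [min_eq_left h5, max_eq_right zero_le_one]
        nlinarith
  refine integral_mono_of_nonneg (Filter.Eventually.of_forall fun ω => sq_nonneg _) (hint n)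
    (Filter.Eventually.of_forall hle)

theorem measurable_Av {k : ℕ} (M N : ℕ) (i : Fin k) : Measurable (Av M N i) := by
  unfold Av
  apply Measurable.const_mul
  apply Finset.measurable_fun_sum
  intro p _
  have h1 : Measurable (fun c : Fin k => if c = i then (1 : ℝ) else 0) := measurable_from_top
  exact h1.comp (measurable_pi_apply (0 + bx M N p))

theorem ind_mem {k : ℕ} (i : Fin k) (ω : KG → Fin k) : 0 ≤ ind i ω ∧ ind i ω ≤ 1 := by
  unfold ind
  split_ifs <;> norm_num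

theorem card_sq (N : ℕ) : ((sq N).card : ℝ) = (N + 1 : ℝ) ^ 2 := by
  rw [sq, Finset.card_product, Finset.card_range]
  push_cast
  ring

theorem Av_nonneg {k : ℕ} (M N : ℕ) (i : Fin k) (ω : KG → Fin k) : 0 ≤ Av M N i ω :=
  mul_nonneg (by positivity) (Finset.sum_nonneg fun p _ => (ind_mem i _).1)

theorem Av_le_one {k : ℕ} (M N : ℕ) (i : Fin k) (ω : KG → Fin k) : Av M N i ω ≤ 1 := by
  unfold Av
  have h1 : ∑ p ∈ sq N, ind i (shift (bx M N p) ω) ≤ (N + 1 : ℝ) ^ 2 := by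
    refine (Finset.sum_le_sum (g := fun _ => (1 : ℝ)) fun p _ => (ind_mem i _).2).trans ?_
    rw [Finset.sum_const, nsmul_eq_mul, mul_one, card_sq]
  have h2 : (0 : ℝ) < (N + 1 : ℝ) ^ 2 := by positivity
  calc ((N + 1 : ℝ) ^ 2)⁻¹ * ∑ p ∈ sq N, ind i (shift (bx M N p) ω)
      ≤ ((N + 1 : ℝ) ^ 2)⁻¹ * (N + 1 : ℝ) ^ 2 :=
        mul_le_mul_of_nonneg_left h1 (by positivity)
    _ = 1 := inv_mul_cancel₀ h2.ne'

end ExLim

theorem exists_lim {k : ℕ} {μ : Measure (KG → Fin k)} {ν : Fin k → Measure (KG → Circle)}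
    (hS : Spec k μ ν) {M : ℕ} (hM : NH M) (i : Fin k) : ∃ G, Lim μ M i G := by
  have := hS.col.prob
  let C : ℕ × ℕ → ℝ := fun p => ∫ ω, Av M p.1 i ω * Av M p.2 i ω ∂μ
  have hC : ∃ L : ℝ, Tendsto C (atTop ×ˢ atTop) (𝓝 L) := by
    have h1 := corr_lim (hS.nice i) hM hM 0
    have h2 := (Complex.continuous_re.tendsto _).comp h1
    refine ⟨_, h2.congr fun p => ?_⟩
    have h3 := corr_av hS i M p.1 M p.2 0
    have h4 : ∀ ω : KG → Fin k, shift (0 : KG) ω = ω := by
      intro ω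
      funext z
      show ω (z + 0) = ω z
      rw [add_zero]
    simp only [h4] at h3
    rw [Function.comp_apply, ← h3, Complex.ofReal_re]
  obtain ⟨L, hL⟩ := hC
  have hint : ∀ N N', Integrable (fun ω => Av M N i ω * Av M N' i ω) μ := by
    intro N N'
    apply Integrable.of_bound
      ((ExLim.measurable_Av M N i).mul (ExLim.measurable_Av M N' i)).aestronglyMeasurable 1
    refine Filter.Eventually.of_forall fun ω => ?_
    have h1 := ExLim.Av_nonneg M N i ω
    have h2 := ExLim.Av_nonneg M N' i ω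
    have h3 := ExLim.Av_le_one M N i ω
    have h4 := ExLim.Av_le_one M N' i ω
    show ‖Av M N i ω * Av M N' i ω‖ ≤ 1
    rw [Real.norm_eq_abs, abs_of_nonneg (mul_nonneg h1 h2)]
    nlinarith
  have hid : ∀ p : ℕ × ℕ, ∫ ω, (Av M p.1 i ω - Av M p.2 i ω) ^ 2 ∂μ =
      C (p.1, p.1) - 2 * C (p.1, p.2) + C (p.2, p.2) := by
    intro p
    have e1 : ∀ ω, (Av M p.1 i ω - Av M p.2 i ω) ^ 2 =
        Av M p.1 i ω * Av M p.1 i ω - 2 * (Av M p.1 i ω * Av M p.2 i ω) +
          Av M p.2 i ω * Av M p.2 i ω := by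
      intro ω
      ring
    have i1 : Integrable (fun ω => 2 * (Av M p.1 i ω * Av M p.2 i ω)) μ := (hint _ _).const_mul 2
    have i2 : Integrable (fun ω => Av M p.1 i ω * Av M p.1 i ω -
        2 * (Av M p.1 i ω * Av M p.2 i ω)) μ := (hint _ _).sub i1
    simp only [e1]
    rw [integral_add i2 (hint _ _), integral_sub (hint _ _) i1, integral_const_mul]
  have hcau : Tendsto (fun p : ℕ × ℕ => ∫ ω, (Av M p.1 i ω - Av M p.2 i ω) ^ 2 ∂μ)
      (atTop ×ˢ atTop) (𝓝 0) := by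
    have h1 : Tendsto (fun p : ℕ × ℕ => C (p.1, p.1)) (atTop ×ˢ atTop) (𝓝 L) :=
      hL.comp (tendsto_fst.prodMk tendsto_fst)
    have h2 : Tendsto (fun p : ℕ × ℕ => C (p.2, p.2)) (atTop ×ˢ atTop) (𝓝 L) :=
      hL.comp (tendsto_snd.prodMk tendsto_snd)
    have h3 := (h1.sub (hL.const_mul 2)).add h2
    have h4 : L - 2 * L + L = 0 := by ring
    rw [h4] at h3
    refine h3.congr fun p => ?_
    exact (hid p).symm
  obtain ⟨G, hG1, hG2, hG3, hG4⟩ := ExLim.l2_limit μ (fun N => Av M N i)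
    (fun N => ExLim.measurable_Av M N i) (fun N ω => ExLim.Av_nonneg M N i ω)
    (fun N ω => ExLim.Av_le_one M N i ω) hcau
  exact ⟨G, hG1, hG2, hG3, hG4⟩

end Pool.Agent.MP_8b8716_co_QF
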