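import Mathlib

set_option autoImplicit false

/-!
# MP_8b8716_co, project QF: mixing on finite abelian groups
-/

noncomputable section

namespace Pool.Agent.MP_8b8716_co_QF

open Finset

section
variable {A : Type*} [AddCommGroup A] [Fintype A]

/-- Fourier coefficients -/
def fc (f : A → ℝ) (ψ : AddChar A ℂ) : ℂ := ∑ x, (f x : ℂ) * ψ (-x)

theorem conj_fc (f : A → ℝ) (ψ : AddChar A ℂ) :
    (starRingEnd ℂ) (fc f ψ) = ∑ x, (f x : ℂ) * ψ x := by
  unfold fc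
  rw [map_sum]
  refine Finset.sum_congr rfl fun x _ => ?_
  rw [map_mul, Complex.conj_ofReal, AddChar.map_neg_eq_conj]
  simp

theorem fc_shift (f g : A → ℝ) (u : A) :
    ∑ ψ : AddChar A ℂ, fc f ψ * (starRingEnd ℂ) (fc g ψ) * ψ u =
      Fintype.card A * ((∑ y, f (y + u) * g y : ℝ) : ℂ) := by
  classical
  have h1 : ∀ ψ : AddChar A ℂ, fc f ψ * (starRingEnd ℂ) (fc g ψ) * ψ u =
      ∑ x, ∑ y, ((f x : ℂ) * g y) * ψ (u + y - x) := by
    intro ψ
    rw [conj_fc]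
    unfold fc
    rw [Finset.sum_mul_sum, Finset.sum_mul]
    refine Finset.sum_congr rfl fun x _ => ?_
    rw [Finset.sum_mul]
    refine Finset.sum_congr rfl fun y _ => ?_
    rw [sub_eq_add_neg, AddChar.map_add_eq_mul, AddChar.map_add_eq_mul]
    ring
  simp only [h1]
  rw [Finset.sum_comm]
  have h2 : ∀ x : A, ∑ ψ : AddChar A ℂ, ∑ y, ((f x : ℂ) * g y) * ψ (u + y - x) =
      ∑ y, ((f x : ℂ) * g y) * (if u + y - x = 0 then (Fintype.card A : ℂ) else 0) := by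
    intro x
    rw [Finset.sum_comm]
    refine Finset.sum_congr rfl fun y _ => ?_
    rw [← Finset.mul_sum, AddChar.sum_apply_eq_ite]
  simp only [h2]
  rw [Finset.sum_comm]
  push_cast
  rw [Finset.mul_sum]
  refine Finset.sum_congr rfl fun y _ => ?_
  rw [Finset.sum_eq_single (y + u)]
  · rw [if_pos (by abel)]
    ring
  · intro x _ hx
    rw [if_neg]
    · ring
    · intro h
      apply hx
      have : u + y - x + x = 0 + x := by rw [h]
      rw [sub_add_cancel, zero_add] at this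
      rw [← this]
      abel
  · intro h
    exact absurd (Finset.mem_univ _) h

theorem sum_norm_fc (f : A → ℝ) :
    ∑ ψ : AddChar A ℂ, ‖fc f ψ‖ ^ 2 = Fintype.card A * ∑ y, f y ^ 2 := by
  have h := fc_shift f f 0
  have h2 : ∀ ψ : AddChar A ℂ, fc f ψ * (starRingEnd ℂ) (fc f ψ) * ψ 0 =
      ((‖fc f ψ‖ ^ 2 : ℝ) : ℂ) := by
    intro ψ
    rw [AddChar.map_zero_eq_one, mul_one, Complex.mul_conj, Complex.normSq_eq_norm_sq]
  simp only [h2, add_zero] at h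
  have h3 : ((∑ ψ : AddChar A ℂ, ‖fc f ψ‖ ^ 2 : ℝ) : ℂ) =
      ((Fintype.card A * ∑ y, f y ^ 2 : ℝ) : ℂ) := by
    push_cast
    push_cast at h
    rw [h]
    congr 1
    exact Finset.sum_congr rfl fun y _ => by ring
  exact_mod_cast h3

theorem fc_zero (f : A → ℝ) : fc f 0 = ((∑ x, f x : ℝ) : ℂ) := by
  unfold fc
  push_cast
  exact Finset.sum_congr rfl fun x _ => by simp

/-- The expander mixing inequality -/
theorem mixing_group (U : Finset A) (lam : ℝ) (h0 : 0 ≤ lam)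
    (hgap : ∀ ψ : AddChar A ℂ, ψ ≠ 0 → ‖∑ u ∈ U, ψ u‖ ≤ lam * U.card) (f g : A → ℝ)
    (hf : ∀ x, 0 ≤ f x ∧ f x ≤ 1) (hg : ∀ x, 0 ≤ g x ∧ g x ≤ 1) (a b : ℝ)
    (ha : a = (∑ x, f x) / Fintype.card A) (hb : b = (∑ x, g x) / Fintype.card A) :
    (Fintype.card A * U.card) * (a * b - lam / 2 * (a * (1 - a) + b * (1 - b))) ≤
      ∑ h, ∑ u ∈ U, f (h + u) * g h := by
  classical
  set N : ℝ := (Fintype.card A : ℝ) with hN
  have hNpos : 0 < N := by
    rw [hN]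
    exact_mod_cast Fintype.card_pos
  have hfa : ∑ x, f x = N * a := by rw [ha]; field_simp
  have hgb : ∑ x, g x = N * b := by rw [hb]; field_simp
  -- the main identity
  have h1 : ∑ ψ : AddChar A ℂ, fc f ψ * (starRingEnd ℂ) (fc g ψ) * ∑ u ∈ U, ψ u =
      ((N * ∑ h, ∑ u ∈ U, f (h + u) * g h : ℝ) : ℂ) := by
    simp only [Finset.mul_sum]
    rw [Finset.sum_comm]
    simp only [fc_shift]
    rw [← Finset.mul_sum]
    push_cast
    rw [Finset.sum_comm, hN]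
    push_cast
    simp only [Finset.mul_sum]
  rw [← Finset.add_sum_erase _ _ (Finset.mem_univ (0 : AddChar A ℂ))] at h1
  have h2 : fc f 0 * (starRingEnd ℂ) (fc g 0) * ∑ u ∈ U, (0 : AddChar A ℂ) u =
      ((N * N * U.card * (a * b) : ℝ) : ℂ) := by
    rw [fc_zero, fc_zero, Complex.conj_ofReal, hfa, hgb]
    simp only [AddChar.zero_apply, Finset.sum_const, nsmul_eq_mul, mul_one]
    push_cast
    ring
  rw [h2] at h1
  have h3 : ‖∑ ψ ∈ (Finset.univ : Finset (AddChar A ℂ)).erase 0,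
      fc f ψ * (starRingEnd ℂ) (fc g ψ) * ∑ u ∈ U, ψ u‖ ≤
      N * N * U.card * (lam / 2 * (a * (1 - a) + b * (1 - b))) := by
    have h4 : ∀ k : A → ℝ, (∀ x, 0 ≤ k x ∧ k x ≤ 1) → ∀ c : ℝ, ∑ x, k x = N * c →
        ∑ ψ ∈ (Finset.univ : Finset (AddChar A ℂ)).erase 0, ‖fc k ψ‖ ^ 2 ≤
          N * N * (c * (1 - c)) := by
      intro k hk c hc
      have h5 := sum_norm_fc k
      rw [← Finset.add_sum_erase _ _ (Finset.mem_univ (0 : AddChar A ℂ)), fc_zero, hc,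
        Complex.norm_real, Real.norm_eq_abs, sq_abs] at h5
      have h6 : ∑ y, k y ^ 2 ≤ N * c := by
        rw [← hc]
        refine Finset.sum_le_sum fun x _ => ?_
        nlinarith [hk x]
      have h7 : N * ∑ y, k y ^ 2 ≤ N * (N * c) := mul_le_mul_of_nonneg_left h6 hNpos.le
      rw [← hN] at h5
      nlinarith
    have h5 := h4 f hf a hfa
    have h6 := h4 g hg b hgb
    calc ‖∑ ψ ∈ (Finset.univ : Finset (AddChar A ℂ)).erase 0,
        fc f ψ * (starRingEnd ℂ) (fc g ψ) * ∑ u ∈ U, ψ u‖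
        ≤ ∑ ψ ∈ (Finset.univ : Finset (AddChar A ℂ)).erase 0,
          ‖fc f ψ * (starRingEnd ℂ) (fc g ψ) * ∑ u ∈ U, ψ u‖ := norm_sum_le _ _
      _ ≤ ∑ ψ ∈ (Finset.univ : Finset (AddChar A ℂ)).erase 0,
          (lam * U.card) / 2 * (‖fc f ψ‖ ^ 2 + ‖fc g ψ‖ ^ 2) := by
        refine Finset.sum_le_sum fun ψ hψ => ?_
        rw [norm_mul, norm_mul, RCLike.norm_conj]
        have h7 := hgap ψ (Finset.ne_of_mem_erase hψ)
        have h8 : ‖fc f ψ‖ * ‖fc g ψ‖ ≤ (‖fc f ψ‖ ^ 2 + ‖fc g ψ‖ ^ 2) / 2 := by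
          nlinarith [sq_nonneg (‖fc f ψ‖ - ‖fc g ψ‖)]
        calc ‖fc f ψ‖ * ‖fc g ψ‖ * ‖∑ u ∈ U, ψ u‖
            ≤ ((‖fc f ψ‖ ^ 2 + ‖fc g ψ‖ ^ 2) / 2) * (lam * U.card) := by
              gcongr
          _ = _ := by ring
      _ = (lam * U.card) / 2 * (∑ ψ ∈ (Finset.univ : Finset (AddChar A ℂ)).erase 0, ‖fc f ψ‖ ^ 2 +
            ∑ ψ ∈ (Finset.univ : Finset (AddChar A ℂ)).erase 0, ‖fc g ψ‖ ^ 2) := by
        rw [← Finset.mul_sum, Finset.sum_add_distrib]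
      _ ≤ (lam * U.card) / 2 * (N * N * (a * (1 - a)) + N * N * (b * (1 - b))) :=
        mul_le_mul_of_nonneg_left (add_le_add h5 h6)
          (div_nonneg (mul_nonneg h0 (Nat.cast_nonneg _)) (by norm_num))
      _ = _ := by ring
  have h4 : ∑ ψ ∈ (Finset.univ : Finset (AddChar A ℂ)).erase 0,
      fc f ψ * (starRingEnd ℂ) (fc g ψ) * ∑ u ∈ U, ψ u =
      ((N * (∑ h, ∑ u ∈ U, f (h + u) * g h) - N * N * U.card * (a * b) : ℝ) : ℂ) := by
    rw [Complex.ofReal_sub, ← h1]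
    ring
  rw [h4, Complex.norm_real, Real.norm_eq_abs, abs_le] at h3
  have h5 := h3.1
  have h6 : N * (N * U.card * (a * b - lam / 2 * (a * (1 - a) + b * (1 - b)))) ≤
      N * ∑ h, ∑ u ∈ U, f (h + u) * g h := by
    nlinarith
  exact le_of_mul_le_mul_left h6 hNpos

end

end Pool.Agent.MP_8b8716_co_QF
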