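import Mathlib
import Pool.Agent.Lib.MP_8b8716_co_QF.GapA

set_option autoImplicit false

/-!
# MP_8b8716_co, project QF: the fourth moment bound in a finite field
-/

noncomputable section

namespace Pool.Agent.MP_8b8716_co_QF

open Finset

section
variable {A : Type*} [Field A] [Fintype A] [DecidableEq A]

/-- number of representations as a sum of two elements of `U` -/
def rep (U : Finset A) (w : A) : ℕ := ((U ×ˢ U).filter fun p => p.1 + p.2 = w).card

theorem fc_rep (U : Finset A) (ψ : AddChar A ℂ) :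
    fc (fun w => (rep U w : ℝ)) ψ = (∑ c ∈ U, ψ (-c)) ^ 2 := by
  unfold fc rep
  have h1 : ∀ w : A, (((((U ×ˢ U).filter fun p => p.1 + p.2 = w).card : ℝ)) : ℂ) * ψ (-w) =
      ∑ p ∈ U ×ˢ U, if p.1 + p.2 = w then ψ (-w) else 0 := by
    intro w
    rw [← Finset.sum_filter, Finset.sum_const, nsmul_eq_mul]
    push_cast
    rfl
  simp only [h1]
  rw [Finset.sum_comm]
  have h2 : ∀ p ∈ U ×ˢ U, ∑ w : A, (if p.1 + p.2 = w then ψ (-w) else 0) =
      ψ (-p.1) * ψ (-p.2) := by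
    intro p _
    rw [Finset.sum_ite_eq, if_pos (Finset.mem_univ _), neg_add, AddChar.map_add_eq_mul]
  rw [Finset.sum_congr rfl h2, Finset.sum_product, sq, Finset.sum_mul_sum]

theorem sum_rep (U : Finset A) : ∑ w : A, rep U w = U.card ^ 2 := by
  unfold rep
  rw [← Finset.card_eq_sum_card_fiberwise (f := fun p : A × A => p.1 + p.2)
    (s := U ×ˢ U) (t := Finset.univ) (fun _ _ => Finset.mem_coe.2 (Finset.mem_univ _)),
    Finset.card_product, sq]

omit [Fintype A] in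
theorem rep_zero_le (U : Finset A) : rep U 0 ≤ U.card := by
  unfold rep
  refine Finset.card_le_card_of_injOn (fun p => p.1) ?_ ?_
  · intro p hp
    have hp' := Finset.mem_filter.1 (Finset.mem_coe.1 hp)
    exact Finset.mem_coe.2 (Finset.mem_product.1 hp'.1).1
  · intro p hp q hq h
    have hp' := (Finset.mem_filter.1 (Finset.mem_coe.1 hp)).2
    have hq' := (Finset.mem_filter.1 (Finset.mem_coe.1 hq)).2
    have h1 : p.1 = q.1 := h
    have h2 : p.2 = q.2 := by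
      have h3 : p.1 + p.2 = q.1 + q.2 := by rw [hp', hq']
      rw [h1] at h3
      exact add_left_cancel h3
    exact Prod.ext h1 h2

theorem sum_rep_sq_le (U : Finset A) (hU : 2 ≤ U.card) (h2 : ∀ w : A, w ≠ 0 → rep U w ≤ 2) :
    ∑ w : A, (rep U w : ℝ) ^ 2 ≤ 3 * (U.card : ℝ) ^ 2 - 2 * U.card := by
  have h3 : ∑ w : A, (rep U w : ℝ) = (U.card : ℝ) ^ 2 := by
    exact_mod_cast sum_rep U
  rw [← Finset.add_sum_erase _ _ (Finset.mem_univ (0 : A))] at h3 ⊢
  have h4 : ∑ w ∈ Finset.univ.erase (0 : A), (rep U w : ℝ) ^ 2 ≤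
      2 * ∑ w ∈ Finset.univ.erase (0 : A), (rep U w : ℝ) := by
    rw [Finset.mul_sum]
    refine Finset.sum_le_sum fun w hw => ?_
    have h5 : (rep U w : ℝ) ≤ 2 := by exact_mod_cast h2 w (Finset.ne_of_mem_erase hw)
    have h6 : (0 : ℝ) ≤ rep U w := Nat.cast_nonneg _
    nlinarith
  have h5 : (rep U 0 : ℝ) ≤ U.card := by exact_mod_cast rep_zero_le U
  have h6 : (0 : ℝ) ≤ rep U 0 := Nat.cast_nonneg _
  have h7 : (2 : ℝ) ≤ U.card := by exact_mod_cast hU
  nlinarith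

/-- the fourth moment -/
theorem fourth_moment (U : Finset A) (hU : 2 ≤ U.card) (h0 : (0 : A) ∉ U)
    (hmul : ∀ c ∈ U, ∀ d ∈ U, c * d ∈ U) (h2 : ∀ w : A, w ≠ 0 → rep U w ≤ 2)
    (χ : AddChar A ℂ) (hχ : χ ≠ 0) :
    (U.card : ℝ) * ‖∑ c ∈ U, χ c‖ ^ 4 + (U.card : ℝ) ^ 4 ≤
      Fintype.card A * (3 * (U.card : ℝ) ^ 2 - 2 * U.card) := by
  classical
  have h3 := sum_norm_fc (A := A) (fun w => (rep U w : ℝ))
  have h4 := sum_rep_sq_le U hU h2
  have hN : (0 : ℝ) < Fintype.card A := by exact_mod_cast Fintype.card_pos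
  have h5 : ∑ ψ : AddChar A ℂ, ‖fc (fun w => (rep U w : ℝ)) ψ‖ ^ 2 ≤
      Fintype.card A * (3 * (U.card : ℝ) ^ 2 - 2 * U.card) := by
    rw [h3]
    exact mul_le_mul_of_nonneg_left h4 hN.le
  refine le_trans ?_ h5
  have h6 : ∀ ψ : AddChar A ℂ, ‖fc (fun w => (rep U w : ℝ)) ψ‖ ^ 2 = ‖∑ c ∈ U, ψ c‖ ^ 4 := by
    intro ψ
    rw [fc_rep, norm_pow, ← pow_mul]
    congr 1
    have : (starRingEnd ℂ) (∑ c ∈ U, ψ c) = ∑ c ∈ U, ψ (-c) := by
      rw [map_sum]
      exact Finset.sum_congr rfl fun c _ => (AddChar.map_neg_eq_conj ψ c).symm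
    rw [← this, RCLike.norm_conj]
  simp only [h6]
  -- the translates of `χ`
  have hprim : AddChar.IsPrimitive χ := AddChar.IsPrimitive.of_ne_one hχ
  have hinj : Function.Injective (AddChar.mulShift χ) :=
    AddChar.to_mulShift_inj_of_isPrimitive hprim
  have hne : (0 : AddChar A ℂ) ∉ U.image (AddChar.mulShift χ) := by
    intro h
    obtain ⟨u, hu, h⟩ := Finset.mem_image.1 h
    have hu0 : u ≠ 0 := fun h' => h0 (h' ▸ hu)
    exact hprim hu0 h
  have hsum : ∀ u ∈ U, ∑ c ∈ U, AddChar.mulShift χ u c = ∑ c ∈ U, χ c := by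
    intro u hu
    have hu0 : u ≠ 0 := fun h' => h0 (h' ▸ hu)
    have hin : Set.InjOn (fun c => u * c) (U : Set A) := fun a _ b _ h => mul_left_cancel₀ hu0 h
    have himg : U.image (fun c => u * c) = U := by
      apply Finset.eq_of_subset_of_card_le
      · intro x hx
        obtain ⟨c, hc, rfl⟩ := Finset.mem_image.1 hx
        exact hmul u hu c hc
      · rw [Finset.card_image_of_injOn hin]
    conv_rhs => rw [← himg]
    rw [Finset.sum_image hin]
    exact Finset.sum_congr rfl fun c _ => AddChar.mulShift_apply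
  calc (U.card : ℝ) * ‖∑ c ∈ U, χ c‖ ^ 4 + (U.card : ℝ) ^ 4
      = ∑ ψ ∈ U.image (AddChar.mulShift χ), ‖∑ c ∈ U, ψ c‖ ^ 4 +
          ‖∑ c ∈ U, (0 : AddChar A ℂ) c‖ ^ 4 := by
        rw [Finset.sum_image (fun a _ b _ h => hinj h)]
        congr 1
        · have h7 : ∀ u ∈ U, ‖∑ c ∈ U, AddChar.mulShift χ u c‖ ^ 4 = ‖∑ c ∈ U, χ c‖ ^ 4 :=
            fun u hu => by rw [hsum u hu]
          rw [Finset.sum_congr rfl h7, Finset.sum_const, nsmul_eq_mul]
        · simp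
    _ = ∑ ψ ∈ insert 0 (U.image (AddChar.mulShift χ)), ‖∑ c ∈ U, ψ c‖ ^ 4 := by
        rw [Finset.sum_insert hne, add_comm]
    _ ≤ ∑ ψ : AddChar A ℂ, ‖∑ c ∈ U, ψ c‖ ^ 4 := by
        refine Finset.sum_le_sum_of_subset_of_nonneg (Finset.subset_univ _) fun _ _ _ => ?_
        positivity

end

end Pool.Agent.MP_8b8716_co_QF
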