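import Mathlib
import Pool.Agent.Lib.MP_8b8716_co_QF.Defs

set_option autoImplicit false

/-!
# MP_8b8716_co, project QF: the ring of Gaussian integers modulo `M`
-/

noncomputable section

namespace Pool.Agent.MP_8b8716_co_QF

open Finset
open scoped QuadraticAlgebra

/-- the Gaussian integers modulo `M` -/
abbrev GM (M : ℕ) : Type := QuadraticAlgebra (ZMod M) (-1) 0

instance instFintypeGM (M : ℕ) [NeZero M] : Fintype (GM M) :=
  Fintype.ofEquiv _ (QuadraticAlgebra.equivProd (-1 : ZMod M) 0).symm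

theorem card_GM (M : ℕ) [NeZero M] : Fintype.card (GM M) = M ^ 2 := by
  rw [Fintype.card_congr (QuadraticAlgebra.equivProd (-1 : ZMod M) 0), Fintype.card_prod,
    ZMod.card, pow_two]

/-- the elements of norm one -/
def UG (M : ℕ) [NeZero M] : Finset (GM M) := univ.filter fun z => z.re ^ 2 + z.im ^ 2 = 1

theorem mem_UG {M : ℕ} [NeZero M] {z : GM M} : z ∈ UG M ↔ z.re ^ 2 + z.im ^ 2 = 1 := by
  simp [UG]

theorem UG_mul {M : ℕ} [NeZero M] {z w : GM M} (hz : z ∈ UG M) (hw : w ∈ UG M) :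
    z * w ∈ UG M := by
  rw [mem_UG] at *
  have h : (z * w).re ^ 2 + (z * w).im ^ 2 = (z.re ^ 2 + z.im ^ 2) * (w.re ^ 2 + w.im ^ 2) := by
    simp only [QuadraticAlgebra.re_mul, QuadraticAlgebra.im_mul]
    ring
  rw [h, hz, hw, one_mul]

theorem UG_star {M : ℕ} [NeZero M] {z : GM M} (hz : z ∈ UG M) : star z ∈ UG M := by
  rw [mem_UG] at *
  simpa using hz

theorem UG_one {M : ℕ} [NeZero M] : (1 : GM M) ∈ UG M := by
  rw [mem_UG]
  simp [QuadraticAlgebra.re_one, QuadraticAlgebra.im_one]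

theorem UG_neg {M : ℕ} [NeZero M] {z : GM M} (hz : z ∈ UG M) : -z ∈ UG M := by
  rw [mem_UG] at *
  simpa using hz

theorem mul_star_of_mem {M : ℕ} [NeZero M] {z : GM M} (hz : z ∈ UG M) : z * star z = 1 := by
  rw [mem_UG] at hz
  ext
  · simp only [QuadraticAlgebra.re_mul, QuadraticAlgebra.re_star, QuadraticAlgebra.im_star,
      QuadraticAlgebra.re_one]
    linear_combination hz
  · simp only [QuadraticAlgebra.im_mul, QuadraticAlgebra.re_star, QuadraticAlgebra.im_star,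
      QuadraticAlgebra.im_one]
    ring

theorem UG_isUnit {M : ℕ} [NeZero M] {z : GM M} (hz : z ∈ UG M) : IsUnit z :=
  IsUnit.of_mul_eq_one _ (mul_star_of_mem hz)

/-- multiplication by an element of norm one permutes the elements of norm one -/
theorem sum_UG_mul {M : ℕ} [NeZero M] {β : Type*} [AddCommMonoid β] {w : GM M} (hw : w ∈ UG M)
    (F : GM M → β) : ∑ c ∈ UG M, F (c * w) = ∑ c ∈ UG M, F c := by
  refine Finset.sum_nbij' (fun c => c * w) (fun c => c * star w) ?_ ?_ ?_ ?_ ?_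
  · exact fun c hc => UG_mul hc hw
  · exact fun c hc => UG_mul hc (UG_star hw)
  · intro c _
    rw [mul_assoc, mul_star_of_mem hw, mul_one]
  · intro c _
    rw [mul_assoc, mul_comm (star w), mul_star_of_mem hw, mul_one]
  · intro c _
    rfl

/-- the reduction to a divisor of the modulus -/
def red {l M : ℕ} (h : l ∣ M) : GM M →+* GM l where
  toFun z := ⟨ZMod.castHom h (ZMod l) z.re, ZMod.castHom h (ZMod l) z.im⟩
  map_one' := by
    ext
    · rw [QuadraticAlgebra.re_one, QuadraticAlgebra.re_one, map_one]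
    · rw [QuadraticAlgebra.im_one, QuadraticAlgebra.im_one, map_zero]
  map_mul' z w := by
    ext
    · simp only [QuadraticAlgebra.re_mul, map_add, map_mul, map_neg, map_one]
    · simp only [QuadraticAlgebra.im_mul, map_add, map_mul, map_zero]
  map_zero' := by
    ext
    · rw [QuadraticAlgebra.re_zero, QuadraticAlgebra.re_zero, map_zero]
    · rw [QuadraticAlgebra.im_zero, QuadraticAlgebra.im_zero, map_zero]
  map_add' z w := by
    ext
    · simp only [QuadraticAlgebra.re_add, map_add]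
    · simp only [QuadraticAlgebra.im_add, map_add]

theorem red_re {l M : ℕ} (h : l ∣ M) (z : GM M) :
    (red h z).re = ZMod.castHom h (ZMod l) z.re := rfl

theorem red_im {l M : ℕ} (h : l ∣ M) (z : GM M) :
    (red h z).im = ZMod.castHom h (ZMod l) z.im := rfl

theorem zmod_dvd_of_cast {l M : ℕ} [NeZero M] (h : l ∣ M) {a : ZMod M}
    (ha : ZMod.castHom h (ZMod l) a = 0) : ∃ b : ZMod M, a = l * b := by
  have h1 : ((a.val : ℕ) : ZMod l) = 0 := by
    rw [← ha]
    conv_rhs => rw [← ZMod.natCast_zmod_val a]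
    rw [map_natCast]
  rw [ZMod.natCast_eq_zero_iff] at h1
  obtain ⟨b, hb⟩ := h1
  refine ⟨(b : ZMod M), ?_⟩
  rw [← ZMod.natCast_zmod_val a, hb]
  push_cast
  rfl

theorem red_eq_zero {l M : ℕ} [NeZero M] (h : l ∣ M) {z : GM M} (hz : red h z = 0) :
    ∃ w : GM M, z = (l : GM M) * w := by
  have h1 : ZMod.castHom h (ZMod l) z.re = 0 := by
    rw [← red_re, hz]; rfl
  have h2 : ZMod.castHom h (ZMod l) z.im = 0 := by
    rw [← red_im, hz]; rfl
  obtain ⟨a, ha⟩ := zmod_dvd_of_cast h h1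
  obtain ⟨b, hb⟩ := zmod_dvd_of_cast h h2
  refine ⟨⟨a, b⟩, ?_⟩
  ext
  · simpa using ha
  · simpa using hb

theorem red_surjective {l M : ℕ} (h : l ∣ M) : Function.Surjective (red h) := by
  intro z
  obtain ⟨a, ha⟩ := ZMod.castHom_surjective h z.re
  obtain ⟨b, hb⟩ := ZMod.castHom_surjective h z.im
  exact ⟨⟨a, b⟩, by ext; exacts [ha, hb]⟩

theorem red_UG {l M : ℕ} [NeZero M] [NeZero l] (h : l ∣ M) {z : GM M} (hz : z ∈ UG M) :
    red h z ∈ UG l := by
  rw [mem_UG] at *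
  rw [red_re, red_im, ← map_pow, ← map_pow, ← map_add, hz, map_one]

/-- a character of `GM M` which kills the multiples of `l` comes from `GM l` -/
theorem exists_char_red {l M : ℕ} [NeZero M] (h : l ∣ M) (χ : AddChar (GM M) ℂ)
    (hχ : ∀ x : GM M, χ ((l : GM M) * x) = 1) :
    ∃ χ' : AddChar (GM l) ℂ, ∀ x, χ x = χ' (red h x) := by
  choose s hs using red_surjective h
  have key : ∀ x y : GM M, red h x = red h y → χ x = χ y := by
    intro x y hxy
    have h1 : red h (x - y) = 0 := by rw [map_sub, hxy, sub_self]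
    obtain ⟨w, hw⟩ := red_eq_zero h h1
    have h2 : x = (l : GM M) * w + y := by rw [← hw]; ring
    rw [h2, AddChar.map_add_eq_mul, hχ, one_mul]
  refine ⟨⟨fun z => χ (s z), ?_, ?_⟩, ?_⟩
  · rw [key (s 0) 0 (by rw [hs, map_zero]), AddChar.map_zero_eq_one]
  · intro a b
    rw [key (s (a + b)) (s a + s b) (by rw [hs, map_add, hs, hs]), AddChar.map_add_eq_mul]
  · intro x
    exact key x (s (red h x)) (by rw [hs])

/-! ### the rational parametrisation -/

theorem HP.odd {l : ℕ} (h : HP l) : l ≠ 2 := by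
  intro h2
  have := h.2.2
  omega

theorem NH.isUnit_sq {M : ℕ} (hM : NH M) (t : ZMod M) : IsUnit (1 + t ^ 2) := by
  have : NeZero M := ⟨hM.1⟩
  have h1 : (1 + t ^ 2 : ZMod M) = ((1 + t.val ^ 2 : ℕ) : ZMod M) := by
    push_cast
    rw [ZMod.natCast_zmod_val]
  rw [h1, ZMod.isUnit_iff_coprime]
  refine Nat.Coprime.symm (Nat.Coprime.symm ?_)
  rw [Nat.coprime_iff_gcd_eq_one]
  by_contra hne
  obtain ⟨l, hl, hd⟩ := Nat.exists_prime_and_dvd hne
  have hl1 : l ∣ 1 + t.val ^ 2 := hd.trans (Nat.gcd_dvd_left _ _)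
  have hl2 : l ∣ M := hd.trans (Nat.gcd_dvd_right _ _)
  have : Fact l.Prime := ⟨hl⟩
  have h3 : ((t.val : ZMod l)) ^ 2 = -1 := by
    have h4 : ((1 + t.val ^ 2 : ℕ) : ZMod l) = 0 := (ZMod.natCast_eq_zero_iff _ _).2 hl1
    push_cast at h4
    linear_combination h4
  exact ZMod.mod_four_ne_three_of_sq_eq_neg_one h3 (hM.2 l hl hl2).2.1

theorem NH.isUnit_two {M : ℕ} (hM : NH M) : IsUnit (2 : ZMod M) := by
  have h := hM.isUnit_sq 1
  have h2 : (1 + 1 ^ 2 : ZMod M) = 2 := by norm_num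
  rwa [h2] at h

/-- the rational parametrisation of the elements of norm one -/
def gt (M : ℕ) (t : ZMod M) : GM M := ⟨(1 - t ^ 2) * (1 + t ^ 2)⁻¹, 2 * t * (1 + t ^ 2)⁻¹⟩

theorem gt_mem {M : ℕ} [NeZero M] (hM : NH M) (t : ZMod M) : gt M t ∈ UG M := by
  rw [mem_UG]
  have h := ZMod.mul_inv_of_unit _ (hM.isUnit_sq t)
  simp only [gt]
  linear_combination ((1 + t ^ 2) * (1 + t ^ 2)⁻¹ + 1) * h

theorem red_inv {l M : ℕ} (h : l ∣ M) {a : ZMod M} (ha : IsUnit a) :
    ZMod.castHom h (ZMod l) a⁻¹ = (ZMod.castHom h (ZMod l) a)⁻¹ := by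
  have h1 := ZMod.mul_inv_of_unit _ ha
  have h2 : ZMod.castHom h (ZMod l) a * ZMod.castHom h (ZMod l) a⁻¹ = 1 := by
    rw [← map_mul, h1, map_one]
  have h3 : IsUnit (ZMod.castHom h (ZMod l) a) := ha.map _
  have h4 := ZMod.mul_inv_of_unit _ h3
  calc ZMod.castHom h (ZMod l) a⁻¹
      = ZMod.castHom h (ZMod l) a⁻¹ * (ZMod.castHom h (ZMod l) a * (ZMod.castHom h (ZMod l) a)⁻¹) := by
        rw [h4, mul_one]
    _ = (ZMod.castHom h (ZMod l) a * ZMod.castHom h (ZMod l) a⁻¹) *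
        (ZMod.castHom h (ZMod l) a)⁻¹ := by ring
    _ = _ := by rw [h2, one_mul]

theorem red_gt {l M : ℕ} [NeZero M] (hM : NH M) (h : l ∣ M) (t : ZMod M) :
    red h (gt M t) = gt l (ZMod.castHom h (ZMod l) t) := by
  have h1 := red_inv h (hM.isUnit_sq t)
  ext
  · simp only [red_re, gt]
    rw [map_mul, h1, map_sub, map_one, map_pow, map_add, map_one, map_pow]
  · simp only [red_im, gt]
    rw [map_mul, h1, map_mul, map_ofNat, map_add, map_one, map_pow]

/-- `gt (E t) - 1` is a multiple of `E` -/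
theorem gt_sub_one {M : ℕ} (hM : NH M) (E t : ZMod M) :
    ∃ w : GM M, gt M (E * t) - 1 = ⟨E, 0⟩ * w := by
  have h := ZMod.mul_inv_of_unit _ (hM.isUnit_sq (E * t))
  refine ⟨⟨-2 * E * t ^ 2 * (1 + (E * t) ^ 2)⁻¹, 2 * t * (1 + (E * t) ^ 2)⁻¹⟩, ?_⟩
  ext
  · simp only [gt, QuadraticAlgebra.re_sub, QuadraticAlgebra.re_one, QuadraticAlgebra.re_mul]
    linear_combination h
  · simp only [gt, QuadraticAlgebra.im_sub, QuadraticAlgebra.im_one, QuadraticAlgebra.im_mul]
    ring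

/-- `gt t = 1 + 2 i t + t ^ 2 (..)` -/
theorem gt_sub_lin {M : ℕ} (hM : NH M) (t : ZMod M) :
    ∃ w : GM M, gt M t - 1 - ⟨0, 2 * t⟩ = ⟨t ^ 2, 0⟩ * w := by
  have h := ZMod.mul_inv_of_unit _ (hM.isUnit_sq t)
  refine ⟨⟨-2 * (1 + t ^ 2)⁻¹, -2 * t * (1 + t ^ 2)⁻¹⟩, ?_⟩
  ext
  · simp only [gt, QuadraticAlgebra.re_sub, QuadraticAlgebra.re_one, QuadraticAlgebra.re_mul]
    linear_combination h
  · simp only [gt, QuadraticAlgebra.im_sub, QuadraticAlgebra.im_one, QuadraticAlgebra.im_mul]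
    linear_combination (2 * t) * h

end Pool.Agent.MP_8b8716_co_QF
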