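import Mathlib
import Pool.Agent.Lib.MP_8b8716_co_QF.GapB
import Pool.Agent.Lib.MP_8b8716_co_QF.GapC

set_option autoImplicit false

/-!
# MP_8b8716_co, project QF: prime moduli
-/

noncomputable section

namespace Pool.Agent.MP_8b8716_co_QF

open Finset
open scoped QuadraticAlgebra

theorem HP.le {l : ℕ} (hl : HP l) : 1259 ≤ l := by
  obtain ⟨h1, h2, h3⟩ := hl
  by_contra h
  push Not at h
  interval_cases l <;> first | omega | (revert h1; norm_num)

theorem HP.nh {l : ℕ} (hl : HP l) : NH l := by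
  refine ⟨hl.1.ne_zero, fun p hp hd => ?_⟩
  rw [(Nat.prime_dvd_prime_iff_eq hp hl.1).1 hd]
  exact hl

theorem HP.fact {l : ℕ} (hl : HP l) : Fact (∀ r : ZMod l, r ^ 2 ≠ -1 + 0 * r) := by
  have : Fact l.Prime := ⟨hl.1⟩
  refine ⟨fun r hr => ?_⟩
  rw [zero_mul, add_zero] at hr
  exact ZMod.mod_four_ne_three_of_sq_eq_neg_one hr hl.2.1

theorem HP.sq_add_sq {l : ℕ} (hl : HP l) {x y : ZMod l} (h : x ^ 2 + y ^ 2 = 0) :
    x = 0 ∧ y = 0 := by
  have : Fact l.Prime := ⟨hl.1⟩
  by_cases hy : y = 0
  · subst hy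
    simp at h
    exact ⟨h, rfl⟩
  · exfalso
    apply ZMod.mod_four_ne_three_of_sq_eq_neg_one (p := l) (y := x / y) ?_ hl.2.1
    rw [div_pow]
    have h2 : y ^ 2 ≠ 0 := pow_ne_zero 2 hy
    rw [div_eq_iff h2]
    linear_combination h

/-- every element of norm one except `-1` is given by the parametrisation -/
theorem exists_param {l : ℕ} [NeZero l] (hl : HP l) {u : GM l} (hu : u ∈ UG l) (h : u ≠ -1) :
    ∃ t : ZMod l, gt l t = u := by
  have : Fact l.Prime := ⟨hl.1⟩
  rw [mem_UG] at hu
  have h1 : u.re + 1 ≠ 0 := by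
    intro h1
    apply h
    have h2 : u.re = -1 := by linear_combination h1
    have h3 : u.im ^ 2 = 0 := by
      rw [h2] at hu
      linear_combination hu
    ext
    · rw [h2, QuadraticAlgebra.re_neg, QuadraticAlgebra.re_one]
    · rw [QuadraticAlgebra.im_neg, QuadraticAlgebra.im_one, neg_zero]
      exact pow_eq_zero_iff (two_ne_zero) |>.1 h3
  refine ⟨u.im / (u.re + 1), ?_⟩
  have h4 : IsUnit (2 : ZMod l) := hl.nh.isUnit_two
  have h4' : (2 : ZMod l) ≠ 0 := h4.ne_zero
  have h2 : (1 + (u.im / (u.re + 1)) ^ 2 : ZMod l) = 2 / (u.re + 1) := by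
    field_simp
    linear_combination hu
  ext
  · simp only [gt]
    rw [h2]
    field_simp
    linear_combination (-1) * hu
  · simp only [gt]
    rw [h2]
    field_simp

theorem gt_injective {l : ℕ} (hl : HP l) : Function.Injective (gt l) := by
  have : Fact l.Prime := ⟨hl.1⟩
  intro s t h
  have key : ∀ t : ZMod l, (gt l t).im = t * ((gt l t).re + 1) := by
    intro t
    have h1 := ZMod.mul_inv_of_unit _ (hl.nh.isUnit_sq t)
    simp only [gt]
    linear_combination t * h1
  have hne : ∀ t : ZMod l, (gt l t).re + 1 ≠ 0 := by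
    intro t h0
    have h1 := ZMod.mul_inv_of_unit _ (hl.nh.isUnit_sq t)
    have h2 : (gt l t).re + 1 = 2 * (1 + t ^ 2)⁻¹ := by
      simp only [gt]
      linear_combination (-1) * h1
    rw [h2] at h0
    have h3 : (2 : ZMod l) ≠ 0 := hl.nh.isUnit_two.ne_zero
    rcases mul_eq_zero.1 h0 with h4 | h4
    · exact h3 h4
    · rw [h4, mul_zero] at h1
      exact zero_ne_one h1
  have h1 := key s
  have h2 := key t
  rw [h] at h1
  have h3 : (s - t) * ((gt l t).re + 1) = 0 := by
    linear_combination h2 - h1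
  rcases mul_eq_zero.1 h3 with h4 | h4
  · linear_combination h4
  · exact absurd h4 (hne t)

theorem gt_ne_neg_one {l : ℕ} (hl : HP l) (t : ZMod l) : gt l t ≠ -1 := by
  have : Fact l.Prime := ⟨hl.1⟩
  intro h
  have h0 : (gt l t).re + 1 = 0 := by
    rw [h, QuadraticAlgebra.re_neg, QuadraticAlgebra.re_one]
    ring
  have h1 := ZMod.mul_inv_of_unit _ (hl.nh.isUnit_sq t)
  have h2 : (gt l t).re + 1 = 2 * (1 + t ^ 2)⁻¹ := by
    simp only [gt]
    linear_combination (-1) * h1
  rw [h2] at h0
  have h3 : (2 : ZMod l) ≠ 0 := hl.nh.isUnit_two.ne_zero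
  rcases mul_eq_zero.1 h0 with h4 | h4
  · exact h3 h4
  · rw [h4, mul_zero] at h1
    exact zero_ne_one h1

theorem card_UG_ge {l : ℕ} [NeZero l] (hl : HP l) : l + 1 ≤ (UG l).card := by
  classical
  have h1 : (insert (-1 : GM l) (univ.image (gt l))).card = l + 1 := by
    rw [Finset.card_insert_of_notMem, Finset.card_image_of_injective _ (gt_injective hl),
      Finset.card_univ, ZMod.card]
    intro h
    obtain ⟨t, _, ht⟩ := Finset.mem_image.1 h
    exact gt_ne_neg_one hl t ht
  rw [← h1]
  apply Finset.card_le_card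
  intro x hx
  rcases Finset.mem_insert.1 hx with rfl | hx
  · exact UG_neg UG_one
  · obtain ⟨t, _, rfl⟩ := Finset.mem_image.1 hx
    exact gt_mem hl.nh t

/-- a kernel of a nontrivial character contains at most two elements of norm one -/
theorem kernel_card {l : ℕ} [NeZero l] (hl : HP l) (χ : AddChar (GM l) ℂ) (hχ : χ ≠ 0) :
    ((UG l).filter fun u => χ u = 1).card ≤ 2 := by
  classical
  have : Fact l.Prime := ⟨hl.1⟩
  by_contra hc
  push Not at hc
  have hne : ((UG l).filter fun u => χ u = 1).Nonempty := by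
    rw [← Finset.card_pos]
    omega
  obtain ⟨u, hu⟩ := hne
  have hu' := Finset.mem_filter.1 hu
  have hsub : ¬ ((UG l).filter fun u => χ u = 1) ⊆ {u, -u} := by
    intro h
    have := Finset.card_le_card h
    have h2 := Finset.card_le_two (a := u) (b := -u)
    omega
  obtain ⟨v, hv, hvn⟩ := Finset.not_subset.1 hsub
  have hv' := Finset.mem_filter.1 hv
  rw [Finset.mem_insert, Finset.mem_singleton, not_or] at hvn
  -- the quotient `v / u = x + i y` has `y ≠ 0`
  set q : GM l := v * star u with hq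
  have hqU : q ∈ UG l := UG_mul hv'.1 (UG_star hu'.1)
  have hqv : u * q = v := by
    rw [hq]
    have := mul_star_of_mem hu'.1
    linear_combination v * this
  have hy : q.im ≠ 0 := by
    intro hy
    rw [mem_UG, hy] at hqU
    have h1 : (q.re - 1) * (q.re + 1) = 0 := by linear_combination hqU
    rcases mul_eq_zero.1 h1 with h2 | h2
    · apply hvn.1
      have h3 : q = 1 := by
        ext
        · rw [QuadraticAlgebra.re_one]; linear_combination h2
        · rw [QuadraticAlgebra.im_one, hy]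
      rw [← hqv, h3, mul_one]
    · apply hvn.2
      have h3 : q = -1 := by
        ext
        · rw [QuadraticAlgebra.re_neg, QuadraticAlgebra.re_one]; linear_combination h2
        · rw [QuadraticAlgebra.im_neg, QuadraticAlgebra.im_one, hy, neg_zero]
      rw [← hqv, h3]
      ring
  -- the kernel is closed under integer multiples
  have hnat : ∀ (a : ZMod l) (w : GM l), χ w = 1 → χ (⟨a, 0⟩ * w) = 1 := by
    intro a w hw
    have h1 : (⟨a, 0⟩ : GM l) = ((a.val : ℕ) : GM l) := by
      ext
      · rw [QuadraticAlgebra.re_natCast, ZMod.natCast_zmod_val]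
      · rw [QuadraticAlgebra.im_natCast]
    rw [h1, ← nsmul_eq_mul, AddChar.map_nsmul_eq_pow, hw, one_pow]
  apply hχ
  ext z
  rw [AddChar.zero_apply]
  -- `z = u w`, `w = p + i r = (p - r x / y) + (r / y) q`
  set w : GM l := z * star u with hw
  have hzw : u * w = z := by
    rw [hw]
    have := mul_star_of_mem hu'.1
    linear_combination z * this
  have hz : z = ⟨w.re - w.im / q.im * q.re, 0⟩ * u + ⟨w.im / q.im, 0⟩ * v := by
    rw [← hqv, ← hzw]
    have h1 : w = ⟨w.re - w.im / q.im * q.re, 0⟩ + ⟨w.im / q.im, 0⟩ * q := by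
      ext
      · simp only [QuadraticAlgebra.re_add, QuadraticAlgebra.re_mul]
        ring
      · simp only [QuadraticAlgebra.im_add, QuadraticAlgebra.im_mul]
        field_simp
        ring
    conv_lhs => rw [h1]
    ring
  rw [hz, AddChar.map_add_eq_mul, hnat _ _ hu'.2, hnat _ _ hv'.2, one_mul]

/-- a nonzero element has at most two representations as a sum of two elements of norm one -/
theorem rep_le {l : ℕ} [NeZero l] [Fact (∀ r : ZMod l, r ^ 2 ≠ -1 + 0 * r)]
    [Fact l.Prime] (w : GM l) (hw : w ≠ 0) : rep (UG l) w ≤ 2 := by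
  classical
  unfold rep
  set n : ZMod l := w.re ^ 2 + w.im ^ 2 with hn
  have hws : star w ≠ 0 := by
    intro h
    apply hw
    have := congrArg star h
    rwa [star_star, star_zero] at this
  set P : Polynomial (GM l) := Polynomial.C (star w) * Polynomial.X ^ 2 +
    Polynomial.C (-⟨n, 0⟩) * Polynomial.X + Polynomial.C w with hP
  have hdeg : P.natDegree = 2 := Polynomial.natDegree_quadratic hws
  have hP0 : P ≠ 0 := by
    intro h
    rw [h, Polynomial.natDegree_zero] at hdeg
    omega
  have h1 : (((UG l) ×ˢ (UG l)).filter fun p => p.1 + p.2 = w).card ≤ P.roots.toFinset.card := by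
    refine Finset.card_le_card_of_injOn (fun p => p.1) ?_ ?_
    · intro p hp
      have hp' := Finset.mem_filter.1 (Finset.mem_coe.1 hp)
      have hp1 := (Finset.mem_product.1 hp'.1).1
      have hp2 := (Finset.mem_product.1 hp'.1).2
      apply Finset.mem_coe.2
      rw [Multiset.mem_toFinset, Polynomial.mem_roots hP0, Polynomial.IsRoot.def, hP]
      simp only [Polynomial.eval_add, Polynomial.eval_mul, Polynomial.eval_C, Polynomial.eval_pow,
        Polynomial.eval_X]
      have ha := mul_star_of_mem hp1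
      have hb := mul_star_of_mem hp2
      have hw2 : w * star w = ⟨n, 0⟩ := by
        ext
        · simp only [QuadraticAlgebra.re_mul, QuadraticAlgebra.re_star, QuadraticAlgebra.im_star, hn]
          ring
        · simp only [QuadraticAlgebra.im_mul, QuadraticAlgebra.re_star, QuadraticAlgebra.im_star]
          ring
      have h3 : p.2 = w - p.1 := by rw [← hp'.2]; ring
      rw [h3] at hb
      have h4 : star (w - p.1) = star w - star p.1 := star_sub _ _
      rw [h4] at hb
      rw [← hw2]
      linear_combination (-p.1) * hb + (p.1 - w) * ha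
    · intro p hp q hq h
      have hp' := (Finset.mem_filter.1 (Finset.mem_coe.1 hp)).2
      have hq' := (Finset.mem_filter.1 (Finset.mem_coe.1 hq)).2
      have h1 : p.1 = q.1 := h
      have h2 : p.2 = q.2 := by
        have h3 : p.1 + p.2 = q.1 + q.2 := by rw [hp', hq']
        rw [h1] at h3
        exact add_left_cancel h3
      exact Prod.ext h1 h2
  refine h1.trans ((Multiset.toFinset_card_le _).trans ((Polynomial.card_roots' P).trans ?_))
  rw [hdeg]

/-- the gap for prime moduli -/
theorem gap_prime {l : ℕ} [NeZero l] (hl : HP l) (χ : AddChar (GM l) ℂ) (hχ : χ ≠ 0) :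
    ‖∑ c ∈ UG l, χ c‖ ≤ 1997 / 10000 * (UG l).card := by
  have : Fact l.Prime := ⟨hl.1⟩
  have := hl.fact
  have hcard := card_UG_ge hl
  have hl2 := hl.le
  have h0 : (0 : GM l) ∉ UG l := by
    intro h
    exact (UG_isUnit h).ne_zero rfl
  have h4 := fourth_moment (UG l) (by omega) h0 (fun c hc d hd => UG_mul hc hd) rep_le χ hχ
  rw [card_GM] at h4
  set N : ℝ := ((UG l).card : ℝ) with hN
  set S : ℝ := ‖∑ c ∈ UG l, χ c‖ with hS
  have hN1 : (l : ℝ) + 1 ≤ N := by rw [hN]; exact_mod_cast hcard
  have hl3 : (1259 : ℝ) ≤ l := by exact_mod_cast hl2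
  have hNpos : 1260 ≤ N := by linarith
  push_cast at h4
  have h5 : (l : ℝ) ^ 2 ≤ (N - 1) ^ 2 := by
    have : (l : ℝ) ≤ N - 1 := by linarith
    exact pow_le_pow_left₀ (by linarith) this 2
  have h6 : 0 ≤ 3 * N ^ 2 - 2 * N := by nlinarith
  have h7 : N * S ^ 4 + N ^ 4 ≤ (N - 1) ^ 2 * (3 * N ^ 2 - 2 * N) :=
    h4.trans (mul_le_mul_of_nonneg_right h5 h6)
  have h8 : N * S ^ 4 ≤ N * ((1997 / 10000 * N) ^ 4) := by
    have h9 : (N - 1) ^ 2 * (3 * N ^ 2 - 2 * N) - N ^ 4 ≤ 2 * N ^ 4 := by
      nlinarith [sq_nonneg N, mul_nonneg (by linarith : (0:ℝ) ≤ N) (sq_nonneg N)]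
    have h10 : 2 * N ^ 4 ≤ N * ((1997 / 10000 * N) ^ 4) := by
      have h11 : (0 : ℝ) ≤ N ^ 4 := by positivity
      have h12 : N * ((1997 / 10000 * N) ^ 4) = (1997 / 10000) ^ 4 * N * N ^ 4 := by ring
      rw [h12]
      have h13 : (2 : ℝ) ≤ (1997 / 10000) ^ 4 * N := by
        have : (2 : ℝ) ≤ (1997 / 10000) ^ 4 * 1260 := by norm_num
        nlinarith
      nlinarith
    linarith
  have h9 : S ^ 4 ≤ (1997 / 10000 * N) ^ 4 := le_of_mul_le_mul_left h8 (by linarith)
  exact le_of_pow_le_pow_left₀ (by norm_num) (by positivity) h9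

end Pool.Agent.MP_8b8716_co_QF
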