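import Mathlib
import Pool.Agent.Lib.MP_8b8716_co_QF.GapD

set_option autoImplicit false

/-!
# MP_8b8716_co, project QF: the spectral gap for general moduli
-/

noncomputable section

namespace Pool.Agent.MP_8b8716_co_QF

open Finset
open scoped QuadraticAlgebra

theorem natCast_GM {M : ℕ} (n : ℕ) : ((n : ℕ) : GM M) = ⟨(n : ZMod M), 0⟩ := by
  ext
  · rw [QuadraticAlgebra.re_natCast]
  · rw [QuadraticAlgebra.im_natCast]

/-- lifts of elements of norm one -/
theorem lift_UG {l M : ℕ} [NeZero M] [NeZero l] (hM : NH M) (hl : HP l) (h : l ∣ M) (E : ZMod M)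
    (hE : ZMod.castHom h (ZMod l) E = 1) {u : GM l} (hu : u ∈ UG l) :
    ∃ v ∈ UG M, red h v = u ∧ ∃ w : GM M, v - 1 = ⟨E, 0⟩ * w := by
  by_cases hu1 : u = -1
  · obtain ⟨w, hw⟩ := gt_sub_one hM E 1
    refine ⟨gt M (E * 1) * gt M (E * 1), UG_mul (gt_mem hM _) (gt_mem hM _), ?_,
      w * (gt M (E * 1) + 1), ?_⟩
    · rw [map_mul, red_gt hM, mul_one, hE, hu1]
      have h1 : gt l 1 = ⟨0, 1⟩ := by
        have h2 := ZMod.mul_inv_of_unit _ (hl.nh.isUnit_sq 1)
        ext
        · simp only [gt]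
          ring
        · simp only [gt]
          linear_combination h2
      rw [h1]
      ext
      · simp only [QuadraticAlgebra.re_mul, QuadraticAlgebra.re_neg, QuadraticAlgebra.re_one]
        ring
      · simp only [QuadraticAlgebra.im_mul, QuadraticAlgebra.im_neg, QuadraticAlgebra.im_one]
        ring
    · linear_combination (gt M (E * 1) + 1) * hw
  · obtain ⟨t, ht⟩ := exists_param hl hu hu1
    obtain ⟨t', ht'⟩ := ZMod.castHom_surjective h t
    refine ⟨gt M (E * t'), gt_mem hM _, ?_, gt_sub_one hM E t'⟩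
    rw [red_gt hM, map_mul, hE, one_mul, ht', ht]

/-- the set of `n` with `χ (n x) = 1` for all `x` is closed under greatest common divisors -/
theorem kill_gcd {M : ℕ} (χ : AddChar (GM M) ℂ) {a b : ℕ}
    (ha : ∀ x : GM M, χ ((a : GM M) * x) = 1) (hb : ∀ x : GM M, χ ((b : GM M) * x) = 1)
    (x : GM M) : χ ((Nat.gcd a b : GM M) * x) = 1 := by
  have h1 : ((Nat.gcd a b : ℕ) : GM M) = (a : GM M) * ((Nat.gcdA a b : ℤ) : GM M) +
      (b : GM M) * ((Nat.gcdB a b : ℤ) : GM M) := by
    have h2 := congrArg (fun n : ℤ => (n : GM M)) (Nat.gcd_eq_gcd_ab a b)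
    push_cast at h2
    exact h2
  rw [h1, add_mul, AddChar.map_add_eq_mul, mul_assoc, mul_assoc, ha, hb, one_mul]

theorem gap_A {l M e : ℕ} [NeZero M] (hM : NH M) (hl : HP l) (h : l ∣ M) (χ : AddChar (GM M) ℂ)
    (hle : l ∣ e) (hd : ∀ x : GM M, χ (((l * e : ℕ) : GM M) * x) = 1) {x0 : GM M}
    (hne : χ ((e : GM M) * x0) ≠ 1) :
    ‖∑ c ∈ UG M, χ c‖ ≤ 1997 / 10000 * (UG M).card := by
  classical
  have : NeZero l := ⟨hl.1.ne_zero⟩
  obtain ⟨e', he'⟩ := hle
  set j : GM M := ⟨0, 2 * (e : ZMod M)⟩ with hj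
  -- linearisation
  have h1 : ∀ (s : ℕ) (c : GM M), χ (c * gt M ((e : ZMod M) * s)) = χ c * χ (j * c) ^ s := by
    intro s c
    obtain ⟨w, hw⟩ := gt_sub_lin hM ((e : ZMod M) * s)
    have h2 : c * gt M ((e : ZMod M) * s) = c + (s : GM M) * (j * c) +
        ((l * e : ℕ) : GM M) * ((e' : GM M) * (s : GM M) ^ 2 * w * c) := by
      have h3 : (⟨0, 2 * ((e : ZMod M) * s)⟩ : GM M) = (s : GM M) * j := by
        rw [natCast_GM, hj]
        ext
        · simp only [QuadraticAlgebra.re_mul]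
          ring
        · simp only [QuadraticAlgebra.im_mul]
          ring
      have h4 : (⟨((e : ZMod M) * s) ^ 2, 0⟩ : GM M) =
          ((l * e : ℕ) : GM M) * ((e' : GM M) * (s : GM M) ^ 2) := by
        have h5 : (⟨((e : ZMod M) * s) ^ 2, 0⟩ : GM M) = (((e * s) ^ 2 : ℕ) : GM M) := by
          rw [natCast_GM]
          push_cast
          rfl
        rw [h5]
        have h6 : (e * s) ^ 2 = (l * e) * (e' * s ^ 2) := by
          rw [mul_pow, pow_two e]
          nth_rewrite 1 [he']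
          ring
        rw [h6]
        push_cast
        ring
      rw [h3, h4] at hw
      linear_combination c * hw
    rw [h2, AddChar.map_add_eq_mul, AddChar.map_add_eq_mul, hd, mul_one, ← nsmul_eq_mul,
      AddChar.map_nsmul_eq_pow]
  -- the powers
  have h2 : ∀ c : GM M, χ (j * c) ^ l = 1 := by
    intro c
    rw [← AddChar.map_nsmul_eq_pow, nsmul_eq_mul]
    have h3 : (l : GM M) * (j * c) = ((l * e : ℕ) : GM M) * (⟨0, 2⟩ * c) := by
      have h4 : (l : GM M) * j = ((l * e : ℕ) : GM M) * ⟨0, 2⟩ := by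
        rw [natCast_GM, natCast_GM, hj]
        ext
        · simp only [QuadraticAlgebra.re_mul]
          ring
        · simp only [QuadraticAlgebra.im_mul]
          push_cast
          ring
      linear_combination c * h4
    rw [h3, hd]
  set B : Finset (GM M) := (UG M).filter fun c => χ (j * c) = 1 with hB
  have h3 : (l : ℂ) * ∑ c ∈ UG M, χ c = (l : ℂ) * ∑ c ∈ B, χ c := by
    have h4 : (l : ℂ) * ∑ c ∈ UG M, χ c =
        ∑ s ∈ Finset.range l, ∑ c ∈ UG M, χ c * χ (j * c) ^ s := by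
      rw [show (l : ℂ) * ∑ c ∈ UG M, χ c = ∑ s ∈ Finset.range l, ∑ c ∈ UG M, χ c by
        rw [Finset.sum_const, Finset.card_range, nsmul_eq_mul]]
      refine Finset.sum_congr rfl fun s _ => ?_
      rw [← sum_UG_mul (gt_mem hM ((e : ZMod M) * s)) (fun c => χ c)]
      exact Finset.sum_congr rfl fun c _ => h1 s c
    rw [h4, Finset.sum_comm, hB, Finset.sum_filter, Finset.mul_sum]
    refine Finset.sum_congr rfl fun c _ => ?_
    rw [← Finset.mul_sum]
    split_ifs with hc
    · rw [hc]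
      simp
      ring
    · rw [geom_sum_eq hc, h2, sub_self, zero_div, mul_zero, mul_zero]
  have hl0 : (l : ℂ) ≠ 0 := by exact_mod_cast hl.1.ne_zero
  have h4 : ‖∑ c ∈ UG M, χ c‖ ≤ B.card := by
    rw [mul_left_cancel₀ hl0 h3]
    refine (norm_sum_le _ _).trans ?_
    have : ∀ c ∈ B, ‖χ c‖ ≤ 1 := fun c _ => (AddChar.norm_apply χ c).le
    refine (Finset.sum_le_card_nsmul _ _ _ this).trans ?_
    simp
  -- double counting
  have hlift : ∀ u : GM l, ∃ v : GM M, u ∈ UG l → v ∈ UG M ∧ red h v = u := by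
    intro u
    by_cases hu : u ∈ UG l
    · obtain ⟨v, hv, hv', _⟩ := lift_UG hM hl h 1 (map_one _) hu
      exact ⟨v, fun _ => ⟨hv, hv'⟩⟩
    · exact ⟨0, fun h => absurd h hu⟩
  choose w hw using hlift
  have h5 : B.card * (UG l).card ≤ 2 * (UG M).card := by
    have h6 : ∀ u ∈ UG l, ((UG M).filter fun c => χ (j * (c * w u)) = 1).card = B.card := by
      intro u hu
      have h7 := sum_UG_mul (hw u hu).1 (fun c => if χ (j * c) = 1 then (1 : ℕ) else 0)
      rw [hB, Finset.card_filter, Finset.card_filter]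
      exact h7
    have h7 : ∑ u ∈ UG l, ((UG M).filter fun c => χ (j * (c * w u)) = 1).card =
        (UG l).card * B.card := by
      rw [Finset.sum_congr rfl h6, Finset.sum_const, smul_eq_mul]
    have h8 : ∑ u ∈ UG l, ((UG M).filter fun c => χ (j * (c * w u)) = 1).card =
        ∑ c ∈ UG M, ((UG l).filter fun u => χ (j * (c * w u)) = 1).card := by
      simp only [Finset.card_filter]
      exact Finset.sum_comm
    have h9 : ∀ c ∈ UG M, ((UG l).filter fun u => χ (j * (c * w u)) = 1).card ≤ 2 := by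
      intro c hc
      obtain ⟨χ', hχ'⟩ := exists_char_red h (AddChar.mulShift χ (j * c)) (by
        intro x
        rw [AddChar.mulShift_apply]
        have h4 : j * c * ((l : GM M) * x) = ((l * e : ℕ) : GM M) * (⟨0, 2⟩ * c * x) := by
          have h5 : (l : GM M) * j = ((l * e : ℕ) : GM M) * ⟨0, 2⟩ := by
            rw [natCast_GM, natCast_GM, hj]
            ext
            · simp only [QuadraticAlgebra.re_mul]
              ring
            · simp only [QuadraticAlgebra.im_mul]
              push_cast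
              ring
          linear_combination c * x * h5
        rw [h4, hd])
      have hχ'0 : χ' ≠ 0 := by
        intro h0
        apply hne
        have h4 := hχ' (star c * ⟨0, -(2 : ZMod M)⁻¹⟩ * x0)
        rw [h0, AddChar.zero_apply, AddChar.mulShift_apply] at h4
        rw [← h4]
        congr 1
        have h5 := mul_star_of_mem hc
        have h6 := ZMod.mul_inv_of_unit _ hM.isUnit_two
        have h7 : j * ⟨0, -(2 : ZMod M)⁻¹⟩ = (e : GM M) := by
          rw [natCast_GM, hj]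
          ext
          · simp only [QuadraticAlgebra.re_mul]
            linear_combination (e : ZMod M) * h6
          · simp only [QuadraticAlgebra.im_mul]
            ring
        linear_combination (-x0) * h7 - (j * ⟨0, -(2 : ZMod M)⁻¹⟩ * x0) * h5
      refine le_trans (Finset.card_le_card ?_) (kernel_card hl χ' hχ'0)
      intro u hu
      have hu' := Finset.mem_filter.1 hu
      refine Finset.mem_filter.2 ⟨hu'.1, ?_⟩
      have h10 := hχ' (w u)
      rw [AddChar.mulShift_apply, mul_assoc, hu'.2, (hw u hu'.1).2] at h10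
      exact h10.symm
    calc B.card * (UG l).card = (UG l).card * B.card := mul_comm _ _
      _ = ∑ c ∈ UG M, ((UG l).filter fun u => χ (j * (c * w u)) = 1).card := by rw [← h7, h8]
      _ ≤ (UG M).card * 2 := by
        refine (Finset.sum_le_card_nsmul _ _ _ h9).trans ?_
        rw [smul_eq_mul]
      _ = 2 * (UG M).card := mul_comm _ _
  have h6 : (1260 : ℝ) ≤ ((UG l).card : ℝ) := by
    have := card_UG_ge hl
    have h7 := hl.le
    exact_mod_cast (by omega : 1260 ≤ (UG l).card)
  have h7 : (B.card : ℝ) * (UG l).card ≤ 2 * (UG M).card := by exact_mod_cast h5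
  have h8 : (0 : ℝ) ≤ (B.card : ℝ) := Nat.cast_nonneg _
  have h9 : (0 : ℝ) ≤ ((UG M).card : ℝ) := Nat.cast_nonneg _
  nlinarith

theorem gap_B {l M e : ℕ} [NeZero M] (hM : NH M) (hl : HP l) (h : l ∣ M) (χ : AddChar (GM M) ℂ)
    (hle : Nat.Coprime l e) (hd : ∀ x : GM M, χ (((l * e : ℕ) : GM M) * x) = 1) {x0 : GM M}
    (hne : χ ((e : GM M) * x0) ≠ 1) :
    ‖∑ c ∈ UG M, χ c‖ ≤ 1997 / 10000 * (UG M).card := by
  classical
  have : NeZero l := ⟨hl.1.ne_zero⟩
  obtain ⟨E, hE1, hE2⟩ := Nat.chineseRemainder hle 1 0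
  have hE1' : ((E : ℕ) : ZMod l) = 1 := by
    have := (ZMod.natCast_eq_natCast_iff _ _ _).2 hE1
    simpa using this
  obtain ⟨e1, he1⟩ : e ∣ E := (Nat.modEq_zero_iff_dvd).1 hE2
  have hcastE : ZMod.castHom h (ZMod l) (E : ZMod M) = 1 := by rw [map_natCast, hE1']
  have hlift1 : ∀ u : GM l, ∃ v : GM M, u ∈ UG l → v ∈ UG M ∧ red h v = u := by
    intro u
    by_cases hu : u ∈ UG l
    · obtain ⟨v, hv, hv', _⟩ := lift_UG hM hl h 1 (map_one _) hu
      exact ⟨v, fun _ => ⟨hv, hv'⟩⟩
    · exact ⟨0, fun h => absurd h hu⟩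
  choose w hw using hlift1
  have hlift2 : ∀ u : GM l, ∃ v : GM M, u ∈ UG l → v ∈ UG M ∧ red h v = u ∧
      ∃ y : GM M, v - 1 = (E : GM M) * y := by
    intro u
    by_cases hu : u ∈ UG l
    · obtain ⟨v, hv, hv', y, hy⟩ := lift_UG hM hl h (E : ZMod M) hcastE hu
      refine ⟨v, fun _ => ⟨hv, hv', y, ?_⟩⟩
      rw [natCast_GM]
      exact hy
    · exact ⟨0, fun h => absurd h hu⟩
  choose v hv using hlift2
  -- Bezout
  have hbez : ∃ a b : ℤ, (a : ℤ) * l + b * e = 1 := by
    have := Nat.isCoprime_iff_coprime.2 hle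
    obtain ⟨a, b, hab⟩ := this
    exact ⟨a, b, hab⟩
  obtain ⟨α, β, hab⟩ := hbez
  have hab' : (α : GM M) * (l : GM M) + (β : GM M) * (e : GM M) = 1 := by
    exact_mod_cast congrArg (fun n : ℤ => (n : GM M)) hab
  have hEe : (E : GM M) = (e : GM M) * (e1 : GM M) := by
    rw [he1]
    push_cast
    rfl
  -- the main identity
  have h1 : ∀ u ∈ UG l, ∀ c : GM M, χ (c * v u) = χ c * χ (-((E : GM M) * c)) *
      χ ((E : GM M) * c * w u) := by
    intro u hu c
    obtain ⟨hv1, hv2, y, hy⟩ := hv u hu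
    obtain ⟨hw1, hw2⟩ := hw u hu
    obtain ⟨a, ha⟩ := red_eq_zero h (z := v u - w u) (by rw [map_sub, hv2, hw2, sub_self])
    obtain ⟨b, hb⟩ := red_eq_zero h (z := (1 : GM M) - (E : GM M)) (by
      rw [map_sub, map_one, map_natCast]
      have h5 : ((E : ℕ) : GM l) = 1 := by
        rw [natCast_GM, hE1']
        ext
        · rw [QuadraticAlgebra.re_one]
        · rw [QuadraticAlgebra.im_one]
      rw [h5, sub_self])
    have hx1 : v u - 1 - (E : GM M) * (w u - 1) = (l : GM M) * (a + b * (w u - 1)) := by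
      linear_combination ha + (w u - 1) * hb
    have hx2 : v u - 1 - (E : GM M) * (w u - 1) = (e : GM M) * ((e1 : GM M) * (y - (w u - 1))) := by
      rw [hy, hEe]
      ring
    have hx : v u - 1 - (E : GM M) * (w u - 1) = ((l * e : ℕ) : GM M) *
        ((α : GM M) * ((e1 : GM M) * (y - (w u - 1))) + (β : GM M) * (a + b * (w u - 1))) := by
      push_cast
      linear_combination (-(v u - 1 - (E : GM M) * (w u - 1))) * hab' +
        (α : GM M) * (l : GM M) * hx2 + (β : GM M) * (e : GM M) * hx1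
    have hcv : c * v u = c + (-((E : GM M) * c)) + (E : GM M) * c * w u + ((l * e : ℕ) : GM M) *
        (c * ((α : GM M) * ((e1 : GM M) * (y - (w u - 1))) + (β : GM M) * (a + b * (w u - 1)))) := by
      linear_combination c * hx
    rw [hcv, AddChar.map_add_eq_mul, AddChar.map_add_eq_mul, AddChar.map_add_eq_mul, hd, mul_one]
  have h2 : ∀ c ∈ UG M, ‖∑ u ∈ UG l, χ ((E : GM M) * c * w u)‖ ≤
      1997 / 10000 * (UG l).card := by
    intro c hc
    obtain ⟨χ', hχ'⟩ := exists_char_red h (AddChar.mulShift χ ((E : GM M) * c)) (by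
      intro x
      rw [AddChar.mulShift_apply]
      have h4 : (E : GM M) * c * ((l : GM M) * x) =
          ((l * e : ℕ) : GM M) * ((e1 : GM M) * c * x) := by
        rw [hEe]
        push_cast
        ring
      rw [h4, hd])
    have hχ'0 : χ' ≠ 0 := by
      intro h0
      apply hne
      have hcop : Nat.Coprime e1 l := by
        have h5 : ¬ l ∣ E := by
          intro h6
          have : ((E : ℕ) : ZMod l) = 0 := (ZMod.natCast_eq_zero_iff _ _).2 h6
          rw [hE1'] at this
          have : Fact l.Prime := ⟨hl.1⟩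
          exact one_ne_zero ‹(1 : ZMod l) = 0›
        rw [Nat.coprime_comm, hl.1.coprime_iff_not_dvd]
        intro h6
        exact h5 (he1 ▸ Dvd.dvd.mul_left h6 e)
      obtain ⟨α', β', hab2⟩ := Nat.isCoprime_iff_coprime.2 hcop
      have hab2' : (α' : GM M) * (e1 : GM M) + (β' : GM M) * (l : GM M) = 1 := by
        exact_mod_cast congrArg (fun n : ℤ => (n : GM M)) hab2
      have h5 := mul_star_of_mem hc
      have h6 : (e : GM M) * x0 = (E : GM M) * c * (star c * (α' : GM M) * x0) +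
          ((l * e : ℕ) : GM M) * ((β' : GM M) * x0) := by
        rw [hEe]
        push_cast
        linear_combination (-(e : GM M) * x0) * hab2' -
          ((e : GM M) * (e1 : GM M) * (α' : GM M) * x0) * h5
      have h7 := hχ' (star c * (α' : GM M) * x0)
      rw [h0, AddChar.zero_apply, AddChar.mulShift_apply] at h7
      rw [h6, AddChar.map_add_eq_mul, h7, hd, one_mul]
    have h8 : ∑ u ∈ UG l, χ ((E : GM M) * c * w u) = ∑ u ∈ UG l, χ' u := by
      refine Finset.sum_congr rfl fun u hu => ?_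
      have h9 := hχ' (w u)
      rw [AddChar.mulShift_apply, (hw u hu).2] at h9
      exact h9
    rw [h8]
    exact gap_prime hl χ' hχ'0
  -- averaging
  have h3 : ((UG l).card : ℂ) * ∑ c ∈ UG M, χ c =
      ∑ c ∈ UG M, χ c * χ (-((E : GM M) * c)) * ∑ u ∈ UG l, χ ((E : GM M) * c * w u) := by
    calc ((UG l).card : ℂ) * ∑ c ∈ UG M, χ c = ∑ u ∈ UG l, ∑ c ∈ UG M, χ c := by
          rw [Finset.sum_const, nsmul_eq_mul]
      _ = ∑ u ∈ UG l, ∑ c ∈ UG M, χ (c * v u) := by
          refine Finset.sum_congr rfl fun u hu => ?_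
          rw [sum_UG_mul (hv u hu).1 (fun c => χ c)]
      _ = ∑ u ∈ UG l, ∑ c ∈ UG M, χ c * χ (-((E : GM M) * c)) * χ ((E : GM M) * c * w u) := by
          refine Finset.sum_congr rfl fun u hu => ?_
          exact Finset.sum_congr rfl fun c _ => h1 u hu c
      _ = _ := by
          rw [Finset.sum_comm]
          refine Finset.sum_congr rfl fun c _ => ?_
          rw [Finset.mul_sum]
  have h4 : ((UG l).card : ℝ) * ‖∑ c ∈ UG M, χ c‖ ≤
      ((UG l).card : ℝ) * (1997 / 10000 * (UG M).card) := by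
    have h5 : ((UG l).card : ℝ) * ‖∑ c ∈ UG M, χ c‖ =
        ‖((UG l).card : ℂ) * ∑ c ∈ UG M, χ c‖ := by
      rw [norm_mul, Complex.norm_natCast]
    rw [h5, h3]
    refine (norm_sum_le _ _).trans ?_
    have h6 : ∀ c ∈ UG M, ‖χ c * χ (-((E : GM M) * c)) *
        ∑ u ∈ UG l, χ ((E : GM M) * c * w u)‖ ≤ 1997 / 10000 * (UG l).card := by
      intro c hc
      rw [norm_mul, norm_mul, AddChar.norm_apply, AddChar.norm_apply, one_mul, one_mul]
      exact h2 c hc
    refine (Finset.sum_le_card_nsmul _ _ _ h6).trans ?_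
    rw [nsmul_eq_mul]
    apply le_of_eq
    ring
  have h5 : (0 : ℝ) < ((UG l).card : ℝ) := by
    have := card_UG_ge hl
    exact_mod_cast (by omega : 0 < (UG l).card)
  exact le_of_mul_le_mul_left h4 h5

/-- THE GAP -/
theorem gap {M : ℕ} [NeZero M] (hM : NH M) (χ : AddChar (GM M) ℂ) (hχ : χ ≠ 0) :
    ‖∑ c ∈ UG M, χ c‖ ≤ 1997 / 10000 * (UG M).card := by
  classical
  have hex : ∃ n : ℕ, 0 < n ∧ ∀ x : GM M, χ ((n : GM M) * x) = 1 := by
    refine ⟨M, Nat.pos_of_ne_zero hM.1, fun x => ?_⟩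
    rw [natCast_GM, ZMod.natCast_self]
    have : (⟨0, 0⟩ : GM M) = 0 := rfl
    rw [this, zero_mul, AddChar.map_zero_eq_one]
  set d := Nat.find hex with hdef
  have hd := Nat.find_spec hex
  have hmin : ∀ m : ℕ, 0 < m → (∀ x : GM M, χ ((m : GM M) * x) = 1) → d ≤ m :=
    fun m h1 h2 => Nat.find_min' hex ⟨h1, h2⟩
  rw [← hdef] at hd
  have hdM : d ∣ M := by
    have hMk : ∀ x : GM M, χ ((M : GM M) * x) = 1 := by
      intro x
      rw [natCast_GM, ZMod.natCast_self]
      have : (⟨0, 0⟩ : GM M) = 0 := rfl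
      rw [this, zero_mul, AddChar.map_zero_eq_one]
    have h1 := hmin (Nat.gcd d M) (Nat.gcd_pos_of_pos_left _ hd.1) (kill_gcd χ hd.2 hMk)
    have h2 : Nat.gcd d M = d :=
      le_antisymm (Nat.le_of_dvd hd.1 (Nat.gcd_dvd_left _ _)) h1
    rw [← h2]
    exact Nat.gcd_dvd_right _ _
  have hd1 : d ≠ 1 := by
    intro h1
    apply hχ
    ext x
    have := hd.2 x
    rw [h1, Nat.cast_one, one_mul] at this
    rw [this, AddChar.zero_apply]
  obtain ⟨l, hlp, hld⟩ := Nat.exists_prime_and_dvd hd1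
  obtain ⟨e, he⟩ := hld
  have hlM : l ∣ M := (Dvd.intro _ he.symm).trans hdM
  have hl : HP l := hM.2 l hlp hlM
  have hepos : 0 < e := by
    rcases Nat.eq_zero_or_pos e with h0 | h0
    · rw [h0, mul_zero] at he
      have := hd.1
      omega
    · exact h0
  have hed : e < d := by
    rw [he]
    have := hlp.two_le
    nlinarith
  have hnk : ∃ x0 : GM M, χ ((e : GM M) * x0) ≠ 1 := by
    by_contra hcon
    push Not at hcon
    have := hmin e hepos hcon
    omega
  obtain ⟨x0, hx0⟩ := hnk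
  have hkill : ∀ x : GM M, χ (((l * e : ℕ) : GM M) * x) = 1 := by
    rw [← he]
    exact hd.2
  by_cases hle : l ∣ e
  · exact gap_A hM hl hlM χ hle hkill hx0
  · exact gap_B hM hl hlM χ ((hlp.coprime_iff_not_dvd).2 hle) hkill hx0

end Pool.Agent.MP_8b8716_co_QF
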