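import Mathlib
import Pool.Agent.Lib.MP_8b8716_co_QF.GapE

set_option autoImplicit false

/-!
# MP_8b8716_co, project QF: the mixing inequality for the unit circle modulo `M`
-/

noncomputable section

namespace Pool.Agent.MP_8b8716_co_QF

open Finset
open scoped QuadraticAlgebra

/-- the additive equivalence between the ring and its coordinates -/
def toGM (M : ℕ) : AM M ≃+ GM M where
  toFun p := ⟨p.1, p.2⟩
  invFun z := (z.re, z.im)
  left_inv _ := rfl
  right_inv _ := rfl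
  map_add' _ _ := by
    ext
    · rfl
    · rfl

theorem toGM_mem {M : ℕ} [NeZero M] (u : AM M) : toGM M u ∈ UG M ↔ u ∈ UM M := by
  rw [mem_UG, UM, Finset.mem_filter]
  exact ⟨fun h => ⟨Finset.mem_univ _, h⟩, fun h => h.2⟩

theorem UM_map {M : ℕ} [NeZero M] : (UM M).map (toGM M).toEquiv.toEmbedding = UG M := by
  ext z
  rw [Finset.mem_map]
  constructor
  · rintro ⟨u, hu, rfl⟩
    exact (toGM_mem u).2 hu
  · intro hz
    refine ⟨(toGM M).symm z, ?_, (toGM M).apply_symm_apply z⟩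
    rw [← toGM_mem, AddEquiv.apply_symm_apply]
    exact hz

theorem UM_nonempty {M : ℕ} [NeZero M] : (UM M).Nonempty := by
  refine ⟨(1, 0), ?_⟩
  rw [UM, Finset.mem_filter]
  exact ⟨Finset.mem_univ _, by simp⟩

theorem gap_AM {M : ℕ} [NeZero M] (hM : NH M) (χ : AddChar (AM M) ℂ) (hχ : χ ≠ 0) :
    ‖∑ u ∈ UM M, χ u‖ ≤ lam * (UM M).card := by
  have h1 : ∑ u ∈ UM M, χ u = ∑ z ∈ UG M, (χ.compAddMonoidHom (toGM M).symm.toAddMonoidHom) z := by
    rw [← UM_map, Finset.sum_map]
    refine Finset.sum_congr rfl fun u _ => ?_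
    show χ u = χ ((toGM M).symm ((toGM M) u))
    rw [AddEquiv.symm_apply_apply]
  have h2 : (UM M).card = (UG M).card := by
    rw [← UM_map, Finset.card_map]
  rw [h1, h2, lam]
  refine gap hM _ ?_
  intro h0
  apply hχ
  ext u
  have h3 := DFunLike.congr_fun h0 (toGM M u)
  have h4 : (χ.compAddMonoidHom (toGM M).symm.toAddMonoidHom) (toGM M u) = χ u := by
    show χ ((toGM M).symm ((toGM M) u)) = χ u
    rw [AddEquiv.symm_apply_apply]
  rw [h4] at h3
  rw [h3]
  rfl

theorem mixing {M : ℕ} [NeZero M] (hM : NH M) (f g : AM M → ℝ) (hf : ∀ h, 0 ≤ f h ∧ f h ≤ 1)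
    (hg : ∀ h, 0 ≤ g h ∧ g h ≤ 1) : FF (mean f) (mean g) ≤ cross f g := by
  classical
  have hcard : (Fintype.card (AM M) : ℝ) = (M : ℝ) ^ 2 := by
    rw [Fintype.card_prod, ZMod.card, Nat.cast_mul]
    ring
  have hM0 : (0 : ℝ) < (M : ℝ) ^ 2 := by
    have : (0 : ℝ) < M := by exact_mod_cast Nat.pos_of_ne_zero hM.1
    positivity
  have hU : (0 : ℝ) < ((UM M).card : ℝ) := by
    exact_mod_cast UM_nonempty.card_pos
  have h := mixing_group (UM M) lam (by norm_num [lam]) (fun ψ hψ => gap_AM hM ψ hψ) f g hf hg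
    (mean f) (mean g) (by rw [mean, hcard]) (by rw [mean, hcard])
  rw [hcard] at h
  unfold FF cross
  rw [le_div_iff₀ (by positivity)]
  linarith

end Pool.Agent.MP_8b8716_co_QF
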