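import Mathlib
import Pool.Agent.Lib.MP_8b8716_co_QF.Defs

set_option autoImplicit false

/-!
# MP_8b8716_co, project QF: a measurable colouring of the plane with seven colours (module Hex)

Squares of diagonal one, in rows which are shifted by `5 / 2` squares.
-/

noncomputable section

namespace Pool.Agent.MP_8b8716_co_QF

open Complex MeasureTheory Filter Topology Set
open Pool.Agent.MP_8b8716_co_HN

namespace Hex

/-- the row -/
def row (z : ℂ) : ℤ := ⌊Real.sqrt 2 * z.im⌋

/-- the number of the square in the row -/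
def col (z : ℂ) : ℤ := ⌊Real.sqrt 2 * z.re - 5 / 2 * (row z : ℝ)⌋

theorem measurable_row : Measurable row :=
  Int.measurable_floor.comp ((Complex.measurable_im).const_mul _)

theorem measurable_col : Measurable col := by
  have h1 : Measurable fun z : ℂ => (row z : ℝ) :=
    (measurable_of_countable (fun n : ℤ => (n : ℝ))).comp measurable_row
  exact Int.measurable_floor.comp
    (((Complex.measurable_re).const_mul _).sub (h1.const_mul _))

theorem ne_of_le {z w : ℂ} (h : ‖z - w‖ = 1) (hr : row w ≤ row z) :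
    col z % 7 ≠ col w % 7 := by
  intro e
  have hs : Real.sqrt 2 ^ 2 = 2 := Real.sq_sqrt (by norm_num)
  have hs0 : 0 < Real.sqrt 2 := Real.sqrt_pos.2 (by norm_num)
  have hn : (z.re - w.re) ^ 2 + (z.im - w.im) ^ 2 = 1 := by
    have h1 : ‖z - w‖ ^ 2 = (z.re - w.re) ^ 2 + (z.im - w.im) ^ 2 := by
      rw [← Complex.normSq_eq_norm_sq, Complex.normSq_apply, Complex.sub_re, Complex.sub_im]
      ring
    rw [← h1, h]; norm_num
  -- the four inequalities
  have r1 := Int.floor_le (Real.sqrt 2 * z.im)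
  have r2 := Int.lt_floor_add_one (Real.sqrt 2 * z.im)
  have r3 := Int.floor_le (Real.sqrt 2 * w.im)
  have r4 := Int.lt_floor_add_one (Real.sqrt 2 * w.im)
  have c1 := Int.floor_le (Real.sqrt 2 * z.re - 5 / 2 * (row z : ℝ))
  have c2 := Int.lt_floor_add_one (Real.sqrt 2 * z.re - 5 / 2 * (row z : ℝ))
  have c3 := Int.floor_le (Real.sqrt 2 * w.re - 5 / 2 * (row w : ℝ))
  have c4 := Int.lt_floor_add_one (Real.sqrt 2 * w.re - 5 / 2 * (row w : ℝ))
  change (row z : ℝ) ≤ _ at r1
  change _ < (row z : ℝ) + 1 at r2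
  change (row w : ℝ) ≤ _ at r3
  change _ < (row w : ℝ) + 1 at r4
  change (col z : ℝ) ≤ _ at c1
  change _ < (col z : ℝ) + 1 at c2
  change (col w : ℝ) ≤ _ at c3
  change _ < (col w : ℝ) + 1 at c4
  obtain ⟨X, hX⟩ : ∃ X, X = Real.sqrt 2 * (z.re - w.re) := ⟨_, rfl⟩
  obtain ⟨Y, hY⟩ : ∃ Y, Y = Real.sqrt 2 * (z.im - w.im) := ⟨_, rfl⟩
  have hXY : X ^ 2 + Y ^ 2 = 2 := by
    rw [hX, hY, mul_pow, mul_pow, hs]
    linarith
  have hX2 : X ^ 2 ≤ 2 := by nlinarith [sq_nonneg Y]
  have hY2 : Y ^ 2 ≤ 2 := by nlinarith [sq_nonneg X]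
  have hXa : X < 1.42 := by nlinarith
  have hXb : -1.42 < X := by nlinarith
  have hYa : Y < 1.42 := by nlinarith
  obtain ⟨D, hD⟩ : ∃ D : ℤ, D = row z - row w := ⟨_, rfl⟩
  obtain ⟨T, hT⟩ : ∃ T : ℤ, col z - col w = 7 * T := ⟨(col z - col w) / 7, by omega⟩
  have hDr : (D : ℝ) = row z - row w := by rw [hD]; push_cast; ring
  have hTr : (col z : ℝ) - col w = 7 * T := by exact_mod_cast hT
  have hD0 : 0 ≤ D := by omega
  have d1 : (D : ℝ) < Y + 1 := by rw [hY, hDr]; linarith
  have d2 : Y - 1 < (D : ℝ) := by rw [hY, hDr]; linarith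
  have t1 : 7 * (T : ℝ) < X - 5 / 2 * D + 1 := by rw [← hTr, hX, hDr]; linarith
  have t2 : X - 5 / 2 * D - 1 < 7 * (T : ℝ) := by rw [← hTr, hX, hDr]; linarith
  have hD3 : D < 3 := by
    have h1 : (D : ℝ) < 3 := by linarith
    exact_mod_cast h1
  obtain rfl | rfl | rfl : D = 0 ∨ D = 1 ∨ D = 2 := by omega
  · push_cast at d1 d2 t1 t2
    have h1 : T < 1 := by
      have : (T : ℝ) < 1 := by linarith
      exact_mod_cast this
    have h2 : -1 < T := by
      have : (-1 : ℝ) < T := by linarith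
      exact_mod_cast this
    have h3 : T = 0 := by omega
    rw [h3] at t1 t2
    push_cast at t1 t2
    nlinarith
  · push_cast at d1 d2 t1 t2
    have h1 : T < 0 := by
      have : (T : ℝ) < 0 := by linarith
      exact_mod_cast this
    have h2 : -1 < T := by
      have : (-1 : ℝ) < T := by linarith
      exact_mod_cast this
    omega
  · push_cast at d1 d2 t1 t2
    have h1 : T < 0 := by
      have : (T : ℝ) < 0 := by linarith
      exact_mod_cast this
    have h2 : -2 < T := by
      have : (-2 : ℝ) < T := by linarith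
      exact_mod_cast this
    have h3 : T = -1 := by omega
    rw [h3] at t1 t2
    push_cast at t1 t2
    nlinarith

theorem ne {z w : ℂ} (h : ‖z - w‖ = 1) : col z % 7 ≠ col w % 7 := by
  rcases le_total (row w) (row z) with h1 | h1
  · exact ne_of_le h h1
  · exact (ne_of_le (by rwa [norm_sub_rev]) h1).symm

end Hex

theorem seven {k : ℕ} (hk : 7 ≤ k) : ∃ κ : ℂ → Fin k, Measurable κ ∧
    ∀ z w : ℂ, ‖z - w‖ = 1 → κ z ≠ κ w := by
  refine ⟨fun z => ⟨(Hex.col z % 7).toNat, by omega⟩, ?_, ?_⟩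
  · exact (measurable_of_countable (fun n : ℤ => (⟨(n % 7).toNat, by omega⟩ : Fin k))).comp
      Hex.measurable_col
  · intro z w h e
    apply Hex.ne h
    have h1 : (Hex.col z % 7).toNat = (Hex.col w % 7).toNat := congrArg Fin.val e
    omega

end Pool.Agent.MP_8b8716_co_QF
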