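import Mathlib
import Pool.Agent.Lib.MP_8b8716_co_HN.Avg
import Pool.Agent.Lib.MP_8b8716_co_QF.Defs
import Pool.Agent.Lib.MP_8b8716_co_QF.CorrAv
import Pool.Agent.Lib.MP_8b8716_co_QF.CorrLim

set_option autoImplicit false

/-!
# MP_8b8716_co, project QF, module LimC: correlations of the limits
-/

noncomputable section

namespace Pool.Agent.MP_8b8716_co_QF

open Complex MeasureTheory Filter Topology Set
open Pool.Agent.MP_8b8716_co_HN

namespace LimC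

variable {k : ℕ} {μ : Measure (KG → Fin k)}

theorem measurable_Av (M N : ℕ) (i : Fin k) : Measurable (Av M N i) := by
  unfold Av
  exact (Finset.measurable_fun_sum _ fun p _ =>
    (AvgPf.measurable_ind i).comp (AvgPf.measurable_shift (bx M N p))).const_mul _

theorem card_sq (N : ℕ) : ((sq N).card : ℝ) = (N + 1 : ℝ) ^ 2 := by
  unfold sq
  rw [Finset.card_product, Finset.card_range]
  push_cast
  ring

theorem Av_nonneg (M N : ℕ) (i : Fin k) (ω : KG → Fin k) : 0 ≤ Av M N i ω := by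
  unfold Av
  exact mul_nonneg (by positivity) (Finset.sum_nonneg fun p _ => AvgPf.ind_nonneg i _)

theorem Av_le_one (M N : ℕ) (i : Fin k) (ω : KG → Fin k) : Av M N i ω ≤ 1 := by
  unfold Av
  have h1 : ∑ p ∈ sq N, ind i (shift (bx M N p) ω) ≤ (N + 1 : ℝ) ^ 2 := by
    refine (Finset.sum_le_sum fun p _ => AvgPf.ind_le_one i _).trans ?_
    rw [Finset.sum_const, nsmul_eq_mul, mul_one, card_sq]
  have h2 : (0:ℝ) < (N + 1 : ℝ) ^ 2 := by positivity
  calc ((N + 1 : ℝ) ^ 2)⁻¹ * ∑ p ∈ sq N, ind i (shift (bx M N p) ω)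
      ≤ ((N + 1 : ℝ) ^ 2)⁻¹ * (N + 1 : ℝ) ^ 2 :=
        mul_le_mul_of_nonneg_left h1 (by positivity)
    _ = 1 := inv_mul_cancel₀ h2.ne'

theorem sum_Av (M N : ℕ) (ω : KG → Fin k) : ∑ i, Av M N i ω = 1 := by
  unfold Av
  rw [← Finset.mul_sum, Finset.sum_comm]
  simp only [AvgPf.sum_ind]
  rw [Finset.sum_const, nsmul_eq_mul, mul_one, card_sq]
  exact inv_mul_cancel₀ (by positivity)

theorem abs_sub_le_one {a b : ℝ} (ha : 0 ≤ a) (ha1 : a ≤ 1) (hb : 0 ≤ b) (hb1 : b ≤ 1) :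
    |a - b| ≤ 1 := by
  rw [abs_le]
  constructor <;> linarith

theorem int_abs_le (hμ : RandCol KG k μ) {F : (KG → Fin k) → ℝ} (hF : Measurable F)
    (hb : ∀ ω, |F ω| ≤ 1) {ε : ℝ} (hε : 0 < ε) :
    ∫ ω, |F ω| ∂μ ≤ ε / 2 + (∫ ω, (F ω) ^ 2 ∂μ) / (2 * ε) := by
  have := hμ.prob
  have hi2 : Integrable (fun ω => (F ω) ^ 2) μ := by
    refine AvgPf.integrable_bdd hμ (hF.pow_const 2) 1 fun ω => ?_
    rw [abs_pow]
    exact pow_le_one₀ (abs_nonneg _) (hb ω)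
  have hi1 : Integrable (fun ω => |F ω|) μ := by
    refine AvgPf.integrable_bdd hμ hF.abs 1 fun ω => ?_
    rw [abs_abs]
    exact hb ω
  have h1 : ∫ ω, |F ω| ∂μ ≤ ∫ ω, (ε / 2 + (F ω) ^ 2 / (2 * ε)) ∂μ := by
    refine integral_mono hi1 ((integrable_const _).add (hi2.div_const _)) fun ω => ?_
    show |F ω| ≤ ε / 2 + (F ω) ^ 2 / (2 * ε)
    rw [← sq_abs (F ω)]
    have h2 : ε / 2 + |F ω| ^ 2 / (2 * ε) - |F ω| = (|F ω| - ε) ^ 2 / (2 * ε) := by
      field_simp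
      ring
    have h3 : 0 ≤ (|F ω| - ε) ^ 2 / (2 * ε) := by positivity
    linarith
  rw [integral_add (integrable_const _) (hi2.div_const _), integral_const, integral_div] at h1
  simpa using h1

theorem tendsto_abs (hμ : RandCol KG k μ) {M : ℕ} {i : Fin k} {G : (KG → Fin k) → ℝ}
    (hG : Lim μ M i G) : Tendsto (fun N => ∫ ω, |Av M N i ω - G ω| ∂μ) atTop (𝓝 0) := by
  rw [Metric.tendsto_atTop]
  intro ε hε
  have h1 := hG.lim
  rw [Metric.tendsto_atTop] at h1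
  obtain ⟨N0, hN0⟩ := h1 (ε ^ 2) (by positivity)
  refine ⟨N0, fun N hN => ?_⟩
  have h2 := hN0 N hN
  rw [Real.dist_eq, sub_zero] at h2
  have h3 := (abs_lt.1 h2).2
  have h4 := int_abs_le hμ ((measurable_Av M N i).sub hG.meas)
    (fun ω => abs_sub_le_one (Av_nonneg M N i ω) (Av_le_one M N i ω) (hG.nonneg ω) (hG.le_one ω)) hε
  simp only [Pi.sub_apply] at h4
  rw [Real.dist_eq, sub_zero, abs_of_nonneg (integral_nonneg fun ω => abs_nonneg _)]
  have h5 : (∫ ω, (Av M N i ω - G ω) ^ 2 ∂μ) / (2 * ε) < ε / 2 := by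
    rw [div_lt_iff₀ (by positivity)]
    nlinarith
  linarith

theorem diff_le (hμ : RandCol KG k μ) (z : KG) {f f' g g' : (KG → Fin k) → ℝ}
    (hf : Measurable f) (hf' : Measurable f') (hg : Measurable g) (hg' : Measurable g')
    (f0 : ∀ ω, 0 ≤ f ω) (f1 : ∀ ω, f ω ≤ 1) (f0' : ∀ ω, 0 ≤ f' ω) (f1' : ∀ ω, f' ω ≤ 1)
    (g0 : ∀ ω, 0 ≤ g ω) (g1 : ∀ ω, g ω ≤ 1) (g0' : ∀ ω, 0 ≤ g' ω) (g1' : ∀ ω, g' ω ≤ 1) :
    |∫ ω, f (shift z ω) * f' ω ∂μ - ∫ ω, g (shift z ω) * g' ω ∂μ| ≤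
      ∫ ω, |f ω - g ω| ∂μ + ∫ ω, |f' ω - g' ω| ∂μ := by
  have hs := AvgPf.measurable_shift (E := KG) (k := k) z
  have i1 : Integrable (fun ω => f (shift z ω) * f' ω) μ := by
    refine AvgPf.integrable_bdd hμ ((hf.comp hs).mul hf') 1 fun ω => ?_
    rw [abs_mul, abs_of_nonneg (f0 _), abs_of_nonneg (f0' _)]
    exact mul_le_one₀ (f1 _) (f0' _) (f1' _)
  have i2 : Integrable (fun ω => g (shift z ω) * g' ω) μ := by
    refine AvgPf.integrable_bdd hμ ((hg.comp hs).mul hg') 1 fun ω => ?_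
    rw [abs_mul, abs_of_nonneg (g0 _), abs_of_nonneg (g0' _)]
    exact mul_le_one₀ (g1 _) (g0' _) (g1' _)
  have m3 : Measurable fun ω => |f ω - g ω| := (hf.sub hg).abs
  have m4 : Measurable fun ω => |f' ω - g' ω| := (hf'.sub hg').abs
  have i3 : Integrable (fun ω => |f (shift z ω) - g (shift z ω)|) μ := by
    refine AvgPf.integrable_bdd hμ (m3.comp hs) 1 fun ω => ?_
    rw [abs_abs]
    exact abs_sub_le_one (f0 _) (f1 _) (g0 _) (g1 _)
  have i4 : Integrable (fun ω => |f' ω - g' ω|) μ := by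
    refine AvgPf.integrable_bdd hμ m4 1 fun ω => ?_
    rw [abs_abs]
    exact abs_sub_le_one (f0' _) (f1' _) (g0' _) (g1' _)
  rw [← integral_sub i1 i2]
  refine (abs_integral_le_integral_abs).trans ?_
  have h1 : ∫ ω, |f (shift z ω) * f' ω - g (shift z ω) * g' ω| ∂μ ≤
      ∫ ω, (|f (shift z ω) - g (shift z ω)| + |f' ω - g' ω|) ∂μ := by
    refine integral_mono (i1.sub i2).abs (i3.add i4) fun ω => ?_
    show |f (shift z ω) * f' ω - g (shift z ω) * g' ω| ≤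
      |f (shift z ω) - g (shift z ω)| + |f' ω - g' ω|
    have e1 : f (shift z ω) * f' ω - g (shift z ω) * g' ω =
        (f (shift z ω) - g (shift z ω)) * f' ω + g (shift z ω) * (f' ω - g' ω) := by ring
    rw [e1]
    refine (abs_add_le _ _).trans (add_le_add ?_ ?_)
    · rw [abs_mul, abs_of_nonneg (f0' _)]
      exact mul_le_of_le_one_right (abs_nonneg _) (f1' _)
    · rw [abs_mul, abs_of_nonneg (g0 _)]
      exact mul_le_of_le_one_left (abs_nonneg _) (g1 _)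
  rw [integral_add i3 i4] at h1
  have h2 := AvgPf.integral_shift hμ z m3
  rw [h2] at h1
  exact h1

end LimC

theorem lim_corr {k : ℕ} {μ : Measure (KG → Fin k)} {ν : Fin k → Measure (KG → Circle)}
    (hS : Spec k μ ν) {M M' : ℕ} (hM : NH M) (hM' : NH M') {i : Fin k}
    {G G' : (KG → Fin k) → ℝ} (hG : Lim μ M i G) (hG' : Lim μ M' i G') (z : KG) :
    ((∫ ω, G (shift z ω) * G' ω ∂μ : ℝ) : ℂ) =
      ∫ y in AA ∩ SM M ∩ SM M', (y z : ℂ) ∂(ν i) := by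
  have hμ := hS.col
  have h1 : Tendsto (fun p : ℕ × ℕ =>
      ∫ ω, Av M p.1 i (shift z ω) * Av M' p.2 i ω ∂μ) (atTop ×ˢ atTop)
      (𝓝 (∫ ω, G (shift z ω) * G' ω ∂μ)) := by
    rw [tendsto_iff_dist_tendsto_zero]
    have h2 : Tendsto (fun p : ℕ × ℕ => ∫ ω, |Av M p.1 i ω - G ω| ∂μ +
        ∫ ω, |Av M' p.2 i ω - G' ω| ∂μ) (atTop ×ˢ atTop) (𝓝 (0 + 0)) :=
      ((LimC.tendsto_abs hμ hG).comp tendsto_fst).add ((LimC.tendsto_abs hμ hG').comp tendsto_snd)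
    rw [add_zero] at h2
    refine squeeze_zero (fun p => dist_nonneg) (fun p => ?_) h2
    rw [Real.dist_eq]
    exact LimC.diff_le hμ z (LimC.measurable_Av M p.1 i) (LimC.measurable_Av M' p.2 i) hG.meas
      hG'.meas (LimC.Av_nonneg M p.1 i) (LimC.Av_le_one M p.1 i) (LimC.Av_nonneg M' p.2 i)
      (LimC.Av_le_one M' p.2 i) hG.nonneg hG.le_one hG'.nonneg hG'.le_one
  have h2 : Tendsto (fun p : ℕ × ℕ =>
      ((∫ ω, Av M p.1 i (shift z ω) * Av M' p.2 i ω ∂μ : ℝ) : ℂ)) (atTop ×ˢ atTop)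
      (𝓝 ((∫ ω, G (shift z ω) * G' ω ∂μ : ℝ) : ℂ)) :=
    (Complex.continuous_ofReal.tendsto _).comp h1
  have h3 := corr_lim (hS.nice i) hM hM' z
  refine tendsto_nhds_unique h2 (h3.congr fun p => ?_)
  exact (corr_av hS i M p.1 M' p.2 z).symm

theorem lim_sum {k : ℕ} {μ : Measure (KG → Fin k)} (hμ : RandCol KG k μ) {M : ℕ}
    {G : Fin k → (KG → Fin k) → ℝ} (hG : ∀ i, Lim μ M i (G i)) : ∀ᵐ ω ∂μ, ∑ i, G i ω = 1 := by
  have hi : ∀ N : ℕ, ∀ i : Fin k, Integrable (fun ω => |Av M N i ω - G i ω|) μ := by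
    intro N i
    refine AvgPf.integrable_bdd hμ ((LimC.measurable_Av M N i).sub (hG i).meas).abs 1 fun ω => ?_
    rw [abs_abs]
    exact LimC.abs_sub_le_one (LimC.Av_nonneg M N i ω) (LimC.Av_le_one M N i ω) ((hG i).nonneg ω)
      ((hG i).le_one ω)
  have hms : Measurable fun ω => ∑ i, G i ω - 1 :=
    (Finset.measurable_fun_sum _ fun i _ => (hG i).meas).sub_const 1
  have hle : ∀ N : ℕ, ∀ ω, |∑ i, G i ω - 1| ≤ ∑ i, |Av M N i ω - G i ω| := by
    intro N ω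
    have h1 : ∑ i, G i ω - 1 = -∑ i, (Av M N i ω - G i ω) := by
      rw [Finset.sum_sub_distrib, LimC.sum_Av]
      ring
    rw [h1, abs_neg]
    exact Finset.abs_sum_le_sum_abs _ _
  have hint : Integrable (fun ω => |∑ i, G i ω - 1|) μ := by
    refine Integrable.mono' (g := fun ω => ∑ i, |Av M 0 i ω - G i ω|)
      (integrable_finsetSum _ fun i _ => hi 0 i) hms.abs.aestronglyMeasurable
      (Eventually.of_forall fun ω => ?_)
    rw [Real.norm_eq_abs, abs_abs]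
    exact hle 0 ω
  have h1 : ∀ N : ℕ, ∫ ω, |∑ i, G i ω - 1| ∂μ ≤ ∑ i, ∫ ω, |Av M N i ω - G i ω| ∂μ := by
    intro N
    rw [← integral_finsetSum _ fun i _ => hi N i]
    exact integral_mono hint (integrable_finsetSum _ fun i _ => hi N i) (hle N)
  have h2 : Tendsto (fun N => ∑ i, ∫ ω, |Av M N i ω - G i ω| ∂μ) atTop
      (𝓝 (∑ i : Fin k, (0:ℝ))) := tendsto_finsetSum _ fun i _ => LimC.tendsto_abs hμ (hG i)
  rw [Finset.sum_const_zero] at h2
  have h3 : ∫ ω, |∑ i, G i ω - 1| ∂μ ≤ 0 := ge_of_tendsto' h2 h1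
  have h4 : ∫ ω, |∑ i, G i ω - 1| ∂μ = 0 := le_antisymm h3 (integral_nonneg fun ω => abs_nonneg _)
  rw [integral_eq_zero_iff_of_nonneg (fun ω => abs_nonneg _) hint] at h4
  filter_upwards [h4] with ω hω
  have h5 : |∑ i, G i ω - 1| = 0 := hω
  linarith [abs_eq_zero.1 h5]

end Pool.Agent.MP_8b8716_co_QF
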