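import Pool.Agent.Lib.MP_8b8716_co_QF.RHf
import Pool.Agent.Lib.MP_8b8716_co_QF.SMf
import Pool.Agent.Lib.MP_8b8716_co_QF.LimC
import Pool.Agent.Lib.MP_8b8716_co_HN.AAf

set_option autoImplicit false

/-!
# MP_8b8716_co, project QF: the mean over the classes modulo `M`
-/

noncomputable section

namespace Pool.Agent.MP_8b8716_co_QF

open Complex MeasureTheory Filter Topology Set
open Pool.Agent.MP_8b8716_co_HN

namespace MeanL

theorem nh_one : NH 1 :=
  ⟨one_ne_zero, fun _ hl hd => absurd (Nat.dvd_one.1 hd) hl.one_lt.ne'⟩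

/-- the mean value of the character over the small representatives -/
def mm (M : ℕ) [NeZero M] (K : ℕ) (y : KG → Circle) : ℂ :=
  (∑ h : AM M, (y (zz K h) : ℂ)) / (M : ℂ) ^ 2

theorem norm_mm_le (M : ℕ) [NeZero M] (K : ℕ) (y : KG → Circle) : ‖mm M K y‖ ≤ 1 := by
  unfold mm
  have hM : (0 : ℝ) < (M : ℝ) ^ 2 := by
    have : (M : ℝ) ≠ 0 := Nat.cast_ne_zero.2 (NeZero.ne M)
    positivity
  rw [norm_div, norm_pow, Complex.norm_natCast, div_le_one hM]
  calc ‖∑ h : AM M, (y (zz K h) : ℂ)‖ ≤ ∑ h : AM M, ‖(y (zz K h) : ℂ)‖ := norm_sum_le _ _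
    _ = ∑ _h : AM M, (1 : ℝ) := Finset.sum_congr rfl fun h _ => Circle.norm_coe _
    _ = (M : ℝ) ^ 2 := by simp [Fintype.card_prod, ZMod.card, pow_two]
    _ ≤ _ := le_refl _

theorem measurable_eval (z : KG) : Measurable fun y : KG → Circle => (y z : ℂ) :=
  (by fun_prop : Continuous fun c : Circle => (c : ℂ)).measurable.comp (measurable_pi_apply z)

theorem measurable_mm (M : ℕ) [NeZero M] (K : ℕ) : Measurable (mm M K) := by
  unfold mm
  exact (Finset.measurable_sum _ fun h _ => measurable_eval _).div_const _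

/-- a sum over the classes -/
theorem sum_val {M : ℕ} [NeZero M] (α : ℂ) : ∑ a : ZMod M, α ^ a.val = ∑ j ∈ Finset.range M, α ^ j := by
  obtain ⟨n, rfl⟩ : ∃ n, M = n + 1 := Nat.exists_eq_succ_of_ne_zero (NeZero.ne M)
  exact Fin.sum_univ_eq_sum_range (fun j => α ^ j) (n + 1)

theorem sum_val_zero {M : ℕ} [NeZero M] {α : ℂ} (h : α ^ M = 1) (h1 : α ≠ 1) :
    ∑ a : ZMod M, α ^ a.val = 0 := by
  rw [sum_val, geom_sum_eq h1, h, sub_self, zero_div]

/-- the pointwise limit -/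
theorem mm_tendsto {M : ℕ} [NeZero M] (hM : NH M) {y : KG → Circle} (hy : IsChar y)
    (h : y ∈ SM M) : Tendsto (fun K => mm M K y) atTop
      (𝓝 ((SM 1).indicator (fun _ => (1 : ℂ)) y)) := by
  obtain ⟨ξ, hξ⟩ := h
  have hM0 : (M : ℂ) ≠ 0 := Nat.cast_ne_zero.2 (NeZero.ne M)
  set τ : KG → Circle := y / (fun w : KG => el ξ w) with hτ
  have hτc : IsChar τ := hy.div (isChar_el KG ξ)
  have hτM : ∀ w ∈ RH, τ ((M : KG) * w) = 1 := by
    intro w hw
    have e : (((M : KG) * w : KG) : ℂ) = (M : ℂ) * (w : ℂ) := by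
      push_cast
      rfl
    rw [hτ, Pi.div_apply, hξ w hw, e, el_mul, mul_comm (M : ℂ) ξ, div_self']
  have hyτ : ∀ w, y w = el ξ w * τ w := by
    intro w
    rw [hτ, Pi.div_apply, mul_div_cancel]
  have hz : ∀ K (h : AM M), y (zz K h) = el ξ (zz K h) * τ (lft h) := by
    intro K h
    obtain ⟨v, hv, hv'⟩ := zz_sub_lft hM K h
    have e : zz K h = lft h + (M : KG) * v := by
      rw [← hv']
      ring
    rw [hyτ]
    congr 1
    rw [e, hτc, hτM v hv, mul_one]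
  have hel : ∀ h : AM M, Tendsto (fun K => (el ξ (zz K h) : ℂ)) atTop (𝓝 1) := by
    intro h
    rw [tendsto_iff_norm_sub_tendsto_zero]
    have h1 : ∀ K, ‖(el ξ (zz K h) : ℂ) - 1‖ ≤ 2 * Real.pi * ‖ξ‖ * (2 * M / 2 ^ K) := by
      intro K
      refine (norm_el_sub_one_le _ _).trans ?_
      exact mul_le_mul_of_nonneg_left (norm_zz_le hM K h) (by positivity)
    have h2 : Tendsto (fun K : ℕ => 2 * Real.pi * ‖ξ‖ * (2 * M / 2 ^ K)) atTop (𝓝 0) := by
      have h3 : Tendsto (fun K : ℕ => ((1 : ℝ) / 2) ^ K) atTop (𝓝 0) :=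
        tendsto_pow_atTop_nhds_zero_of_lt_one (by norm_num) (by norm_num)
      have h4 := h3.const_mul (2 * Real.pi * ‖ξ‖ * (2 * M))
      rw [mul_zero] at h4
      refine h4.congr fun K => ?_
      rw [one_div, inv_pow]
      ring
    exact squeeze_zero (fun _ => norm_nonneg _) h1 h2
  have hlim : Tendsto (fun K => mm M K y) atTop
      (𝓝 ((∑ h : AM M, (1 : ℂ) * (τ (lft h) : ℂ)) / (M : ℂ) ^ 2)) := by
    unfold mm
    refine Tendsto.div_const ?_ _
    refine tendsto_finsetSum _ fun h _ => ?_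
    refine ((hel h).mul_const _).congr fun K => ?_
    rw [hz, Circle.coe_mul]
  convert hlim using 2
  by_cases hy1 : y ∈ SM 1
  · rw [indicator_of_mem hy1]
    obtain ⟨ξ', hξ'⟩ := hy1
    have e : ξ = ξ' := SM_freq (NeZero.ne M) one_ne_zero hy hξ hξ'
    have h1 : ∀ w ∈ RH, τ w = 1 := by
      intro w hw
      have h2 := hξ' w hw
      rw [Nat.cast_one, one_mul, Nat.cast_one, one_mul, ← e] at h2
      rw [hτ, Pi.div_apply, h2, div_self']
    rw [Finset.sum_congr rfl fun h _ => by rw [h1 _ (lft_mem_RH h), Circle.coe_one, one_mul]]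
    rw [Finset.sum_const, Finset.card_univ, Fintype.card_prod, ZMod.card, nsmul_eq_mul, mul_one,
      Nat.cast_mul, ← pow_two, div_self (pow_ne_zero _ hM0)]
  · rw [indicator_of_notMem hy1]
    have h1M : τ 1 ^ M = 1 := by
      rw [← hτc.map_natMul M 1]
      exact hτM 1 (Subring.one_mem _)
    have hiM : τ iK ^ M = 1 := by
      rw [← hτc.map_natMul M iK]
      exact hτM iK iK_mem_RH
    have hne : τ 1 ≠ 1 ∨ τ iK ≠ 1 := by
      by_contra hcon
      push Not at hcon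
      obtain ⟨ha, hb⟩ := hcon
      apply hy1
      refine ⟨ξ, mem_SM_of hy hM nh_one (N := 0) hξ ?_ ?_⟩
      · have : τ 1 = 1 := ha
        rw [hτ, Pi.div_apply, div_eq_one] at this
        simpa using this
      · have : τ iK = 1 := hb
        rw [hτ, Pi.div_apply, div_eq_one] at this
        simpa using this
    have hl : ∀ h : AM M, (τ (lft h) : ℂ) = (τ 1 : ℂ) ^ h.1.val * (τ iK : ℂ) ^ h.2.val := by
      intro h
      have e1 : ((h.1.val : ℕ) : KG) = ((h.1.val : ℕ) : KG) * 1 := by rw [mul_one]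
      rw [lft, hτc, e1, hτc.map_natMul, hτc.map_natMul, Circle.coe_mul, Circle.coe_pow,
        Circle.coe_pow]
    have hsum : ∑ h : AM M, (1 : ℂ) * (τ (lft h) : ℂ) =
        (∑ a : ZMod M, (τ 1 : ℂ) ^ a.val) * ∑ b : ZMod M, (τ iK : ℂ) ^ b.val := by
      rw [Fintype.sum_prod_type, Finset.sum_mul]
      refine Finset.sum_congr rfl fun a _ => ?_
      rw [Finset.mul_sum]
      refine Finset.sum_congr rfl fun b _ => ?_
      rw [hl, one_mul]
    rw [hsum]
    rcases hne with h | h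
    · rw [sum_val_zero (α := (τ 1 : ℂ)), zero_mul, zero_div]
      · rw [← Circle.coe_pow, h1M, Circle.coe_one]
      · intro h2
        exact h (Circle.coe_eq_one.1 h2)
    · rw [sum_val_zero (α := (τ iK : ℂ)), mul_zero, zero_div]
      · rw [← Circle.coe_pow, hiM, Circle.coe_one]
      · intro h2
        exact h (Circle.coe_eq_one.1 h2)

section

variable {k : ℕ} {μ : Measure (KG → Fin k)} {ν : Fin k → Measure (KG → Circle)}

theorem shift_mp (hS : Spec k μ ν) (v : KG) :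
    MeasurePreserving (shift v : (KG → Fin k) → KG → Fin k) μ μ := by
  have h := hS.col.inv 1 v (by simp)
  have e : (fun (ω : KG → Fin k) (z : KG) => ω (1 * z + v)) = shift v := by
    funext ω z
    simp [shift]
  rwa [e] at h

theorem corr_two (hS : Spec k μ ν) {M M' : ℕ} (hM : NH M) (hM' : NH M') {i : Fin k}
    {G G' : (KG → Fin k) → ℝ} (hG : Lim μ M i G) (hG' : Lim μ M' i G') (u v : KG) :
    ((∫ ω, G (shift u ω) * G' (shift v ω) ∂μ : ℝ) : ℂ) =
      ∫ y in AA ∩ SM M ∩ SM M', (y (u - v) : ℂ) ∂(ν i) := by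
  rw [← lim_corr hS hM hM' hG hG' (u - v)]
  have hp := shift_mp hS v
  have h1 : Measurable fun ω : KG → Fin k => G (shift (u - v) ω) * G' ω :=
    (hG.meas.comp (shift_mp hS (u - v)).measurable).mul hG'.meas
  have h2 := integral_map (μ := μ) hp.measurable.aemeasurable
    (f := fun ω : KG → Fin k => G (shift (u - v) ω) * G' ω) h1.aestronglyMeasurable
  rw [hp.map_eq] at h2
  rw [h2]
  congr 1
  refine integral_congr_ae (Eventually.of_forall fun ω => ?_)
  show G (shift u ω) * G' (shift v ω) = G (shift (u - v) (shift v ω)) * G' (shift v ω)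
  have e : shift (u - v) (shift v ω) = shift u ω := by
    funext z
    simp only [shift]
    congr 1
    ring
  rw [e]

theorem int_mul [IsProbabilityMeasure μ] {f g : (KG → Fin k) → ℝ} (hf : Measurable f)
    (hg : Measurable g) (hf0 : ∀ ω, 0 ≤ f ω) (hf1 : ∀ ω, f ω ≤ 1) (hg0 : ∀ ω, 0 ≤ g ω)
    (hg1 : ∀ ω, g ω ≤ 1) : Integrable (fun ω => f ω * g ω) μ := by
  refine (integrable_const (1 : ℝ)).mono' (hf.mul hg).aestronglyMeasurable
    (Eventually.of_forall fun ω => ?_)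
  rw [Real.norm_of_nonneg (mul_nonneg (hf0 ω) (hg0 ω))]
  exact mul_le_one₀ (hf1 ω) (hg0 ω) (hg1 ω)

theorem integrable_eval {ρ : Measure (KG → Circle)} [IsFiniteMeasure ρ] (z : KG) :
    Integrable (fun y : KG → Circle => (y z : ℂ)) ρ := by
  refine (integrable_const (1 : ℝ)).mono' (measurable_eval z).aestronglyMeasurable
    (Eventually.of_forall fun y => ?_)
  rw [Circle.norm_coe]

theorem coe_sub {y : KG → Circle} (hy : IsChar y) (u v : KG) :
    (y (u - v) : ℂ) = (y u : ℂ) * (starRingEnd ℂ) (y v : ℂ) := by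
  rw [hy.map_sub, Circle.coe_div, div_eq_mul_inv, ← Circle.coe_inv, Circle.coe_inv_eq_conj]

/-- the first term -/
theorem first_term {ρ : Measure (KG → Circle)} [IsFiniteMeasure ρ] (hρ : ∀ᵐ y ∂ρ, IsChar y)
    (M : ℕ) [NeZero M] (K : ℕ) :
    (∑ h : AM M, ∑ h' : AM M, ∫ y, (y (zz K h - zz K h') : ℂ) ∂ρ) / (M : ℂ) ^ 4 =
      ∫ y, mm M K y * (starRingEnd ℂ) (mm M K y) ∂ρ := by
  have h1 : ∀ᵐ y ∂ρ, mm M K y * (starRingEnd ℂ) (mm M K y) =
      (∑ h : AM M, ∑ h' : AM M, (y (zz K h - zz K h') : ℂ)) / (M : ℂ) ^ 4 := by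
    filter_upwards [hρ] with y hy
    unfold mm
    rw [map_div₀, map_sum, map_pow, Complex.conj_natCast, div_mul_div_comm, Finset.sum_mul_sum]
    rw [← pow_add]
    congr 1
    refine Finset.sum_congr rfl fun h _ => Finset.sum_congr rfl fun h' _ => ?_
    rw [coe_sub hy]
  rw [integral_congr_ae h1, integral_div, integral_finsetSum]
  · congr 1
    refine Finset.sum_congr rfl fun h _ => ?_
    rw [integral_finsetSum]
    exact fun h' _ => integrable_eval _
  · exact fun h _ => integrable_finsetSum _ fun h' _ => integrable_eval _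

theorem second_term {ρ : Measure (KG → Circle)} [IsFiniteMeasure ρ] (M : ℕ) [NeZero M] (K : ℕ) :
    (∑ h : AM M, ∫ y, (y (zz K h) : ℂ) ∂ρ) / (M : ℂ) ^ 2 = ∫ y, mm M K y ∂ρ := by
  unfold mm
  rw [integral_div, integral_finsetSum]
  exact fun h _ => integrable_eval _

/-- the expansion of the square -/
theorem expand (hS : Spec k μ ν) {M : ℕ} [NeZero M] (hM : NH M) {i : Fin k}
    {G G1 : (KG → Fin k) → ℝ} (hG : Lim μ M i G) (hG1 : Lim μ 1 i G1) (K : ℕ) :
    ((∫ ω, (mean (fun h : AM M => G (shift (zz K h) ω)) - G1 ω) ^ 2 ∂μ : ℝ) : ℂ) =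
      (∫ y in AA ∩ SM M ∩ SM M, mm M K y * (starRingEnd ℂ) (mm M K y) ∂(ν i)) -
        2 * (∫ y in AA ∩ SM M ∩ SM 1, mm M K y ∂(ν i)) +
        ∫ y in AA ∩ SM 1 ∩ SM 1, (1 : ℂ) ∂(ν i) := by
  haveI := hS.col.prob
  haveI : IsFiniteMeasure (ν i) := (hS.nice i).fin
  have hM0 : (M : ℝ) ≠ 0 := Nat.cast_ne_zero.2 (NeZero.ne M)
  set a : AM M → (KG → Fin k) → ℝ := fun h ω => G (shift (zz K h) ω) with ha
  have ham : ∀ h, Measurable (a h) := fun h => hG.meas.comp (shift_mp hS (zz K h)).measurable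
  have ha0 : ∀ h ω, 0 ≤ a h ω := fun h ω => hG.nonneg _
  have ha1 : ∀ h ω, a h ω ≤ 1 := fun h ω => hG.le_one _
  have i1 : ∀ h h', Integrable (fun ω => a h ω * a h' ω) μ :=
    fun h h' => int_mul (ham h) (ham h') (ha0 h) (ha1 h) (ha0 h') (ha1 h')
  have i2 : ∀ h, Integrable (fun ω => a h ω * G1 ω) μ :=
    fun h => int_mul (ham h) hG1.meas (ha0 h) (ha1 h) hG1.nonneg hG1.le_one
  have i3 : Integrable (fun ω => G1 ω * G1 ω) μ :=
    int_mul hG1.meas hG1.meas hG1.nonneg hG1.le_one hG1.nonneg hG1.le_one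
  have e1 : ∀ ω, (mean (fun h : AM M => a h ω) - G1 ω) ^ 2 =
      (∑ h, ∑ h', a h ω * a h' ω) / (M : ℝ) ^ 4 - 2 * ((∑ h, a h ω * G1 ω) / (M : ℝ) ^ 2) +
        G1 ω * G1 ω := by
    intro ω
    unfold mean
    rw [← Finset.sum_mul_sum, ← Finset.sum_mul]
    field_simp
    ring
  have e2 : ∫ ω, (mean (fun h : AM M => a h ω) - G1 ω) ^ 2 ∂μ =
      (∑ h, ∑ h', ∫ ω, a h ω * a h' ω ∂μ) / (M : ℝ) ^ 4 -
        2 * ((∑ h, ∫ ω, a h ω * G1 ω ∂μ) / (M : ℝ) ^ 2) + ∫ ω, G1 ω * G1 ω ∂μ := by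
    rw [integral_congr_ae (Eventually.of_forall e1)]
    have j1 : Integrable (fun ω => (∑ h, ∑ h', a h ω * a h' ω) / (M : ℝ) ^ 4) μ :=
      (integrable_finsetSum _ fun h _ => integrable_finsetSum _ fun h' _ => i1 h h').div_const _
    have j2 : Integrable (fun ω => 2 * ((∑ h, a h ω * G1 ω) / (M : ℝ) ^ 2)) μ :=
      ((integrable_finsetSum _ fun h _ => i2 h).div_const _).const_mul _
    have j4 : Integrable (fun ω => (∑ h, ∑ h', a h ω * a h' ω) / (M : ℝ) ^ 4 -
        2 * ((∑ h, a h ω * G1 ω) / (M : ℝ) ^ 2)) μ := j1.sub j2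
    rw [integral_add j4 i3, integral_sub j1 j2, integral_div, integral_const_mul,
      integral_div, integral_finsetSum _ fun h _ => i2 h,
      integral_finsetSum _ fun h _ => integrable_finsetSum _ fun h' _ => i1 h h']
    have t : ∀ h, ∫ ω, ∑ h', a h ω * a h' ω ∂μ = ∑ h', ∫ ω, a h ω * a h' ω ∂μ :=
      fun h => integral_finsetSum _ fun h' _ => i1 h h'
    simp only [t]
  have hsh : ∀ ω : KG → Fin k, shift 0 ω = ω := by
    intro ω
    funext z
    simp [shift]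
  rw [e2]
  push_cast
  have t1 : (∑ h, ∑ h', ((∫ ω, a h ω * a h' ω ∂μ : ℝ) : ℂ)) =
      ∑ h : AM M, ∑ h' : AM M, ∫ y in AA ∩ SM M ∩ SM M, (y (zz K h - zz K h') : ℂ) ∂(ν i) :=
    Finset.sum_congr rfl fun h _ => Finset.sum_congr rfl fun h' _ =>
      corr_two hS hM hM hG hG (zz K h) (zz K h')
  have t2 : (∑ h, ((∫ ω, a h ω * G1 ω ∂μ : ℝ) : ℂ)) =
      ∑ h : AM M, ∫ y in AA ∩ SM M ∩ SM 1, (y (zz K h) : ℂ) ∂(ν i) := by
    refine Finset.sum_congr rfl fun h _ => ?_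
    have h1 := corr_two hS hM nh_one hG hG1 (zz K h) 0
    simp only [hsh, sub_zero] at h1
    exact h1
  have t3 : ((∫ ω, G1 ω * G1 ω ∂μ : ℝ) : ℂ) = ∫ y in AA ∩ SM 1 ∩ SM 1, (1 : ℂ) ∂(ν i) := by
    have h1 := corr_two hS nh_one nh_one hG1 hG1 0 0
    simp only [hsh, sub_zero] at h1
    rw [h1]
    refine integral_congr_ae ?_
    filter_upwards [ae_restrict_of_ae (hS.nice i).chr] with y hy
    rw [hy.map_zero, Circle.coe_one]
  rw [t1, t2, t3, first_term (ae_restrict_of_ae (hS.nice i).chr), second_term]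

end

end MeanL

open MeanL in
theorem mean_lim {k : ℕ} {μ : Measure (KG → Fin k)} {ν : Fin k → Measure (KG → Circle)}
    (hS : Spec k μ ν) {M : ℕ} [NeZero M] (hM : NH M) {i : Fin k} {G G1 : (KG → Fin k) → ℝ}
    (hG : Lim μ M i G) (hG1 : Lim μ 1 i G1) :
    Tendsto (fun K : ℕ => ∫ ω, (mean (fun h : AM M => G (shift (zz K h) ω)) - G1 ω) ^ 2 ∂μ) atTop
      (𝓝 0) := by
  haveI := hS.col.prob
  haveI : IsFiniteMeasure (ν i) := (hS.nice i).fin
  have hAA : MeasurableSet AA := measurableSet_AA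
  have hSM : ∀ m, MeasurableSet (SM m) := measurableSet_SM
  set χ : (KG → Circle) → ℂ := (SM 1).indicator fun _ => (1 : ℂ) with hχ
  -- the pointwise limits
  have hpt : ∀ S : Set (KG → Circle), MeasurableSet S → S ⊆ SM M →
      ∀ᵐ y ∂((ν i).restrict S), Tendsto (fun K => mm M K y) atTop (𝓝 (χ y)) := by
    intro S hSm hS1
    filter_upwards [ae_restrict_of_ae (hS.nice i).chr, ae_restrict_mem hSm] with y hy hyS
    exact mm_tendsto hM hy (hS1 hyS)
  have m1 : MeasurableSet (AA ∩ SM M ∩ SM M) := (hAA.inter (hSM M)).inter (hSM M)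
  have m2 : MeasurableSet (AA ∩ SM M ∩ SM 1) := (hAA.inter (hSM M)).inter (hSM 1)
  have l1 : Tendsto (fun K => ∫ y in AA ∩ SM M ∩ SM M, mm M K y * (starRingEnd ℂ) (mm M K y) ∂(ν i))
      atTop (𝓝 (∫ y in AA ∩ SM M ∩ SM M, χ y * (starRingEnd ℂ) (χ y) ∂(ν i))) := by
    refine tendsto_integral_of_dominated_convergence (fun _ => (1 : ℝ)) ?_ (integrable_const _) ?_ ?_
    · intro K
      exact ((measurable_mm M K).mul
        (Complex.continuous_conj.measurable.comp (measurable_mm M K))).aestronglyMeasurable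
    · intro K
      refine Eventually.of_forall fun y => ?_
      rw [norm_mul, RCLike.norm_conj]
      exact mul_le_one₀ (norm_mm_le M K y) (norm_nonneg _) (norm_mm_le M K y)
    · filter_upwards [hpt _ m1 inter_subset_right] with y hy
      exact hy.mul ((Complex.continuous_conj.tendsto _).comp hy)
  have l2 : Tendsto (fun K => ∫ y in AA ∩ SM M ∩ SM 1, mm M K y ∂(ν i))
      atTop (𝓝 (∫ y in AA ∩ SM M ∩ SM 1, χ y ∂(ν i))) := by
    refine tendsto_integral_of_dominated_convergence (fun _ => (1 : ℝ)) ?_ (integrable_const _) ?_ ?_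
    · exact fun K => (measurable_mm M K).aestronglyMeasurable
    · exact fun K => Eventually.of_forall fun y => norm_mm_le M K y
    · exact hpt _ m2 fun y hy => hy.1.2
  -- the limits are equal
  have hsub : SM 1 ⊆ SM M := fun y hy => SM_mono (one_dvd M) hy
  have eB : AA ∩ SM M ∩ SM 1 = AA ∩ SM 1 ∩ SM 1 := by
    ext y
    constructor
    · exact fun h => ⟨⟨h.1.1, h.2⟩, h.2⟩
    · exact fun h => ⟨⟨h.1.1, hsub h.2⟩, h.2⟩
  have v1 : ∫ y in AA ∩ SM M ∩ SM M, χ y * (starRingEnd ℂ) (χ y) ∂(ν i) =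
      ∫ y in AA ∩ SM 1 ∩ SM 1, (1 : ℂ) ∂(ν i) := by
    have h1 : (fun y => χ y * (starRingEnd ℂ) (χ y)) = (SM 1).indicator fun _ => (1 : ℂ) := by
      funext y
      by_cases hy : y ∈ SM 1
      · simp [hχ, hy]
      · simp [hχ, hy]
    rw [h1, setIntegral_indicator (hSM 1)]
    have h2 : AA ∩ SM M ∩ SM M ∩ SM 1 = AA ∩ SM 1 ∩ SM 1 := by
      rw [← eB]
      ext y
      constructor
      · exact fun h => ⟨h.1.1, h.2⟩
      · exact fun h => ⟨⟨h.1, h.1.2⟩, h.2⟩
    rw [h2]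
  have v2 : ∫ y in AA ∩ SM M ∩ SM 1, χ y ∂(ν i) = ∫ y in AA ∩ SM 1 ∩ SM 1, (1 : ℂ) ∂(ν i) := by
    rw [← eB]
    refine setIntegral_congr_fun m2 fun y hy => ?_
    exact indicator_of_mem hy.2 _
  rw [v1] at l1
  rw [v2] at l2
  have l3 := ((l1.sub (l2.const_mul 2)).add_const
    (∫ y in AA ∩ SM 1 ∩ SM 1, (1 : ℂ) ∂(ν i)))
  have l4 : Tendsto (fun K : ℕ => ((∫ ω, (mean (fun h : AM M => G (shift (zz K h) ω)) - G1 ω) ^ 2
      ∂μ : ℝ) : ℂ)) atTop (𝓝 ((0 : ℝ) : ℂ)) := by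
    have e : (∫ y in AA ∩ SM 1 ∩ SM 1, (1 : ℂ) ∂(ν i)) -
        2 * (∫ y in AA ∩ SM 1 ∩ SM 1, (1 : ℂ) ∂(ν i)) +
        (∫ y in AA ∩ SM 1 ∩ SM 1, (1 : ℂ) ∂(ν i)) = ((0 : ℝ) : ℂ) := by
      push_cast
      ring
    rw [e] at l3
    exact l3.congr fun K => (expand hS hM hG hG1 K).symm
  exact (Complex.continuous_re.tendsto _).comp l4

end Pool.Agent.MP_8b8716_co_QF
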