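import Mathlib
import Pool.Agent.Lib.MP_8b8716_co_HN.Basic
import Pool.Agent.Lib.MP_8b8716_co_HN.AAf
import Pool.Agent.Lib.MP_8b8716_co_QF.Defs
import Pool.Agent.Lib.MP_8b8716_co_QF.SMf

set_option autoImplicit false

/-!
# MP_8b8716_co, project QF: the functions `ψ ^ M`
-/

noncomputable section

namespace Pool.Agent.MP_8b8716_co_QF

open Complex MeasureTheory Filter Topology Set
open Pool.Agent.MP_8b8716_co_HN

/-! ### Evaluations -/

private theorem psi2_meas (c : KG) : Measurable fun y : KG → Circle => (y c : ℂ) := by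
  have h2 : Measurable fun u : Circle => (u : ℂ) :=
    (by fun_prop : Continuous fun u : Circle => (u : ℂ)).measurable
  exact h2.comp (measurable_pi_apply c)

private theorem psi2_int (ν : Measure (KG → Circle)) [IsFiniteMeasure ν] (c : KG) :
    Integrable (fun y : KG → Circle => (y c : ℂ)) ν :=
  Integrable.of_bound (psi2_meas c).aestronglyMeasurable 1
    (Eventually.of_forall fun y => (Circle.norm_coe (y c)).le)

theorem psi_unit {ν : Measure (KG → Circle)} (hν : Nice ν) {M : ℕ} {c : KG} (hc : c ≠ 0)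
    (h0 : ∫ y, (y c : ℂ) ∂ν = 0) :
    ‖∫ y in AA ∩ SM M, (y c : ℂ) ∂ν‖ ≤
      (ν (AA \ SM M)).toReal := by
  have := hν.fin
  have h1 := integral_add_compl measurableSet_AA (psi2_int ν c)
  rw [h0, hν.zero c hc, add_zero] at h1
  have h2 := integral_inter_add_sdiff (measurableSet_SM M) ((psi2_int ν c).integrableOn (s := AA))
  rw [h1] at h2
  have h3 : ∫ y in AA ∩ SM M, (y c : ℂ) ∂ν = -∫ y in AA \ SM M, (y c : ℂ) ∂ν :=
    eq_neg_of_add_eq_zero_left h2
  rw [h3, norm_neg]
  have h4 := norm_setIntegral_le_of_norm_le_const (μ := ν) (s := AA \ SM M) (C := 1)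
    (f := fun y : KG → Circle => (y c : ℂ)) (measure_lt_top _ _)
    (fun y _ => (Circle.norm_coe (y c)).le)
  rw [one_mul] at h4
  exact h4

/-! ### The tail -/

open scoped Classical in
private def psi2_prod (n : ℕ) : ℕ := ∏ j ∈ (Finset.range n).filter NH, j

private theorem psi2_NH (n : ℕ) : NH (psi2_prod n) := by
  classical
  unfold psi2_prod
  refine ⟨Finset.prod_ne_zero_iff.2 fun j hj => (Finset.mem_filter.1 hj).2.1, ?_⟩
  intro l hl hd
  obtain ⟨j, hj, hj1⟩ := (hl.prime.dvd_finsetProd_iff _).1 hd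
  exact (Finset.mem_filter.1 hj).2.2 l hl hj1

private theorem psi2_dvd {m n : ℕ} (h : m ≤ n) : psi2_prod m ∣ psi2_prod n := by
  classical
  unfold psi2_prod
  refine Finset.prod_dvd_prod_of_subset _ _ _ ?_
  exact Finset.filter_subset_filter _ (Finset.range_subset_range.2 h)

private theorem psi2_mem {M : ℕ} (h : NH M) : M ∣ psi2_prod (M + 1) := by
  classical
  unfold psi2_prod
  exact Finset.dvd_prod_of_mem _ (Finset.mem_filter.2 ⟨Finset.mem_range.2 (by omega), h⟩)

theorem psi_tail {k : ℕ} {ν : Fin k → Measure (KG → Circle)} (hν : ∀ i, Nice (ν i)) {ε : ℝ}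
    (hε : 0 < ε) : ∃ M, NH M ∧ ∀ i, (ν i (AA \ SM M)).toReal < ε := by
  have h1 : ∀ i, ∀ᶠ n : ℕ in atTop, (ν i (AA \ SM (psi2_prod n))).toReal < ε := by
    intro i
    have := (hν i).fin
    have hanti : Antitone fun n : ℕ => AA \ SM (psi2_prod n) := by
      intro m n hmn y hy
      exact ⟨hy.1, fun h => hy.2 (SM_mono (psi2_dvd hmn) h)⟩
    have h2 := tendsto_measure_iInter_atTop (μ := ν i)
      (fun n : ℕ => (measurableSet_AA.diff (measurableSet_SM (psi2_prod n))).nullMeasurableSet)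
      hanti ⟨0, measure_ne_top _ _⟩
    have h3 : ν i (⋂ n : ℕ, AA \ SM (psi2_prod n)) = 0 := by
      rw [← nonpos_iff_eq_zero]
      refine le_trans (measure_mono ?_) (ae_iff.1 (hν i).str).le
      intro y hy
      rw [Set.mem_iInter] at hy
      intro h4
      obtain ⟨M, hM, hM1⟩ := h4 (hy 0).1
      exact (hy (M + 1)).2 (SM_mono (psi2_mem hM) hM1)
    rw [h3] at h2
    have h5 : Tendsto (fun n : ℕ => (ν i (AA \ SM (psi2_prod n))).toReal) atTop (𝓝 0) := by
      have := (ENNReal.tendsto_toReal ENNReal.zero_ne_top).comp h2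
      rw [ENNReal.toReal_zero] at this
      exact this
    exact h5.eventually (gt_mem_nhds hε)
  obtain ⟨n, hn⟩ := (eventually_all.2 h1).exists
  exact ⟨_, psi2_NH n, hn⟩

/-! ### Continuity -/

theorem psi_cont {ν : Measure (KG → Circle)} (hν : Nice ν) {M : ℕ} (hM : NH M) {ε : ℝ}
    (hε : 0 < ε) : ∃ δ > 0, ∀ z : KG, ∀ v ∈ RH, ‖((M : KG) * v : KG)‖ < δ →
      ‖(∫ y in AA ∩ SM M, (y (z + M * v) : ℂ) ∂ν) -
        ∫ y in AA ∩ SM M, (y z : ℂ) ∂ν‖ < ε := by
  have hfin := hν.fin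
  set S : Set (KG → Circle) := AA ∩ SM M with hS
  have hSm : MeasurableSet S := measurableSet_AA.inter (measurableSet_SM M)
  have key : ∀ z v : KG, ‖(∫ y in S, (y (z + M * v) : ℂ) ∂ν) - ∫ y in S, (y z : ℂ) ∂ν‖ ≤
      ∫ y in S, ‖(y (M * v) : ℂ) - 1‖ ∂ν := by
    intro z v
    rw [← integral_sub (psi2_int _ _) (psi2_int _ _)]
    refine (norm_integral_le_integral_norm _).trans (le_of_eq ?_)
    refine integral_congr_ae ?_
    have h1 : ∀ᵐ y ∂(ν.restrict S), IsChar y := ae_restrict_of_ae hν.chr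
    filter_upwards [h1] with y hy
    rw [hy, Circle.coe_mul]
    have h2 : (y z : ℂ) * (y (M * v) : ℂ) - y z = y z * ((y (M * v) : ℂ) - 1) := by ring
    rw [h2, norm_mul, Circle.norm_coe, one_mul]
  by_contra hcon
  push Not at hcon
  have h1 : ∀ n : ℕ, ∃ z : KG, ∃ v ∈ RH, ‖((M : KG) * v : KG)‖ < 1 / (n + 1 : ℝ) ∧
      ε ≤ ‖(∫ y in S, (y (z + M * v) : ℂ) ∂ν) - ∫ y in S, (y z : ℂ) ∂ν‖ := by
    intro n
    exact hcon (1 / (n + 1 : ℝ)) (by positivity)
  choose z v hv hv1 hv2 using h1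
  have h2 : Tendsto (fun n : ℕ => ∫ y in S, ‖(y (M * v n) : ℂ) - 1‖ ∂ν) atTop
      (𝓝 (∫ y in S, (0 : ℝ) ∂ν)) := by
    refine tendsto_integral_of_dominated_convergence (fun _ => 2) ?_ (integrable_const _) ?_ ?_
    · intro n
      exact (((psi2_meas _).sub_const 1).norm).aestronglyMeasurable
    · intro n
      refine Eventually.of_forall fun y => ?_
      rw [norm_norm]
      refine (norm_sub_le _ _).trans ?_
      rw [Circle.norm_coe, norm_one]
      norm_num
    · rw [ae_restrict_iff' hSm]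
      refine Eventually.of_forall fun y hy => ?_
      obtain ⟨ξ, hξ⟩ := hy.2
      have h3 : ∀ n, ‖(y (M * v n) : ℂ) - 1‖ ≤ 2 * Real.pi * ‖ξ‖ * (1 / (n + 1 : ℝ)) := by
        intro n
        rw [hξ _ (hv n)]
        have h4 : el (M * ξ) (v n) = el ξ (((M : KG) * v n : KG) : ℂ) := by
          rw [Subfield.coe_mul, el_mul, mul_comm ξ]
          simp
        rw [h4]
        refine (norm_el_sub_one_le _ _).trans ?_
        refine mul_le_mul_of_nonneg_left (hv1 n).le (by positivity)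
      have h5 : Tendsto (fun n : ℕ => 2 * Real.pi * ‖ξ‖ * (1 / (n + 1 : ℝ))) atTop (𝓝 0) := by
        have := (tendsto_one_div_add_atTop_nhds_zero_nat (𝕜 := ℝ)).const_mul (2 * Real.pi * ‖ξ‖)
        rwa [mul_zero] at this
      exact squeeze_zero (fun n => norm_nonneg _) h3 h5
  rw [integral_zero] at h2
  have h3 : ε ≤ 0 := ge_of_tendsto' h2 fun n => (hv2 n).trans (key _ _)
  linarith

end Pool.Agent.MP_8b8716_co_QF
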