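import Mathlib
import Pool.Agent.Lib.MP_8b8716_co_QF.RHf
import Pool.Agent.Lib.MP_8b8716_co_QF.Circ
import Pool.Agent.Lib.MP_8b8716_co_QF.Gap
import Pool.Agent.Lib.MP_8b8716_co_QF.ExLim
import Pool.Agent.Lib.MP_8b8716_co_QF.LimC
import Pool.Agent.Lib.MP_8b8716_co_QF.Psi2
import Pool.Agent.Lib.MP_8b8716_co_QF.MeanL

set_option autoImplicit false

/-!
# MP_8b8716_co, project QF, module Key: the mixing inequality for the limits
-/

noncomputable section

namespace Pool.Agent.MP_8b8716_co_QF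

open Complex MeasureTheory Filter Topology Set
open Pool.Agent.MP_8b8716_co_HN

namespace Key

variable {k : ℕ}

theorem shift_shift (b z : KG) (ω : KG → Fin k) : shift b (shift z ω) = shift (b + z) ω := by
  funext w
  simp only [shift]
  congr 1
  ring

theorem mp_shift {μ : Measure (KG → Fin k)} (hμ : RandCol KG k μ) (z : KG) :
    MeasurePreserving (shift z : (KG → Fin k) → (KG → Fin k)) μ μ := by
  have h := hμ.inv 1 z (by simp)
  have h2 : (fun (ω : KG → Fin k) (w : KG) => ω (1 * w + z)) = shift z := by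
    funext ω w
    simp [shift]
  rwa [h2] at h

theorem abs_le_add_sq {x η : ℝ} (hη : 0 < η) : |x| ≤ η + x ^ 2 / η := by
  rcases le_or_gt |x| η with h | h
  · have : 0 ≤ x ^ 2 / η := by positivity
    linarith
  · have h1 : |x| ≤ x ^ 2 / η := by
      rw [le_div_iff₀ hη, ← sq_abs x]
      nlinarith [abs_nonneg x]
    linarith

/-- the positive part of `FF` -/
def PP (a b : ℝ) : ℝ := max 0 (FF a b)

theorem PP_nonneg (a b : ℝ) : 0 ≤ PP a b := le_max_left _ _

theorem FF_lip {a b a' b' : ℝ} (ha : 0 ≤ a ∧ a ≤ 1) (hb : 0 ≤ b ∧ b ≤ 1) (ha' : 0 ≤ a' ∧ a' ≤ 1)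
    (hb' : 0 ≤ b' ∧ b' ≤ 1) : |FF a b - FF a' b'| ≤ 2 * (|a - a'| + |b - b'|) := by
  have h : FF a b - FF a' b' = (a - a') * (b - lam / 2 * (1 - a - a')) +
      (b - b') * (a' - lam / 2 * (1 - b - b')) := by
    unfold FF
    ring
  rw [h]
  have e1 : |b - lam / 2 * (1 - a - a')| ≤ 2 := by
    unfold lam
    rw [abs_le]
    constructor <;> nlinarith [ha.1, ha.2, hb.1, hb.2, ha'.1, ha'.2]
  have e2 : |a' - lam / 2 * (1 - b - b')| ≤ 2 := by
    unfold lam
    rw [abs_le]
    constructor <;> nlinarith [ha'.1, ha'.2, hb.1, hb.2, hb'.1, hb'.2]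
  calc _ ≤ |(a - a') * (b - lam / 2 * (1 - a - a'))| + |(b - b') * (a' - lam / 2 * (1 - b - b'))| :=
        abs_add_le _ _
    _ = |a - a'| * |b - lam / 2 * (1 - a - a')| + |b - b'| * |a' - lam / 2 * (1 - b - b')| := by
        rw [abs_mul, abs_mul]
    _ ≤ |a - a'| * 2 + |b - b'| * 2 := by gcongr
    _ = _ := by ring

theorem PP_lip {a b a' b' : ℝ} (ha : 0 ≤ a ∧ a ≤ 1) (hb : 0 ≤ b ∧ b ≤ 1) (ha' : 0 ≤ a' ∧ a' ≤ 1)
    (hb' : 0 ≤ b' ∧ b' ≤ 1) : PP a b ≤ PP a' b' + 2 * (|a - a'| + |b - b'|) := by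
  have h := FF_lip ha hb ha' hb'
  have h1 := (abs_le.1 h).2
  unfold PP
  have h2 : 0 ≤ 2 * (|a - a'| + |b - b'|) := by positivity
  rcases max_cases 0 (FF a b) with h3 | h3
  · rw [h3.1]
    have := le_max_left 0 (FF a' b')
    linarith
  · rw [h3.1]
    have := le_max_right 0 (FF a' b')
    linarith

theorem continuous_PP : Continuous fun p : ℝ × ℝ => PP p.1 p.2 := by
  unfold PP FF
  fun_prop

theorem PP_le {a b : ℝ} (ha : 0 ≤ a ∧ a ≤ 1) (hb : 0 ≤ b ∧ b ≤ 1) : PP a b ≤ 4 := by
  have h := PP_lip ha hb (a' := 0) (b' := 0) (by norm_num) (by norm_num)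
  have h0 : PP 0 0 = 0 := by
    unfold PP FF
    norm_num
  rw [h0] at h
  have h1 : |a - 0| ≤ 1 := by rw [sub_zero, abs_of_nonneg ha.1]; exact ha.2
  have h2 : |b - 0| ≤ 1 := by rw [sub_zero, abs_of_nonneg hb.1]; exact hb.2
  linarith

theorem mean_mem {M : ℕ} [NeZero M] {f : AM M → ℝ} (hf : ∀ h, 0 ≤ f h ∧ f h ≤ 1) :
    0 ≤ mean f ∧ mean f ≤ 1 := by
  have hM : (0 : ℝ) < (M : ℝ) ^ 2 := by
    have := NeZero.ne M
    positivity
  have hc : (Finset.univ : Finset (AM M)).card = M ^ 2 := by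
    rw [Finset.card_univ, Fintype.card_prod, ZMod.card, pow_two]
  unfold mean
  constructor
  · exact div_nonneg (Finset.sum_nonneg fun h _ => (hf h).1) hM.le
  · rw [div_le_one hM]
    calc ∑ h, f h ≤ ∑ _h : AM M, (1 : ℝ) := Finset.sum_le_sum fun h _ => (hf h).2
      _ = (M : ℝ) ^ 2 := by
        rw [Finset.sum_const, hc]
        simp

theorem mean_sub {M : ℕ} [NeZero M] (f : AM M → ℝ) (u : AM M) :
    mean (fun h => f (h - u)) = mean f := by
  unfold mean
  congr 1
  exact Fintype.sum_equiv (Equiv.subRight u) _ _ fun h => rfl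

/-- the class computation -/
theorem class_eq {M : ℕ} [NeZero M] (hM : NH M) (K : ℕ) {c c' : KG} {h u u0 : AM M}
    (h0 : ∃ v ∈ RH, c - lft u0 = M * v) (h1 : ∃ v ∈ RH, c' - lft u = M * v) :
    ∃ v ∈ RH, zz K (h + u - u0) + c - zz K h = c' + M * v := by
  obtain ⟨v0, hv0, e0⟩ := h0
  obtain ⟨v1, hv1, e1⟩ := h1
  obtain ⟨v2, hv2, e2⟩ := lft_add (h + u - u0) u0
  obtain ⟨v3, hv3, e3⟩ := lft_add h u
  obtain ⟨v4, hv4, e4⟩ := zz_sub_lft hM K (h + u - u0)
  obtain ⟨v5, hv5, e5⟩ := zz_sub_lft hM K h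
  rw [sub_add_cancel] at e2
  refine ⟨v4 + v0 - v5 - v1 - v2 + v3, ?_, ?_⟩
  · exact RH.add_mem (RH.sub_mem (RH.sub_mem (RH.sub_mem (RH.add_mem hv4 hv0) hv5) hv1) hv2) hv3
  · linear_combination e4 + e0 - e5 - e1 - e2 + e3

theorem corr_unit {μ : Measure (KG → Fin k)} {ν : Fin k → Measure (KG → Circle)}
    (hS : Spec k μ ν) (i : Fin k) {c : KG} (hc : ‖(c : ℂ)‖ = 1) : ∫ y, (y c : ℂ) ∂(ν i) = 0 := by
  rw [← hS.corr i c]
  have h : ∀ᵐ ω ∂μ, ind i (shift c ω) * ind i ω = 0 := by
    have h1 : ∀ᵐ ω ∂μ, ω c ≠ ω 0 := by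
      have := hS.col.proper c 0 (by simpa using hc)
      rw [ae_iff]
      simpa using this
    filter_upwards [h1] with ω hω
    simp only [ind, shift, zero_add]
    by_cases h2 : ω c = i
    · have h3 : ω 0 ≠ i := fun h3 => hω (h2.trans h3.symm)
      simp [h3]
    · simp [h2]
  rw [integral_congr_ae h]
  simp

end Key

open Key in
theorem key {k : ℕ} {μ : Measure (KG → Fin k)} {ν : Fin k → Measure (KG → Circle)}
    (hS : Spec k μ ν) {i : Fin k} {G1 : (KG → Fin k) → ℝ} (hG1 : Lim μ 1 i G1) {c : KG}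
    (hc : ‖(c : ℂ)‖ = 1) : ∀ᵐ ω ∂μ, FF (G1 (shift c ω)) (G1 ω) ≤ 0 := by
  have := hS.col.prob
  have hmp := mp_shift hS.col
  have hG1' : ∀ ω, 0 ≤ G1 ω ∧ G1 ω ≤ 1 := fun ω => ⟨hG1.nonneg ω, hG1.le_one ω⟩
  -- integrability
  have hint : ∀ F1 F2 : (KG → Fin k) → ℝ, Measurable F1 → Measurable F2 →
      (∀ ω, 0 ≤ F1 ω ∧ F1 ω ≤ 1) → (∀ ω, 0 ≤ F2 ω ∧ F2 ω ≤ 1) →
      Integrable (fun ω => PP (F1 ω) (F2 ω)) μ := by
    intro F1 F2 m1 m2 b1 b2
    refine Integrable.of_bound (C := 4)
      ((continuous_PP.measurable.comp (m1.prodMk m2)).aestronglyMeasurable) ?_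
    refine Eventually.of_forall fun ω => ?_
    rw [Real.norm_of_nonneg (PP_nonneg _ _)]
    exact PP_le (b1 ω) (b2 ω)
  have hintA : ∀ F1 F2 : (KG → Fin k) → ℝ, Measurable F1 → Measurable F2 →
      (∀ ω, 0 ≤ F1 ω ∧ F1 ω ≤ 1) → (∀ ω, 0 ≤ F2 ω ∧ F2 ω ≤ 1) →
      Integrable (fun ω => (F1 ω - F2 ω) ^ 2) μ := by
    intro F1 F2 m1 m2 b1 b2
    refine Integrable.of_bound (C := 1) (((m1.sub m2).pow_const 2).aestronglyMeasurable) ?_
    refine Eventually.of_forall fun ω => ?_
    rw [Real.norm_of_nonneg (sq_nonneg _)]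
    nlinarith [b1 ω, b2 ω, (b1 ω).1, (b1 ω).2, (b2 ω).1, (b2 ω).2]
  have hintB : ∀ F1 F2 : (KG → Fin k) → ℝ, Measurable F1 → Measurable F2 →
      (∀ ω, 0 ≤ F1 ω ∧ F1 ω ≤ 1) → (∀ ω, 0 ≤ F2 ω ∧ F2 ω ≤ 1) →
      Integrable (fun ω => |F1 ω - F2 ω|) μ := by
    intro F1 F2 m1 m2 b1 b2
    refine Integrable.of_bound (C := 1) ((m1.sub m2).abs.aestronglyMeasurable) ?_
    refine Eventually.of_forall fun ω => ?_
    rw [Real.norm_of_nonneg (abs_nonneg _), abs_le]
    constructor <;> linarith [(b1 ω).1, (b1 ω).2, (b2 ω).1, (b2 ω).2]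
  have iG : Integrable (fun ω => PP (G1 (shift c ω)) (G1 ω)) μ :=
    hint (fun ω => G1 (shift c ω)) G1 (hG1.meas.comp (hmp c).measurable) hG1.meas
      (fun ω => hG1' _) hG1'
  -- the main estimate
  have main : ∀ ε > 0, ∫ ω, PP (G1 (shift c ω)) (G1 ω) ∂μ ≤ 4 * ε := by
    intro ε hε
    obtain ⟨M, hM, htail⟩ := psi_tail hS.nice hε
    have : NeZero M := ⟨hM.1⟩
    obtain ⟨G, hG⟩ := exists_lim hS hM i
    have hG' : ∀ ω, 0 ≤ G ω ∧ G ω ≤ 1 := fun ω => ⟨hG.nonneg ω, hG.le_one ω⟩
    set A : ℕ → (KG → Fin k) → ℝ := fun K ω => mean (fun h : AM M => G (shift (zz K h) ω)) with hA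
    have hA1 : ∀ K ω, 0 ≤ A K ω ∧ A K ω ≤ 1 := fun K ω => mean_mem fun h => hG' _
    have hAm : ∀ K, Measurable (A K) := by
      intro K
      simp only [hA, mean]
      exact (Finset.measurable_sum _ fun h _ => hG.meas.comp (hmp _).measurable).div_const _
    have hlim := mean_lim hS hM hG hG1
    obtain ⟨u0, hu0, hcu0⟩ := unit_class hM c hc
    obtain ⟨δ, hδ, hcont⟩ := psi_cont (hS.nice i) hM hε
    -- the bound for one pair
    have hpair : ∀ K : ℕ, 4 * (M : ℝ) / 2 ^ K < δ / 2 → ∀ h : AM M, ∀ u ∈ UM M,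
        ∫ ω, G (shift (zz K (h + u - u0)) (shift c ω)) * G (shift (zz K h) ω) ∂μ ≤ 2 * ε := by
      intro K hK h u hu
      obtain ⟨c', hc', hcc, hcl⟩ := approx hM hu hc (half_pos hδ)
      obtain ⟨v, hv, hzv⟩ := class_eq hM K (h := h) hcu0 hcl
      have e1 : ∫ ω, G (shift (zz K (h + u - u0)) (shift c ω)) * G (shift (zz K h) ω) ∂μ =
          ∫ ω, G (shift (c' + M * v) ω) * G ω ∂μ := by
        have e2 : ∫ ω, G (shift (c' + M * v) ω) * G ω ∂μ =
            ∫ ω, (fun ω' => G (shift (c' + M * v) ω') * G ω') (shift (zz K h) ω) ∂μ := by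
          rw [← (hmp (zz K h)).map_eq]
          rw [integral_map (hmp _).measurable.aemeasurable]
          · rw [(hmp (zz K h)).map_eq]
          · exact ((hG.meas.comp (hmp _).measurable).mul hG.meas).aestronglyMeasurable
        rw [e2]
        refine integral_congr_ae (Eventually.of_forall fun ω => ?_)
        simp only [shift_shift]
        rw [← hzv]
        congr 3
        ring
      have e3 := lim_corr hS hM hM hG hG (c' + M * v)
      have e4 : AA ∩ SM M ∩ SM M = AA ∩ SM M := by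
        rw [inter_assoc, inter_self]
      rw [e4] at e3
      have e5 := hcont c' v hv ?_
      · have e6 := psi_unit (M := M) (hS.nice i) (c := c') (by
          rintro rfl
          simp at hc') (corr_unit hS i hc')
        have e7 := htail i
        rw [e1]
        have e8 : ‖((∫ ω, G (shift (c' + M * v) ω) * G ω ∂μ : ℝ) : ℂ)‖ ≤ 2 * ε := by
          rw [e3]
          calc _ = ‖((∫ y in AA ∩ SM M, (y (c' + M * v) : ℂ) ∂(ν i)) -
                ∫ y in AA ∩ SM M, (y c' : ℂ) ∂(ν i)) + ∫ y in AA ∩ SM M, (y c' : ℂ) ∂(ν i)‖ := by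
                rw [sub_add_cancel]
            _ ≤ _ := (norm_add_le _ _).trans (by linarith)
        rw [Complex.norm_real] at e8
        exact (le_abs_self _).trans e8
      · have e6 : ((M : KG) * v : KG) = zz K (h + u - u0) + (c - c') - zz K h := by
          linear_combination -hzv
        have e7 : ‖(((M : KG) * v : KG) : ℂ)‖ ≤ 2 * M / 2 ^ K + ‖(c' : ℂ) - c‖ + 2 * M / 2 ^ K := by
          rw [e6]
          have e8 := norm_zz_le hM K (h + u - u0)
          have e9 := norm_zz_le hM K h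
          rw [Subfield.coe_sub, Subfield.coe_add, Subfield.coe_sub]
          calc _ ≤ ‖((zz K (h + u - u0) : KG) : ℂ) + ((c : ℂ) - c')‖ + ‖((zz K h : KG) : ℂ)‖ :=
                norm_sub_le _ _
            _ ≤ (‖((zz K (h + u - u0) : KG) : ℂ)‖ + ‖(c : ℂ) - c'‖) + ‖((zz K h : KG) : ℂ)‖ := by
                gcongr
                exact norm_add_le _ _
            _ ≤ _ := by
                rw [norm_sub_rev (c : ℂ) c']
                gcongr
        have e10 : 2 * (M : ℝ) / 2 ^ K + 2 * M / 2 ^ K = 4 * M / 2 ^ K := by ring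
        have e11 : ‖((M : KG) * v : KG)‖ = ‖(((M : KG) * v : KG) : ℂ)‖ := rfl
        rw [e11]
        linarith
    -- the integral of the positive part of `FF (A K ∘ shift c) (A K)`
    have hcross : ∀ K : ℕ, 4 * (M : ℝ) / 2 ^ K < δ / 2 →
        ∫ ω, PP (A K (shift c ω)) (A K ω) ∂μ ≤ 2 * ε := by
      intro K hK
      have h1 : ∀ ω, PP (A K (shift c ω)) (A K ω) ≤
          cross (fun h : AM M => G (shift (zz K (h - u0)) (shift c ω)))
            (fun h : AM M => G (shift (zz K h) ω)) := by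
        intro ω
        have h2 := mixing hM (fun h : AM M => G (shift (zz K (h - u0)) (shift c ω)))
            (fun h : AM M => G (shift (zz K h) ω)) (fun h => hG' _) (fun h => hG' _)
        rw [mean_sub (fun h : AM M => G (shift (zz K h) (shift c ω))) u0] at h2
        refine max_le ?_ h2
        unfold cross
        refine div_nonneg (Finset.sum_nonneg fun h _ => Finset.sum_nonneg fun u _ => ?_)
          (by positivity)
        exact mul_nonneg (hG' _).1 (hG' _).1
      have hgi : ∀ h u : AM M, Integrable (fun ω => G (shift (zz K (h + u - u0)) (shift c ω)) *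
          G (shift (zz K h) ω)) μ := by
        intro h u
        refine Integrable.of_bound (C := 1) ?_ (Eventually.of_forall fun ω => ?_)
        · exact (((hG.meas.comp (hmp _).measurable).comp (hmp _).measurable).mul
            (hG.meas.comp (hmp _).measurable)).aestronglyMeasurable
        · have a1 := hG' (shift (zz K (h + u - u0)) (shift c ω))
          have a2 := hG' (shift (zz K h) ω)
          rw [Real.norm_of_nonneg (mul_nonneg a1.1 a2.1)]
          exact mul_le_one₀ a1.2 a2.1 a2.2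
      calc ∫ ω, PP (A K (shift c ω)) (A K ω) ∂μ
          ≤ ∫ ω, cross (fun h : AM M => G (shift (zz K (h - u0)) (shift c ω)))
            (fun h : AM M => G (shift (zz K h) ω)) ∂μ := by
            refine integral_mono (hint _ _ ((hAm K).comp (hmp c).measurable) (hAm K)
              (fun ω => hA1 K _) (hA1 K)) ?_ h1
            unfold cross
            exact (integrable_finsetSum _ fun h _ => integrable_finsetSum _ fun u _ =>
              hgi h u).div_const _
        _ = (∑ h : AM M, ∑ u ∈ UM M, ∫ ω, G (shift (zz K (h + u - u0)) (shift c ω)) *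
              G (shift (zz K h) ω) ∂μ) / ((M : ℝ) ^ 2 * (UM M).card) := by
            unfold cross
            rw [integral_div]
            congr 1
            rw [integral_finsetSum _ fun h _ => integrable_finsetSum _ fun u _ => hgi h u]
            refine Finset.sum_congr rfl fun h _ => ?_
            rw [integral_finsetSum _ fun u _ => hgi h u]
        _ ≤ 2 * ε := by
            refine div_le_of_le_mul₀ (by positivity) (by positivity) ?_
            calc _ ≤ ∑ _h : AM M, ∑ _u ∈ UM M, 2 * ε :=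
                  Finset.sum_le_sum fun h _ => Finset.sum_le_sum fun u hu => hpair K hK h u hu
              _ = 2 * ε * ((M : ℝ) ^ 2 * (UM M).card) := by
                rw [Finset.sum_const, Finset.sum_const, Finset.card_univ, Fintype.card_prod,
                  ZMod.card]
                simp only [nsmul_eq_mul]
                push_cast
                ring
    -- the limit K to infinity
    have hK1 : ∀ᶠ K : ℕ in atTop, 4 * (M : ℝ) / 2 ^ K < δ / 2 := by
      have : Tendsto (fun K : ℕ => 4 * (M : ℝ) / 2 ^ K) atTop (𝓝 0) :=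
        tendsto_const_nhds.div_atTop (tendsto_pow_atTop_atTop_of_one_lt one_lt_two)
      exact this.eventually (gt_mem_nhds (half_pos hδ))
    set η : ℝ := ε / 8 with hη
    have hη0 : 0 < η := by positivity
    have hK2 : ∀ᶠ K : ℕ in atTop, ∫ ω, (A K ω - G1 ω) ^ 2 ∂μ < η * η :=
      hlim.eventually (gt_mem_nhds (by positivity))
    obtain ⟨K, hK, hK'⟩ := (hK1.and hK2).exists
    have hdiff : ∫ ω, |G1 ω - A K ω| ∂μ ≤ 2 * η := by
      calc ∫ ω, |G1 ω - A K ω| ∂μ ≤ ∫ ω, (η + (A K ω - G1 ω) ^ 2 / η) ∂μ := by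
            refine integral_mono (hintB _ _ hG1.meas (hAm K) hG1' (hA1 K)) ?_ fun ω => ?_
            · exact (integrable_const _).add
                ((hintA _ _ (hAm K) hG1.meas (hA1 K) hG1').div_const _)
            · have := abs_le_add_sq (x := A K ω - G1 ω) hη0
              rwa [abs_sub_comm] at this
        _ = η + (∫ ω, (A K ω - G1 ω) ^ 2 ∂μ) / η := by
            have e1 := integral_add (μ := μ) (integrable_const η)
              ((hintA _ _ (hAm K) hG1.meas (hA1 K) hG1').div_const η)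
            rw [integral_const, integral_div] at e1
            simpa using e1
        _ ≤ 2 * η := by
            have : (∫ ω, (A K ω - G1 ω) ^ 2 ∂μ) / η ≤ η := by
              rw [div_le_iff₀ hη0]
              exact hK'.le
            linarith
    have hdiff2 : ∫ ω, |G1 (shift c ω) - A K (shift c ω)| ∂μ ≤ 2 * η := by
      have e : ∫ ω, |G1 (shift c ω) - A K (shift c ω)| ∂μ = ∫ ω, |G1 ω - A K ω| ∂μ := by
        conv_rhs => rw [← (hmp c).map_eq]
        rw [integral_map (hmp c).measurable.aemeasurable]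
        exact ((hG1.meas.sub (hAm K)).abs).aestronglyMeasurable
      rw [e]
      exact hdiff
    have iP : Integrable (fun ω => PP (A K (shift c ω)) (A K ω)) μ :=
      hint (fun ω => A K (shift c ω)) (A K) ((hAm K).comp (hmp c).measurable) (hAm K)
        (fun ω => hA1 K _) (hA1 K)
    have iD1 : Integrable (fun ω => |G1 (shift c ω) - A K (shift c ω)|) μ :=
      hintB (fun ω => G1 (shift c ω)) (fun ω => A K (shift c ω))
        (hG1.meas.comp (hmp c).measurable) ((hAm K).comp (hmp c).measurable)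
        (fun ω => hG1' _) (fun ω => hA1 K _)
    have iD2 : Integrable (fun ω => |G1 ω - A K ω|) μ := hintB _ _ hG1.meas (hAm K) hG1' (hA1 K)
    calc ∫ ω, PP (G1 (shift c ω)) (G1 ω) ∂μ
        ≤ ∫ ω, (PP (A K (shift c ω)) (A K ω) +
            2 * (|G1 (shift c ω) - A K (shift c ω)| + |G1 ω - A K ω|)) ∂μ := by
          refine integral_mono iG (iP.add ((iD1.add iD2).const_mul 2)) fun ω => ?_
          exact PP_lip (hG1' _) (hG1' _) (hA1 K _) (hA1 K _)
      _ = ∫ ω, PP (A K (shift c ω)) (A K ω) ∂μ +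
            2 * (∫ ω, |G1 (shift c ω) - A K (shift c ω)| ∂μ + ∫ ω, |G1 ω - A K ω| ∂μ) := by
          rw [← integral_add iD1 iD2, ← integral_const_mul, ← integral_add iP]
          exact (iD1.add iD2).const_mul 2
      _ ≤ 4 * ε := by
          have := hcross K hK
          linarith
  -- conclusion
  have h0 : ∫ ω, PP (G1 (shift c ω)) (G1 ω) ∂μ = 0 := by
    refine le_antisymm (le_of_forall_pos_le_add fun ε hε => ?_)
      (integral_nonneg fun ω => PP_nonneg _ _)
    have := main (ε / 4) (by positivity)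
    linarith
  rw [integral_eq_zero_iff_of_nonneg (fun ω => PP_nonneg _ _) iG] at h0
  filter_upwards [h0] with ω hω
  have h1 : FF (G1 (shift c ω)) (G1 ω) ≤ PP (G1 (shift c ω)) (G1 ω) := le_max_right _ _
  have h2 : PP (G1 (shift c ω)) (G1 ω) = 0 := hω
  linarith

end Pool.Agent.MP_8b8716_co_QF
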