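import Mathlib
import Pool.Agent.Lib.MP_8b8716_co_QF.Defs

set_option autoImplicit false

/-!
# MP_8b8716_co, project QF: points of the unit circle with large denominators
-/

noncomputable section

namespace Pool.Agent.MP_8b8716_co_QF

open Complex MeasureTheory Filter Topology Set
open Pool.Agent.MP_8b8716_co_HN

namespace Pts

theorem val_neg {l : ℕ} (hl : l.Prime) {k : ℕ} {m : ℤ} {n : ℕ} (hn : n ≠ 0) (h1 : l ^ k ∣ n)
    (h2 : ¬ ((l ^ k : ℕ) : ℤ) ∣ m) : padicValRat l ((m : ℚ) / (n : ℚ)) < 0 := by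
  have : Fact l.Prime := ⟨hl⟩
  have hm : m ≠ 0 := by
    rintro rfl
    exact h2 (dvd_zero _)
  have hm' : (m : ℚ) ≠ 0 := by exact_mod_cast hm
  have hn' : (n : ℚ) ≠ 0 := by exact_mod_cast hn
  rw [padicValRat.div hm' hn', padicValRat.of_int, padicValRat.of_nat]
  have h3 : k ≤ padicValNat l n := (padicValNat_dvd_iff_le hn).mp h1
  have h4 : padicValInt l m < k := by
    by_contra h5
    push Not at h5
    apply h2
    have h6 := (padicValInt_dvd_iff (p := l) k m).mpr (Or.inr h5)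
    exact_mod_cast h6
  have h5 : (padicValInt l m : ℤ) < (k : ℤ) := by exact_mod_cast h4
  have h6 : (k : ℤ) ≤ (padicValNat l n : ℤ) := by exact_mod_cast h3
  linarith

/-- the rational number of the point of the unit circle given by `b` and `D` -/
def qq (b D : ℕ) : ℚ := ((b : ℚ) ^ 2 - D) / ((b : ℚ) ^ 2 + D)

theorem qq_val {l : ℕ} (hl : l.Prime) {k b D : ℕ} (hn : b ^ 2 + D ≠ 0) (h1 : l ^ k ∣ b ^ 2 + D)
    (h2 : ¬ ((l ^ k : ℕ) : ℤ) ∣ 2 * ((b : ℤ) ^ 2 - D)) : padicValRat l (2 * qq b D) < 0 := by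
  have h3 : 2 * qq b D = (((2 * ((b : ℤ) ^ 2 - D) : ℤ)) : ℚ) / ((b ^ 2 + D : ℕ) : ℚ) := by
    unfold qq
    push_cast
    ring
  rw [h3]
  exact val_neg hl hn h1 h2

theorem circle {b D : ℕ} (hn : b ^ 2 + D ≠ 0) :
    ((qq b D : ℚ) : ℝ) ^ 2 + (2 * b * Real.sqrt D / ((b : ℝ) ^ 2 + D)) ^ 2 = 1 := by
  have h1 : ((b : ℝ) ^ 2 + D) ≠ 0 := by exact_mod_cast hn
  have h2 : Real.sqrt D ^ 2 = D := Real.sq_sqrt (Nat.cast_nonneg D)
  unfold qq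
  push_cast
  rw [div_pow, div_pow, mul_pow, h2, ← add_div, div_eq_one_iff_eq (pow_ne_zero 2 h1)]
  ring

theorem ptF_gen {F : Subfield ℝ} {D : ℕ} (hD : Real.sqrt D ∈ F) {l : ℕ} (hl : l.Prime) {k b : ℕ}
    (hn : b ^ 2 + D ≠ 0) (h1 : l ^ k ∣ b ^ 2 + D)
    (h2 : ¬ ((l ^ k : ℕ) : ℤ) ∣ 2 * ((b : ℤ) ^ 2 - D)) : PtF F l := by
  refine ⟨qq b D, 2 * b * Real.sqrt D / ((b : ℝ) ^ 2 + D), ?_, circle hn, qq_val hl hn h1 h2⟩
  have h3 : (b : ℝ) ∈ F := natCast_mem F b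
  have h4 : (D : ℝ) ∈ F := natCast_mem F D
  have h5 : (2 : ℝ) ∈ F := by exact_mod_cast natCast_mem F 2
  exact F.div_mem (F.mul_mem (F.mul_mem h5 h3) hD) (F.add_mem (F.pow_mem h3 2) h4)

end Pts

open Pts

theorem ptAt_of_mod_four {E : Subfield ℂ} (hE : KG ≤ E) {l : ℕ} (hl : l.Prime) (h : l % 4 = 1) :
    PtAt E l := by
  have : Fact l.Prime := ⟨hl⟩
  have h1 : IsSquare (-1 : ZMod l) := by
    rw [ZMod.exists_sq_eq_neg_one_iff]
    omega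
  obtain ⟨y, hy⟩ := h1
  have h2 : l ∣ y.val ^ 2 + 1 := by
    rw [← ZMod.natCast_eq_zero_iff]
    push_cast
    rw [ZMod.natCast_zmod_val, pow_two, ← hy]
    ring
  have hn : y.val ^ 2 + 1 ≠ 0 := by positivity
  have h3 : ¬ ((l ^ 1 : ℕ) : ℤ) ∣ 2 * ((y.val : ℤ) ^ 2 - (1 : ℕ)) := by
    rw [pow_one]
    intro h4
    have h5 : (l : ℤ) ∣ (y.val : ℤ) ^ 2 + 1 := by exact_mod_cast h2
    have h6 : (l : ℤ) ∣ 4 := by
      have h7 := (h5.mul_left 2).sub h4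
      have h8 : 2 * ((y.val : ℤ) ^ 2 + 1) - 2 * ((y.val : ℤ) ^ 2 - (1 : ℕ)) = 4 := by
        push_cast
        ring
      rwa [h8] at h7
    have h7 : l ∣ 4 := by exact_mod_cast h6
    have h8 : l ∣ 2 ^ 2 := by simpa using h7
    have h9 := (Nat.prime_dvd_prime_iff_eq hl Nat.prime_two).1 (hl.dvd_of_dvd_pow h8)
    rw [h9] at h
    omega
  have hv := qq_val hl (k := 1) (b := y.val) (D := 1) hn (by rwa [pow_one]) h3
  refine ⟨qq y.val 1, 2 * y.val * Real.sqrt (1 : ℕ) / ((y.val : ℝ) ^ 2 + (1 : ℕ)), ?_,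
    circle hn, hv⟩
  have h4 : (((2 * y.val * Real.sqrt (1 : ℕ) / ((y.val : ℝ) ^ 2 + (1 : ℕ)) : ℝ)) : ℂ) =
      (((2 * (y.val : ℚ) / ((y.val : ℚ) ^ 2 + 1) : ℚ)) : ℂ) := by
    push_cast
    simp
  rw [h4]
  exact SubfieldClass.ratCast_mem E _

theorem ptF_of_sqrt_odd {F : Subfield ℝ} {D : ℕ} (hD : Real.sqrt D ∈ F) {l : ℕ} (hl : l.Prime)
    (h2 : l ≠ 2) (b : ℕ) (hb : l ∣ b ^ 2 + D) (hb' : ¬ l ∣ b) : PtF F l := by
  have hb0 : b ≠ 0 := by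
    rintro rfl
    exact hb' (dvd_zero l)
  have hn : b ^ 2 + D ≠ 0 := by positivity
  refine ptF_gen hD hl (k := 1) (b := b) hn (by rwa [pow_one]) ?_
  rw [pow_one]
  intro h4
  have h5 : (l : ℤ) ∣ (b : ℤ) ^ 2 + D := by exact_mod_cast hb
  have h6 : (l : ℤ) ∣ 2 ^ 2 * (b : ℤ) ^ 2 := by
    have h7 := (h5.mul_left 2).add h4
    have h8 : 2 * ((b : ℤ) ^ 2 + D) + 2 * ((b : ℤ) ^ 2 - D) = 2 ^ 2 * (b : ℤ) ^ 2 := by ring
    rwa [h8] at h7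
  have h7 : l ∣ 2 ^ 2 * b ^ 2 := by exact_mod_cast h6
  rcases (hl.dvd_mul).1 h7 with h8 | h8
  · exact h2 ((Nat.prime_dvd_prime_iff_eq hl Nat.prime_two).1 (hl.dvd_of_dvd_pow h8))
  · exact hb' (hl.dvd_of_dvd_pow h8)

theorem ptF_of_sqrt_two {F : Subfield ℝ} {D : ℕ} (hD : Real.sqrt D ∈ F) (h : D % 8 = 7) :
    PtF F 2 := by
  refine ptF_gen hD Nat.prime_two (k := 3) (b := 1) (by positivity) ?_ ?_
  · omega
  · push_cast
    omega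

end Pool.Agent.MP_8b8716_co_QF
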