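import Pool.Agent.Lib.MP_8b8716_co_HN.Fld
import Pool.Agent.Lib.MP_8b8716_co_QF.Defs

set_option autoImplicit false

/-!
# MP_8b8716_co, project QF, module QFld: the field `E`
-/

noncomputable section

namespace Pool.Agent.MP_8b8716_co_QF

open Complex
open Pool.Agent.MP_8b8716_co_HN

theorem exists_euc {F : Subfield ℝ} (hF : ∀ l : ℕ, l.Prime → (l = 2 ∨ l % 4 = 3) → l < 1250 →
    PtF F l) :
    ∃ E : Subfield ℂ, Euc E ∧ (∀ l : ℕ, l.Prime → ¬ HP l → PtAt E l) ∧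
      ∀ z ∈ E, z.re ∈ F ∧ z.im ∈ F := by
  set A : Subfield ℝ := F ⊓ (algebraicClosure ℚ ℝ).toSubfield with hA
  have hmem : ∀ x : ℝ, x ∈ A ↔ x ∈ F ∧ IsAlgebraic ℚ x := fun x => by
    rw [hA, Subfield.mem_inf, mem_fldAlg]
  have halg : ∀ z ∈ fldPlane A, IsAlgebraic ℚ z := by
    intro z hz
    rw [mem_fldPlane, hmem, hmem] at hz
    have h1 : IsAlgebraic ℚ ((z.re : ℝ) : ℂ) := hz.1.2.algebraMap (A := ℂ)
    have h2 : IsAlgebraic ℚ ((z.im : ℝ) : ℂ) := hz.2.2.algebraMap (A := ℂ)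
    rw [← re_add_im z]
    exact h1.add (h2.mul isAlgebraic_I_fld)
  refine ⟨fldPlane A, ⟨?_, ?_, halg, ?_⟩, ?_, fun z hz => ?_⟩
  · rw [mem_fldPlane, I_re, I_im]
    exact ⟨A.zero_mem, A.one_mem⟩
  · intro z hz
    exact ofReal_mem_fldPlane.2 hz.1
  · have hc : ({z : ℂ | IsAlgebraic ℚ z}).Countable := Algebraic.countable ℚ ℂ
    exact (hc.mono (s₁ := (fldPlane A : Set ℂ)) halg).to_subtype
  · intro l hl hHP
    by_cases h4 : l % 4 = 1
    · obtain ⟨q, y, h1, h2⟩ := fld_tors_one hl h4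
      exact ⟨q, y, ofReal_mem_fldPlane.2 (SubfieldClass.ratCast_mem A y), by exact_mod_cast h1, h2⟩
    · have h23 : l = 2 ∨ l % 4 = 3 := by
        rcases hl.eq_two_or_odd with h | h
        · exact Or.inl h
        · omega
      have hlt : l < 1250 := by
        rcases h23 with h | h
        · omega
        · have h5 : ¬ 1250 < l := fun h5 => hHP ⟨hl, h, h5⟩
          omega
      obtain ⟨q, y, hy, h1, h2⟩ := hF l hl h23 hlt
      refine ⟨q, y, ofReal_mem_fldPlane.2 ((hmem y).2 ⟨hy, ?_⟩), h1, h2⟩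
      apply IsAlgebraic.of_pow (n := 2) (by norm_num)
      have e : y ^ 2 = algebraMap ℚ ℝ (1 - q ^ 2) := by
        rw [eq_ratCast]
        push_cast
        linarith
      rw [e]
      exact isAlgebraic_algebraMap _
  · rw [mem_fldPlane, hmem, hmem] at hz
    exact ⟨hz.1.1, hz.2.1⟩

end Pool.Agent.MP_8b8716_co_QF
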