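import Mathlib
import Pool.Agent.Lib.MP_8b8716_co_HN.Basic
import Pool.Agent.Lib.MP_8b8716_co_HN.Avg
import Pool.Agent.Lib.MP_8b8716_co_HN.MeasA
import Pool.Agent.Lib.MP_8b8716_co_QF.Defs
import Pool.Agent.Lib.MP_8b8716_co_QF.RHf
import Pool.Agent.Lib.MP_8b8716_co_QF.Circ
import Pool.Agent.Lib.MP_8b8716_co_QF.ExLim
import Pool.Agent.Lib.MP_8b8716_co_QF.LimC
import Pool.Agent.Lib.MP_8b8716_co_QF.Psi2
import Pool.Agent.Lib.MP_8b8716_co_QF.Key

set_option autoImplicit false

/-!
# MP_8b8716_co, project QF: a measurable colouring of the plane with at most six colours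
-/

noncomputable section

namespace Pool.Agent.MP_8b8716_co_QF

open Complex MeasureTheory Filter Topology Set
open Pool.Agent.MP_8b8716_co_HN

namespace QSoft

/-- the threshold -/
def t0 : ℝ := lam / (1 + lam)

/-- the lower bound of the denominator -/
def s0 : ℝ := 1 / 6 - t0

theorem lam_pos : 0 < lam := by
  unfold lam
  norm_num

theorem t0_pos : 0 < t0 := by
  unfold t0
  have := lam_pos
  positivity

theorem s0_pos : 0 < s0 := by
  unfold s0 t0 lam
  norm_num

theorem t0_mul : t0 * (1 + lam) = lam := by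
  unfold t0
  have := lam_pos
  field_simp

theorem FF_pos {a b : ℝ} (ha : t0 < a) (hb : t0 < b) : 0 < FF a b := by
  have h0 := t0_pos
  have hl := lam_pos
  have h1 : FF a b = (1 + lam) / 2 * (a * (b - t0) + b * (a - t0)) + lam / 2 * (a - b) ^ 2 := by
    unfold FF
    linear_combination ((a + b) / 2) * t0_mul
  rw [h1]
  have h2 : 0 < a * (b - t0) := mul_pos (h0.trans ha) (by linarith)
  have h3 : 0 < b * (a - t0) := mul_pos (h0.trans hb) (by linarith)
  have h4 : 0 ≤ lam / 2 * (a - b) ^ 2 := by positivity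
  have h5 : 0 < (1 + lam) / 2 * (a * (b - t0) + b * (a - t0)) := by positivity
  linarith

theorem nh_one : NH 1 := by
  refine ⟨one_ne_zero, fun l hl h => ?_⟩
  exact absurd (Nat.dvd_one.1 h) hl.one_lt.ne'

section
variable {k : ℕ}

/-- the positive part above the threshold -/
def P (G : Fin k → (KG → Fin k) → ℝ) (i : Fin k) (ω : KG → Fin k) : ℝ := max (G i ω - t0) 0

/-- the sum of the positive parts -/
def Sm (G : Fin k → (KG → Fin k) → ℝ) (ω : KG → Fin k) : ℝ := ∑ j, P G j ω

/-- the soft colouring -/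
def gg (G : Fin k → (KG → Fin k) → ℝ) (i : Fin k) (ω : KG → Fin k) : ℝ := P G i ω / Sm G ω

variable {G : Fin k → (KG → Fin k) → ℝ}

theorem P_nonneg (i : Fin k) (ω : KG → Fin k) : 0 ≤ P G i ω := le_max_right _ _

theorem Sm_nonneg (ω : KG → Fin k) : 0 ≤ Sm G ω := Finset.sum_nonneg fun j _ => P_nonneg j ω

theorem P_le_Sm (i : Fin k) (ω : KG → Fin k) : P G i ω ≤ Sm G ω :=
  Finset.single_le_sum (f := fun j => P G j ω) (fun j _ => P_nonneg j ω) (Finset.mem_univ i)

theorem gg_nonneg (i : Fin k) (ω : KG → Fin k) : 0 ≤ gg G i ω :=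
  div_nonneg (P_nonneg i ω) (Sm_nonneg ω)

theorem gg_le_one (i : Fin k) (ω : KG → Fin k) : gg G i ω ≤ 1 :=
  div_le_one_of_le₀ (P_le_Sm i ω) (Sm_nonneg ω)

theorem measurable_P (hG : ∀ i, Measurable (G i)) (i : Fin k) : Measurable (P G i) :=
  ((hG i).sub_const _).max measurable_const

theorem measurable_Sm (hG : ∀ i, Measurable (G i)) : Measurable (Sm G) := by
  unfold Sm
  exact Finset.measurable_sum _ fun j _ => measurable_P hG j

theorem measurable_gg (hG : ∀ i, Measurable (G i)) (i : Fin k) : Measurable (gg G i) :=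
  (measurable_P hG i).div (measurable_Sm hG)

theorem Sm_ge (hk : k ≤ 6) {ω : KG → Fin k} (h : ∑ i, G i ω = 1) : s0 ≤ Sm G ω := by
  have hk0 : 0 < k := by
    rcases Nat.eq_zero_or_pos k with h0 | h0
    · subst h0
      simp at h
    · exact h0
  have : ∃ j, 1 / 6 ≤ G j ω := by
    by_contra hcon
    push Not at hcon
    have h1 : ∑ i, G i ω < ∑ _i : Fin k, (1 / 6 : ℝ) :=
      Finset.sum_lt_sum_of_nonempty ⟨⟨0, hk0⟩, Finset.mem_univ _⟩ fun i _ => hcon i
    rw [h, Finset.sum_const, Finset.card_univ, Fintype.card_fin, nsmul_eq_mul] at h1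
    have h2 : (k : ℝ) ≤ 6 := by exact_mod_cast hk
    linarith
  obtain ⟨j, hj⟩ := this
  have h1 : s0 ≤ P G j ω := by
    unfold s0 P
    exact le_trans (by linarith) (le_max_left _ _)
  exact h1.trans (P_le_Sm j ω)

theorem abs_P_sub (j : Fin k) (ω ω' : KG → Fin k) : |P G j ω' - P G j ω| ≤ |G j ω' - G j ω| := by
  unfold P
  have := abs_max_sub_max_le_abs (G j ω' - t0) (G j ω - t0) 0
  have e : G j ω' - t0 - (G j ω - t0) = G j ω' - G j ω := by ring
  rwa [e] at this

theorem abs_gg_sub (i : Fin k) {ω ω' : KG → Fin k} (h : s0 ≤ Sm G ω) (h' : s0 ≤ Sm G ω') :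
    |gg G i ω' - gg G i ω| ≤ 2 / s0 * ∑ j, |G j ω' - G j ω| := by
  have hs := s0_pos
  have hS : 0 < Sm G ω := hs.trans_le h
  have hS' : 0 < Sm G ω' := hs.trans_le h'
  set T : ℝ := ∑ j, |G j ω' - G j ω| with hT
  have hT0 : 0 ≤ T := Finset.sum_nonneg fun j _ => abs_nonneg _
  have h1 : |P G i ω' - P G i ω| ≤ T :=
    (abs_P_sub i ω ω').trans (Finset.single_le_sum (f := fun j => |G j ω' - G j ω|)
      (fun j _ => abs_nonneg _) (Finset.mem_univ i))
  have h2 : |Sm G ω - Sm G ω'| ≤ T := by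
    unfold Sm
    rw [← Finset.sum_sub_distrib]
    refine (Finset.abs_sum_le_sum_abs _ _).trans (Finset.sum_le_sum fun j _ => ?_)
    rw [abs_sub_comm]
    exact abs_P_sub j ω ω'
  have e : gg G i ω' - gg G i ω =
      ((P G i ω' - P G i ω) + gg G i ω * (Sm G ω - Sm G ω')) / Sm G ω' := by
    unfold gg
    field_simp
    ring
  rw [e, abs_div, abs_of_pos hS', div_le_iff₀ hS']
  have h3 : |P G i ω' - P G i ω + gg G i ω * (Sm G ω - Sm G ω')| ≤ T + T := by
    refine (abs_add_le _ _).trans (add_le_add h1 ?_)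
    rw [abs_mul, abs_of_nonneg (gg_nonneg i ω)]
    calc gg G i ω * |Sm G ω - Sm G ω'| ≤ 1 * T :=
          mul_le_mul (gg_le_one i ω) h2 (abs_nonneg _) zero_le_one
      _ = T := one_mul T
  refine h3.trans ?_
  have h4 : 2 / s0 * T * s0 ≤ 2 / s0 * T * Sm G ω' :=
    mul_le_mul_of_nonneg_left h' (by positivity)
  have h5 : 2 / s0 * T * s0 = T + T := by
    field_simp
    ring
  linarith

theorem sq_gg_sub (i : Fin k) {ω ω' : KG → Fin k} (h : s0 ≤ Sm G ω) (h' : s0 ≤ Sm G ω') :
    (gg G i ω' - gg G i ω) ^ 2 ≤ 4 / s0 ^ 2 * k * ∑ j, (G j ω' - G j ω) ^ 2 := by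
  have hs := s0_pos
  have h1 := abs_gg_sub i h h'
  have h2 : (gg G i ω' - gg G i ω) ^ 2 ≤ (2 / s0 * ∑ j, |G j ω' - G j ω|) ^ 2 := by
    rw [← sq_abs]
    exact pow_le_pow_left₀ (abs_nonneg _) h1 2
  refine h2.trans ?_
  have h3 : (∑ j, |G j ω' - G j ω|) ^ 2 ≤ (Finset.univ : Finset (Fin k)).card *
      ∑ j, |G j ω' - G j ω| ^ 2 := sq_sum_le_card_mul_sum_sq
  rw [Finset.card_univ, Fintype.card_fin] at h3
  simp only [sq_abs] at h3
  calc (2 / s0 * ∑ j, |G j ω' - G j ω|) ^ 2 = 4 / s0 ^ 2 * (∑ j, |G j ω' - G j ω|) ^ 2 := by ring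
    _ ≤ 4 / s0 ^ 2 * (k * ∑ j, (G j ω' - G j ω) ^ 2) :=
        mul_le_mul_of_nonneg_left h3 (by positivity)
    _ = _ := by ring

end

end QSoft

open QSoft AvgPf in
theorem qsoft {k : ℕ} (hk : k ≤ 6) {μ : Measure (KG → Fin k)} {ν : Fin k → Measure (KG → Circle)}
    (hS : Spec k μ ν) : ∃ κ : ℂ → Fin k, Measurable κ ∧
      ∀ᵐ p : ℂ × ℝ, κ p.1 ≠ κ (p.1 + Complex.exp (p.2 * I)) := by
  have hμ := hS.col
  have := hμ.prob
  choose G hG using fun i : Fin k => exists_lim hS nh_one i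
  have hGm : ∀ i, Measurable (G i) := fun i => (hG i).meas
  have hGa : ∀ i ω, |G i ω| ≤ 1 := fun i ω => by
    rw [abs_of_nonneg ((hG i).nonneg ω)]
    exact (hG i).le_one ω
  have hsum : ∀ᵐ ω ∂μ, ∑ i, G i ω = 1 := lim_sum hμ hG
  have hSm : ∀ᵐ ω ∂μ, s0 ≤ Sm G ω := by
    filter_upwards [hsum] with ω hω
    exact Sm_ge hk hω
  refine exists_aecol_gen hμ RH.toAddSubgroup (fun c hc => norm_one_mem_RH c hc)
    (fun w hw n => div_two_pow_mem_RH (Zi_le_RH hw) n) (g := gg G) (fun i => measurable_gg hGm i)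
    gg_nonneg gg_le_one ?_ ?_ ?_
  · -- the sum
    filter_upwards [hSm] with ω hω
    have h0 : Sm G ω ≠ 0 := (s0_pos.trans_le hω).ne'
    unfold gg
    rw [← Finset.sum_div]
    exact div_self h0
  · -- continuity
    intro i ε hε
    have hk0 : (0 : ℝ) < k := by
      have : 0 < k := i.pos
      exact_mod_cast this
    have hs := s0_pos
    set η : ℝ := ε / (16 / s0 ^ 2 * k * k) with hη
    have hη0 : 0 < η := by positivity
    choose δ hδ0 hδ using fun j : Fin k => psi_cont (hS.nice j) nh_one hη0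
    refine ⟨Finset.univ.inf' ⟨i, Finset.mem_univ i⟩ δ, ?_, fun z hz hzn => ?_⟩
    · rw [gt_iff_lt, Finset.lt_inf'_iff]
      exact fun j _ => hδ0 j
    have hmv : ∀ j, Measurable fun ω : KG → Fin k => G j (shift z ω) := fun j =>
      (hGm j).comp (measurable_shift z)
    have hj : ∀ j, ∫ ω, (G j (shift z ω) - G j ω) ^ 2 ∂μ ≤ 2 * η := by
      intro j
      rw [sq_expand (F := fun ω => G j (shift z ω)) hμ (hmv j) (hGm j)
        (fun ω => hGa j _) (hGa j)]
      have h1 : ∫ ω, G j (shift z ω) * G j (shift z ω) ∂μ = ∫ ω, G j ω * G j ω ∂μ :=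
        integral_shift hμ z ((hGm j).mul (hGm j))
      have h2 := lim_corr hS nh_one nh_one (hG j) (hG j) z
      have h3 := lim_corr hS nh_one nh_one (hG j) (hG j) 0
      simp only [shift_zero] at h3
      have h4 := hδ j 0 z hz (by
        rw [Nat.cast_one, one_mul]
        exact lt_of_lt_of_le hzn (Finset.inf'_le _ (Finset.mem_univ j)))
      rw [Nat.cast_one, one_mul, zero_add] at h4
      rw [Set.inter_assoc, Set.inter_self] at h2 h3
      rw [← h2, ← h3, ← Complex.ofReal_sub, Complex.norm_real, Real.norm_eq_abs, abs_lt] at h4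
      rw [h1]
      linarith [h4.1]
    have hbd : ∀ᵐ ω ∂μ, (gg G i (shift z ω) - gg G i ω) ^ 2 ≤
        4 / s0 ^ 2 * k * ∑ j, (G j (shift z ω) - G j ω) ^ 2 := by
      filter_upwards [hSm, (mp_shift hμ z).quasiMeasurePreserving.ae hSm] with ω h1 h2
      exact sq_gg_sub i h1 h2
    have hint : ∀ j, Integrable (fun ω => (G j (shift z ω) - G j ω) ^ 2) μ := fun j => by
      refine integrable_bdd hμ (((hmv j).sub (hGm j)).pow_const 2) 4 fun ω => ?_
      rw [abs_pow]
      have : |G j (shift z ω) - G j ω| ≤ 2 := by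
        refine (abs_sub _ _).trans ?_
        linarith [hGa j (shift z ω), hGa j ω]
      calc |G j (shift z ω) - G j ω| ^ 2 ≤ 2 ^ 2 := pow_le_pow_left₀ (abs_nonneg _) this 2
        _ = 4 := by norm_num
    have hint2 : Integrable (fun ω => (gg G i (shift z ω) - gg G i ω) ^ 2) μ := by
      refine integrable_bdd hμ ((((measurable_gg hGm i).comp (measurable_shift z)).sub
        (measurable_gg hGm i)).pow_const 2) 1 fun ω => ?_
      rw [abs_pow]
      have : |gg G i (shift z ω) - gg G i ω| ≤ 1 := by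
        rw [abs_le]
        constructor
        · linarith [gg_nonneg (G := G) i (shift z ω), gg_le_one (G := G) i ω]
        · linarith [gg_nonneg (G := G) i ω, gg_le_one (G := G) i (shift z ω)]
      exact pow_le_one₀ (abs_nonneg _) this
    calc ∫ ω, (gg G i (shift z ω) - gg G i ω) ^ 2 ∂μ
        ≤ ∫ ω, 4 / s0 ^ 2 * k * ∑ j, (G j (shift z ω) - G j ω) ^ 2 ∂μ :=
          integral_mono_ae hint2 ((integrable_finsetSum _ fun j _ => hint j).const_mul _) hbd
      _ = 4 / s0 ^ 2 * k * ∑ j, ∫ ω, (G j (shift z ω) - G j ω) ^ 2 ∂μ := by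
          rw [integral_const_mul, integral_finsetSum _ fun j _ => hint j]
      _ ≤ 4 / s0 ^ 2 * k * ∑ _j : Fin k, 2 * η :=
          mul_le_mul_of_nonneg_left (Finset.sum_le_sum fun j _ => hj j) (by positivity)
      _ = ε / 2 := by
          rw [Finset.sum_const, Finset.card_univ, Fintype.card_fin, nsmul_eq_mul, hη]
          field_simp
          ring
      _ < ε := by linarith
  · -- orthogonality
    intro i c hc
    have h1 : ∀ᵐ ω ∂μ, gg G i (shift c ω) * gg G i ω = 0 := by
      filter_upwards [key hS (hG i) hc] with ω hω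
      rcases le_or_gt (G i (shift c ω)) t0 with h2 | h2
      · have : P G i (shift c ω) = 0 := max_eq_right (by linarith)
        unfold gg
        rw [this, zero_div, zero_mul]
      · rcases le_or_gt (G i ω) t0 with h3 | h3
        · have : P G i ω = 0 := max_eq_right (by linarith)
          unfold gg
          rw [this, zero_div, mul_zero]
        · exact absurd hω (not_le.2 (FF_pos h2 h3))
    rw [integral_congr_ae h1]
    simp

end Pool.Agent.MP_8b8716_co_QF
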