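import Mathlib
import Pool.Agent.Lib.MP_8b8716_co_QF.Defs
import Pool.Agent.Lib.MP_8b8716_co_HN.NumC

set_option autoImplicit false

/-!
# MP_8b8716_co, project QF: characters which are continuous + torsion on all lines
-/

noncomputable section

namespace Pool.Agent.MP_8b8716_co_QF

open Complex MeasureTheory Filter Topology Set
open Pool.Agent.MP_8b8716_co_HN

namespace QStr

theorem coprime {m n : ℕ} (hm : NH m) (hn : ∀ l, HP l → ¬ l ∣ n) : Nat.Coprime m n := by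
  refine Nat.coprime_of_dvd fun l hl h1 h2 => ?_
  exact hn l (hm.2 l hl h1) h2

theorem mem_Lt_zero {g : KG} (hg : g ∈ Zi) : g ∈ Lt 1 ((0 : ℕ) : ℤ) :=
  ⟨g, hg, by simp⟩

theorem nat_mul_mem_Lt {k : ℤ} {w : KG} (hw : w ∈ Lt 1 k) (m : ℕ) : (m : KG) * w ∈ Lt 1 k := by
  obtain ⟨g, hg, rfl⟩ := hw
  exact ⟨m * g, Zi.mul_mem (natCast_mem Zi m) hg, by rw [mul_div_assoc]⟩

theorem coe_nat_mul (m : ℕ) (w : KG) : (((m : KG) * w : KG) : ℂ) = (m : ℂ) * (w : ℂ) := by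
  push_cast
  rfl

end QStr

open QStr in
theorem qstr {y : KG → Circle} (hy : IsChar y) (h : ∀ z : KG, ∃ m : ℕ, NH m ∧ ∃ ξ : ℂ, ∀ k : ℕ,
    ∀ w ∈ Lt 1 k, y (z * (m * w)) = el ξ w) : ∃ M : ℕ, NH M ∧ y ∈ SM M := by
  obtain ⟨m1, hm1, ξ1, h1⟩ := h 1
  have hm10 : (m1 : ℂ) ≠ 0 := Nat.cast_ne_zero.2 hm1.1
  have h1' : ∀ k : ℕ, ∀ w ∈ Lt 1 k, y (m1 * w) = el ξ1 w := by
    intro k w hw
    have h2 := h1 k w hw
    rwa [one_mul] at h2
  refine ⟨m1, hm1, ξ1 / m1, fun w hw => ?_⟩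
  rw [mul_div_cancel₀ _ hm10]
  obtain ⟨n, hn0, hn, hg⟩ := hw
  have hn0' : (n : KG) ≠ 0 := Nat.cast_ne_zero.2 hn0
  obtain ⟨m', hm', ξ', h2⟩ := h (n : KG)⁻¹
  -- the frequencies
  have h3 : ξ1 * m' - ξ' * (n * m1) = 0 := by
    refine eq_zero_of_el fun k v hv => ?_
    have h4 := h2 k ((n : KG) * ((m1 : KG) * v)) (nat_mul_mem_Lt (nat_mul_mem_Lt hv m1) n)
    have h5 := h1' k ((m' : KG) * v) (nat_mul_mem_Lt hv m')
    have h6 : (n : KG)⁻¹ * (m' * ((n : KG) * ((m1 : KG) * v))) = m1 * (m' * v) := by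
      field_simp
    rw [h6, h5, coe_nat_mul, coe_nat_mul, coe_nat_mul] at h4
    rw [el_sub_left, ← el_mul, h4, ← el_mul, mul_assoc, div_self']
  have h3' : ξ1 * m' = ξ' * (n * m1) := sub_eq_zero.1 h3
  -- first relation
  have hA : y (m' * w) = el (ξ' * n) w := by
    have h4 := h2 0 _ (mem_Lt_zero hg)
    have h5 : (n : KG)⁻¹ * (m' * ((n : KG) * w)) = m' * w := by
      field_simp
    rw [h5, coe_nat_mul, el_mul] at h4
    exact h4
  have hB : y (m' * (m1 * w)) = el ξ1 ((m' * w : KG) : ℂ) := by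
    have h4 : (m' : KG) * (m1 * w) = m1 * (m' * w) := by ring
    rw [h4, hy.map_natMul, hA, ← el_natMul, coe_nat_mul, el_mul, h3']
    congr 1
    ring
  -- second relation
  have hC : y (n * (m1 * w)) = el ξ1 ((n * w : KG) : ℂ) := by
    have h4 : (n : KG) * (m1 * w) = m1 * (n * w) := by ring
    rw [h4]
    exact h1' 0 _ (mem_Lt_zero hg)
  -- Bezout
  have hco : IsCoprime (m' : ℤ) (n : ℤ) := Nat.isCoprime_iff_coprime.2 (coprime hm' hn)
  obtain ⟨a, b, hab⟩ := hco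
  have hab' : (a : KG) * m' + b * n = 1 := by
    have := congrArg (Int.cast : ℤ → KG) hab
    push_cast at this
    exact this
  have hχ := isChar_el KG ξ1
  have h4 : (m1 : KG) * w = a * (m' * (m1 * w)) + b * (n * (m1 * w)) := by
    linear_combination (-(m1 : KG) * w) * hab'
  have h5 : w = a * (m' * w) + b * (n * w) := by
    linear_combination (-w) * hab'
  rw [h4, hy, hy.map_intMul, hy.map_intMul, hB, hC]
  have h6 : el ξ1 (w : ℂ) = el ξ1 ((a * (m' * w) + b * (n * w) : KG) : ℂ) := by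
    rw [← h5]
  rw [h6]
  have h7 := hχ (a * (m' * w)) (b * (n * w))
  have h8 := hχ.map_intMul a (m' * w)
  have h9 := hχ.map_intMul b (n * w)
  simp only at h7 h8 h9
  rw [h7, h8, h9]

end Pool.Agent.MP_8b8716_co_QF
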