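import Mathlib
import Pool.Agent.Lib.MP_8b8716_co_HN.Tor
import Pool.Agent.Lib.MP_8b8716_co_QF.Defs

set_option autoImplicit false

/-!
# MP_8b8716_co, project QF: the torsion of the lines
-/

noncomputable section

namespace Pool.Agent.MP_8b8716_co_QF

open Complex MeasureTheory Filter Topology Set
open Pool.Agent.MP_8b8716_co_HN

namespace QTor

/-- the integers `n` such that `y (n w)` is a continuous character -/
def grp (y : KG → Circle) (hy : IsChar y) : AddSubgroup ℤ where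
  carrier := {n | ∃ ξ : ℂ, ∀ k : ℕ, ∀ w ∈ Lt 1 k, y ((n : KG) * w) = el ξ w}
  add_mem' := by
    rintro a b ⟨ξ, h⟩ ⟨ξ', h'⟩
    refine ⟨ξ + ξ', fun k w hw => ?_⟩
    rw [Int.cast_add, add_mul, hy, h k w hw, h' k w hw, el_add_left]
  zero_mem' := ⟨0, fun k w hw => by rw [Int.cast_zero, zero_mul, hy.map_zero, el_zero_left]⟩
  neg_mem' := by
    rintro a ⟨ξ, h⟩
    refine ⟨-ξ, fun k w hw => ?_⟩
    rw [Int.cast_neg, neg_mul, hy.map_neg, h k w hw, el_neg_left]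

theorem exists_NH {y : KG → Circle} (hy : IsChar y)
    (h0 : ∃ m : ℕ, 0 < m ∧ ∃ ξ : ℂ, ∀ k : ℕ, ∀ w ∈ Lt 1 k, y (m * w) = el ξ w)
    (h1 : ∀ l : ℕ, l.Prime → ¬ HP l → ∃ m : ℕ, ¬ l ∣ m ∧ ∃ ξ : ℂ, ∀ k : ℕ, ∀ w ∈ Lt 1 k,
      y (m * w) = el ξ w) :
    ∃ m : ℕ, NH m ∧ ∃ ξ : ℂ, ∀ k : ℕ, ∀ w ∈ Lt 1 k, y (m * w) = el ξ w := by
  obtain ⟨a, ha⟩ := Int.subgroup_cyclic (grp y hy)
  have key : ∀ m : ℕ, (∃ ξ : ℂ, ∀ k : ℕ, ∀ w ∈ Lt 1 k, y (m * w) = el ξ w) → a ∣ (m : ℤ) := by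
    rintro m ⟨ξ, h⟩
    have h2 : (m : ℤ) ∈ grp y hy := ⟨ξ, fun k w hw => by rw [Int.cast_natCast]; exact h k w hw⟩
    rw [ha, AddSubgroup.mem_closure_singleton] at h2
    obtain ⟨n, hn⟩ := h2
    exact ⟨n, by rw [← hn, smul_eq_mul, mul_comm]⟩
  have hmem : ((a.natAbs : ℕ) : ℤ) ∈ grp y hy := by
    have h3 : a ∈ grp y hy := by
      rw [ha]
      exact AddSubgroup.subset_closure (Set.mem_singleton a)
    rcases Int.natAbs_eq a with h | h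
    · rwa [← h]
    · have h4 : ((a.natAbs : ℕ) : ℤ) = -a := by omega
      rw [h4]
      exact neg_mem h3
  refine ⟨a.natAbs, ⟨?_, ?_⟩, ?_⟩
  · intro h
    have h2 : a = 0 := Int.natAbs_eq_zero.1 h
    obtain ⟨m, hm, hm2⟩ := h0
    have h3 := key m hm2
    rw [h2, zero_dvd_iff] at h3
    omega
  · intro l hl hd
    by_contra hnot
    obtain ⟨m, hm, hm2⟩ := h1 l hl hnot
    apply hm
    have h3 : (a.natAbs : ℤ) ∣ (m : ℤ) := Int.natAbs_dvd.2 (key m hm2)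
    exact hd.trans (Int.natCast_dvd_natCast.1 h3)
  · obtain ⟨ξ, h⟩ := hmem
    refine ⟨ξ, fun k w hw => ?_⟩
    have h5 := h k w hw
    rwa [Int.cast_natCast] at h5

end QTor

theorem qtor {E : Subfield ℂ} (hE : Euc E) (ht : ∀ l : ℕ, l.Prime → ¬ HP l → PtAt E l)
    (σ : Measure (E → Circle)) [IsFiniteMeasure σ] (hc : ∀ᵐ x ∂σ, IsChar x) (hI : Inv E σ)
    (hA : ∀ᵐ x ∂σ, ∀ z : E, ∃ m : ℕ, 0 < m ∧ ∃ ξ : ℂ, ∀ k : ℕ, ∀ w ∈ Lt 1 k,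
      line hE.KG_le z x (m * w) = el (m * ξ) w) :
    ∀ᵐ x ∂σ, ∀ z : E, ∃ m : ℕ, NH m ∧ ∃ ξ : ℂ, ∀ k : ℕ, ∀ w ∈ Lt 1 k,
      line hE.KG_le z x (m * w) = el ξ w := by
  have h1 : ∀ᵐ x ∂σ, ∀ l : ℕ, l.Prime → ¬ HP l → ∀ z : E, ∃ m : ℕ, ¬ l ∣ m ∧ ∃ ξ : ℂ, ∀ k : ℕ,
      ∀ w ∈ Lt 1 k, line hE.KG_le z x (m * w) = el ξ w := by
    rw [ae_all_iff]
    intro l
    by_cases hl : l.Prime
    · by_cases hH : HP l
      · exact Filter.Eventually.of_forall fun x _ h => absurd hH h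
      · filter_upwards [tor_prime hE σ hc hI l hl (ht l hl hH) hA] with x hx _ _
        exact hx
    · exact Filter.Eventually.of_forall fun x h => absurd h hl
  filter_upwards [hc, hA, h1] with x hx hxA hx1 z
  apply QTor.exists_NH (isChar_line hE.KG_le z hx)
  · obtain ⟨m, hm, ξ, h⟩ := hxA z
    exact ⟨m, hm, m * ξ, h⟩
  · intro l hl hH
    exact hx1 l hl hH z

end Pool.Agent.MP_8b8716_co_QF
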