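import Pool.Agent.Lib.MP_8b8716_co_HN.AAf
import Pool.Agent.Lib.MP_8b8716_co_HN.VX
import Pool.Agent.Lib.MP_8b8716_co_HN.Seed
import Pool.Agent.Lib.MP_8b8716_co_HN.NumB
import Pool.Agent.Lib.MP_8b8716_co_QF.QTor
import Pool.Agent.Lib.MP_8b8716_co_QF.QStr
import Pool.Agent.Lib.MP_8b8716_co_QF.SMf

set_option autoImplicit false

/-!
# MP_8b8716_co, project QF, module QRig: the spectral measures are nice
-/

noncomputable section

namespace Pool.Agent.MP_8b8716_co_QF

open Complex MeasureTheory Filter Topology Set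
open Pool.Agent.MP_8b8716_co_HN

namespace QRig

/-- `AA` is invariant -/
lemma mulAct_mem_AA {c : KG} (hc : c ≠ 0) (y : KG → Circle) : mulAct c y ∈ AA ↔ y ∈ AA := by
  constructor
  · intro h
    have h1 := AA_mulAct h c⁻¹
    rwa [mulAct_mulAct, inv_mul_cancel₀ hc, mulAct_one] at h1
  · exact fun h => AA_mulAct h c

lemma preimage_AA {c : KG} (hc : c ≠ 0) : mulAct c ⁻¹' AA = AA := by
  ext y
  exact mulAct_mem_AA hc y

lemma ne_zero_of_norm {E : Subfield ℂ} {c : E} (hc : ‖(c : ℂ)‖ = 1) : c ≠ 0 := by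
  rintro rfl
  simp at hc

/-- the restriction of an invariant measure to the complement of `AA` is invariant -/
lemma inv_restrict {ν : Measure (KG → Circle)} (hI : Inv KG ν) : Inv KG (ν.restrict AAᶜ) := by
  intro c hc
  have h := (hI c hc).restrict_preimage (measurableSet_AA.compl)
  rw [preimage_compl, preimage_AA (ne_zero_of_norm hc)] at h
  exact h

lemma inv_map {ν : Measure (KG → Circle)} (hI : Inv KG ν) (u : KG) :
    Inv KG (ν.map (mulAct u)) := by
  intro c hc
  refine ⟨measurable_mulAct c, ?_⟩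
  rw [Measure.map_map (measurable_mulAct c) (measurable_mulAct u)]
  have h : (mulAct c ∘ mulAct u : (KG → Circle) → KG → Circle) = mulAct u ∘ mulAct c := by
    funext y
    simp only [Function.comp_apply, mulAct_mulAct, mul_comm]
  rw [h, ← Measure.map_map (measurable_mulAct u) (measurable_mulAct c), (hI c hc).map_eq]

/-- the Fourier coefficients of the part off `AA` vanish -/
lemma zero_of {ν : Measure (KG → Circle)} [IsFiniteMeasure ν] (hc : ∀ᵐ y ∂ν, IsChar y)
    (hI : Inv KG ν) {u : KG} (hu : u ≠ 0) : ∫ y in AAᶜ, (y u : ℂ) ∂ν = 0 := by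
  have h1 : Inv KG ((ν.restrict AAᶜ).map (mulAct u)) := inv_map (inv_restrict hI) u
  have h2 : ∀ᵐ y ∂((ν.restrict AAᶜ).map (mulAct u)), IsChar y := by
    rw [ae_map_iff (measurable_mulAct u).aemeasurable measurableSet_isChar]
    filter_upwards [ae_restrict_of_ae hc] with y hy
    exact hy.mulAct u
  have h3 : (ν.restrict AAᶜ).map (mulAct u) AA = 0 := by
    rw [Measure.map_apply (measurable_mulAct u) measurableSet_AA, preimage_AA hu,
      Measure.restrict_apply measurableSet_AA, inter_compl_self, measure_empty]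
  have h4 := seed _ h2 h1 h3
  rw [integral_map (measurable_mulAct u).aemeasurable] at h4
  · simpa [mulAct] using h4
  · have : Measurable fun y : KG → Circle => ((y 1 : Circle) : ℂ) :=
      (by fun_prop : Continuous fun c : Circle => (c : ℂ)).measurable.comp (measurable_pi_apply 1)
    exact this.aestronglyMeasurable

section
variable {E : Subfield ℂ} (hE : Euc E)

lemma line_one_mulAct (c : KG) (x : E → Circle) :
    line hE.KG_le 1 (mulAct ⟨c, hE.KG_le c.2⟩ x) = mulAct c (line hE.KG_le 1 x) := by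
  rw [line_mulAct, ← line_KG_mul, mul_comm]

lemma inv_line {σ : Measure (E → Circle)} (hI : Inv E σ) :
    Inv KG (σ.map (line hE.KG_le 1)) := by
  intro c hc
  have hm := measurable_line hE.KG_le 1
  refine ⟨measurable_mulAct c, ?_⟩
  rw [Measure.map_map (measurable_mulAct c) hm]
  have h : (mulAct c ∘ line hE.KG_le 1) =
      line hE.KG_le 1 ∘ mulAct (⟨c, hE.KG_le c.2⟩ : E) := by
    funext x
    exact (line_one_mulAct hE c x).symm
  rw [h, ← Measure.map_map hm (measurable_mulAct _), (hI ⟨c, hE.KG_le c.2⟩ hc).map_eq]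

/-- the characters all of whose lines are in `AA` -/
def SS : Set (E → Circle) := {x | ∀ z : E, line hE.KG_le z x ∈ AA}

lemma measurableSet_SS : MeasurableSet (SS hE) := by
  have := hE.ctb
  have h : SS hE = ⋂ z : E, line hE.KG_le z ⁻¹' AA := by
    ext x
    simp [SS]
  rw [h]
  exact MeasurableSet.iInter fun z => measurable_line hE.KG_le z measurableSet_AA

lemma preimage_SS {c : E} (hc : c ≠ 0) : mulAct c ⁻¹' (SS hE) = SS hE := by
  ext x
  simp only [SS, mem_preimage, mem_ofPred_eq, line_mulAct]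
  constructor
  · intro h z
    have := h (c⁻¹ * z)
    rwa [mul_inv_cancel_left₀ hc] at this
  · exact fun h z => h (c * z)

lemma inv_SS {σ : Measure (E → Circle)} (hI : Inv E σ) : Inv E (σ.restrict (SS hE)) := by
  intro c hc
  have h := (hI c hc).restrict_preimage (measurableSet_SS hE)
  rw [preimage_SS hE (ne_zero_of_norm hc)] at h
  exact h

end

end QRig

theorem qrig {E : Subfield ℂ} (hE : Euc E) (ht : ∀ l : ℕ, l.Prime → ¬ HP l → PtAt E l)
    (σ : Measure (E → Circle)) [IsFiniteMeasure σ] (hc : ∀ᵐ x ∂σ, IsChar x) (hI : Inv E σ) :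
    Nice (σ.map (line hE.KG_le 1)) := by
  have hm := measurable_line hE.KG_le 1
  have hchr : ∀ᵐ y ∂(σ.map (line hE.KG_le 1)), IsChar y := by
    rw [ae_map_iff hm.aemeasurable measurableSet_isChar]
    filter_upwards [hc] with x hx
    exact isChar_line hE.KG_le 1 hx
  refine ⟨inferInstance, hchr, ?_, fun u hu => QRig.zero_of hchr (QRig.inv_line hE hI) hu⟩
  have hmeas : MeasurableSet {y : KG → Circle | y ∈ AA → ∃ M : ℕ, NH M ∧ y ∈ SM M} := by
    have h : {y : KG → Circle | y ∈ AA → ∃ M : ℕ, NH M ∧ y ∈ SM M} =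
        AAᶜ ∪ ⋃ M : ℕ, ⋃ _ : NH M, SM M := by
      ext y
      simp only [mem_ofPred_eq, mem_union, mem_compl_iff, mem_iUnion, exists_prop]
      tauto
    rw [h]
    exact measurableSet_AA.compl.union (MeasurableSet.iUnion fun M =>
      MeasurableSet.iUnion fun _ => measurableSet_SM M)
  rw [ae_map_iff hm.aemeasurable hmeas]
  have hA : ∀ᵐ x ∂(σ.restrict (QRig.SS hE)), ∀ z : E, ∃ m : ℕ, 0 < m ∧ ∃ ξ : ℂ, ∀ k : ℕ,
      ∀ w ∈ Lt 1 k, line hE.KG_le z x (m * w) = el (m * ξ) w := by
    filter_upwards [ae_restrict_mem (QRig.measurableSet_SS hE)] with x hx z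
    exact hx z 1 Ndiv_one
  have hq := qtor hE ht (σ.restrict (QRig.SS hE)) (ae_restrict_of_ae hc) (QRig.inv_SS hE hI) hA
  rw [ae_restrict_iff' (QRig.measurableSet_SS hE)] at hq
  filter_upwards [hc, hq, vx hE σ hc hI] with x hx hqx hvx hxA
  refine qstr (isChar_line hE.KG_le 1 hx) fun z => ?_
  obtain ⟨m, hm0, ξ, hξ⟩ := hqx (hvx hxA) ⟨z, hE.KG_le z.2⟩
  refine ⟨m, hm0, ξ, fun k w hw => ?_⟩
  rw [← hξ k w hw]
  simp only [line]
  congr 1
  rw [one_mul]
  rfl

end Pool.Agent.MP_8b8716_co_QF
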