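import Mathlib
import Pool.Agent.Lib.MP_8b8716_co_HN.Basic
import Pool.Agent.Lib.MP_8b8716_co_HN.SpecA
import Pool.Agent.Lib.MP_8b8716_co_HN.FourU
import Pool.Agent.Lib.MP_8b8716_co_QF.Defs
import Pool.Agent.Lib.MP_8b8716_co_QF.QRig

set_option autoImplicit false

/-!
# MP_8b8716_co, project QF: the random colouring of `KG` and its spectral measures
-/

noncomputable section

namespace Pool.Agent.MP_8b8716_co_QF

open Complex MeasureTheory Filter Topology Set
open Pool.Agent.MP_8b8716_co_HN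
open scoped ENNReal

namespace QSpec

variable {E : Subfield ℂ} {k : ℕ} {μ : Measure (E → Fin k)}

lemma mp_shift (hμ : RandCol E k μ) (u : E) : MeasurePreserving (shift (k := k) u) μ μ := by
  have h := hμ.inv 1 u (by simp)
  have e : (fun (ω : E → Fin k) (z : E) => ω (1 * z + u)) = shift u := by
    funext ω z
    simp only [shift, one_mul]
  rwa [e] at h

lemma measurable_ind (i : Fin k) : Measurable (ind (E := E) (k := k) i) := by
  unfold ind
  refine Measurable.ite ?_ measurable_const measurable_const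
  exact measurableSet_eq_fun (measurable_pi_apply (0 : E)) measurable_const

lemma ind_nonneg (i : Fin k) (ω : E → Fin k) : 0 ≤ ind i ω := by
  unfold ind
  split_ifs <;> norm_num

lemma ind_le_one (i : Fin k) (ω : E → Fin k) : ind i ω ≤ 1 := by
  unfold ind
  split_ifs <;> norm_num

/-- the complex valued indicator function -/
def cind (i : Fin k) (ω : E → Fin k) : ℂ := (ind i ω : ℂ)

lemma measurable_cind (i : Fin k) : Measurable (cind (E := E) (k := k) i) :=
  Complex.measurable_ofReal.comp (measurable_ind i)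

lemma norm_cind_le (i : Fin k) (ω : E → Fin k) : ‖cind i ω‖ ≤ 1 := by
  unfold cind
  rw [Complex.norm_real, Real.norm_of_nonneg (ind_nonneg i ω)]
  exact ind_le_one i ω

lemma memLp_cind [IsProbabilityMeasure μ] (i : Fin k) :
    MemLp (cind (E := E) (k := k) i) 2 μ :=
  MemLp.of_bound (measurable_cind i).aestronglyMeasurable 1
    (Eventually.of_forall fun ω => norm_cind_le i ω)

lemma shift_comp (z w : E) : shift (k := k) (z + w) = shift (k := k) w ∘ shift z := by
  funext ω v
  simp only [shift, Function.comp]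
  congr 1
  ring

lemma shift_zero : shift (k := k) (0 : E) = id := by
  funext ω v
  simp [shift]

/-- the translation operators, as isometries -/
def T (hμ : RandCol E k μ) (u : E) : Lp ℂ 2 μ →ₗᵢ[ℂ] Lp ℂ 2 μ :=
  Lp.compMeasurePreservingₗᵢ ℂ (shift u) (mp_shift hμ u)

lemma T_apply (hμ : RandCol E k μ) (u : E) (f : Lp ℂ 2 μ) :
    T hμ u f = Lp.compMeasurePreserving (shift u) (mp_shift hμ u) f := rfl

lemma T_coe (hμ : RandCol E k μ) (u : E) (f : Lp ℂ 2 μ) : T hμ u f =ᵐ[μ] f ∘ shift u :=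
  Lp.coeFn_compMeasurePreserving f (mp_shift hμ u)

lemma T_add (hμ : RandCol E k μ) (z w : E) (f : Lp ℂ 2 μ) :
    T hμ (z + w) f = T hμ z (T hμ w f) := by
  apply Lp.ext
  refine (T_coe hμ (z + w) f).trans ?_
  refine EventuallyEq.trans ?_ (T_coe hμ z (T hμ w f)).symm
  have h := (mp_shift hμ z).quasiMeasurePreserving.ae_eq_comp (T_coe hμ w f)
  rw [shift_comp]
  exact h.symm

lemma T_zero (hμ : RandCol E k μ) (f : Lp ℂ 2 μ) : T hμ 0 f = f := by
  apply Lp.ext
  refine (T_coe hμ 0 f).trans ?_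
  rw [shift_zero]
  rfl

lemma T_surj (hμ : RandCol E k μ) (u : E) : Function.Surjective (T hμ u) := by
  intro f
  refine ⟨T hμ (-u) f, ?_⟩
  rw [← T_add, add_neg_cancel, T_zero]

/-- the translation operators, as isometric equivalences -/
def U (hμ : RandCol E k μ) (u : E) : Lp ℂ 2 μ ≃ₗᵢ[ℂ] Lp ℂ 2 μ :=
  LinearIsometryEquiv.ofSurjective (T hμ u) (T_surj hμ u)

lemma U_apply (hμ : RandCol E k μ) (u : E) (f : Lp ℂ 2 μ) : U hμ u f = T hμ u f := rfl

/-- the correlation function -/
def phi (μ : Measure (E → Fin k)) (i : Fin k) (u : E) : ℝ :=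
  ∫ ω, ind i (shift u ω) * ind i ω ∂μ

lemma inner_eq (hμ : RandCol E k μ) [IsProbabilityMeasure μ] (i : Fin k) (u : E) :
    inner ℂ ((memLp_cind (μ := μ) i).toLp (cind i)) (U hμ u ((memLp_cind i).toLp (cind i))) =
      (phi μ i u : ℂ) := by
  rw [U_apply, L2.inner_def]
  have h1 : (T hμ u ((memLp_cind (μ := μ) i).toLp (cind i)) : (E → Fin k) → ℂ) =ᵐ[μ]
      fun ω => cind i (shift u ω) := by
    refine (T_coe hμ u _).trans ?_
    exact (mp_shift hμ u).quasiMeasurePreserving.ae_eq_comp (memLp_cind (μ := μ) i).coeFn_toLp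
  have h2 : ((memLp_cind (μ := μ) i).toLp (cind i) : (E → Fin k) → ℂ) =ᵐ[μ] cind i :=
    (memLp_cind (μ := μ) i).coeFn_toLp
  have h3 : ∫ ω, inner ℂ (((memLp_cind (μ := μ) i).toLp (cind i) : (E → Fin k) → ℂ) ω)
      ((T hμ u ((memLp_cind (μ := μ) i).toLp (cind i)) : (E → Fin k) → ℂ) ω) ∂μ =
      ∫ ω, ((ind i (shift u ω) * ind i ω : ℝ) : ℂ) ∂μ := by
    refine integral_congr_ae ?_
    filter_upwards [h1, h2] with ω ha hb
    rw [ha, hb, RCLike.inner_apply]
    simp only [cind, Complex.conj_ofReal]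
    push_cast
    ring
  rw [h3, integral_complex_ofReal]
  rfl

lemma phi_rot (hμ : RandCol E k μ) (i : Fin k) (c z : E) (hc : ‖(c : ℂ)‖ = 1) :
    phi μ i (c * z) = phi μ i z := by
  have h := hμ.inv c 0 hc
  have hm : Measurable fun ω : E → Fin k => ind i (shift z ω) * ind i ω := by
    refine Measurable.mul ?_ (measurable_ind i)
    exact (measurable_ind i).comp (measurable_pi_lambda _ fun _ => measurable_pi_apply _)
  have e : phi μ i z = ∫ ω, (fun ω : E → Fin k => ind i (shift z ω) * ind i ω)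
      (fun v => ω (c * v + 0)) ∂μ := by
    have h1 := integral_map (μ := μ) h.measurable.aemeasurable
      (f := fun ω : E → Fin k => ind i (shift z ω) * ind i ω) hm.aestronglyMeasurable
    rw [h.map_eq] at h1
    exact h1
  rw [e]
  unfold phi
  refine integral_congr_ae (Eventually.of_forall fun ω => ?_)
  simp only [ind, shift, zero_add, mul_zero, add_zero]

lemma meas_val {S : Type*} (z : S) : Measurable fun x : S → Circle => (x z : ℂ) := by
  have h : Continuous fun c : Circle => (c : ℂ) := by fun_prop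
  exact h.measurable.comp (measurable_pi_apply z)

lemma inv_of {E : Subfield ℂ} [Countable E] {σ : Measure (E → Circle)} [IsFiniteMeasure σ]
    (hc : ∀ᵐ x ∂σ, IsChar x) {φ : E → ℂ} (hφ : ∀ z, φ z = ∫ x, (x z : ℂ) ∂σ)
    (hr : ∀ c z : E, ‖(c : ℂ)‖ = 1 → φ (c * z) = φ z) : Inv E σ := by
  intro c hc1
  refine ⟨measurable_mulAct c, ?_⟩
  have hm : Measurable (mulAct c : (E → Circle) → E → Circle) := measurable_mulAct c
  have : IsFiniteMeasure (σ.map (mulAct c)) := Measure.isFiniteMeasure_map σ _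
  refine four_unique _ _ ?_ hc fun z => ?_
  · refine (ae_map_iff hm.aemeasurable measurableSet_isChar).2 ?_
    filter_upwards [hc] with x hx
    exact hx.mulAct c
  · rw [integral_map hm.aemeasurable]
    · rw [← hφ z, ← hr c z hc1, hφ (c * z)]
      rfl
    · exact (meas_val z).aestronglyMeasurable

/-- the restriction of colourings to `KG` -/
def rst (hE : KG ≤ E) (ω : E → Fin k) : KG → Fin k := fun w => ω ⟨w, hE w.2⟩

lemma measurable_rst (hE : KG ≤ E) : Measurable (rst (k := k) hE) :=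
  measurable_pi_lambda _ fun _ => measurable_pi_apply _

lemma rst_col (hE : KG ≤ E) (hμ : RandCol E k μ) : RandCol KG k (μ.map (rst hE)) := by
  have := hμ.prob
  have hm := measurable_rst (k := k) hE
  refine ⟨Measure.isProbabilityMeasure_map hm.aemeasurable, fun z w hzw => ?_,
    fun c b hc => ?_⟩
  · rw [Measure.map_apply hm (measurableSet_eq_fun (measurable_pi_apply z)
      (measurable_pi_apply w))]
    exact hμ.proper ⟨z, hE z.2⟩ ⟨w, hE w.2⟩ hzw
  · have h := hμ.inv ⟨c, hE c.2⟩ ⟨b, hE b.2⟩ hc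
    have hm2 : Measurable fun (ω : KG → Fin k) (z : KG) => ω (c * z + b) :=
      measurable_pi_lambda _ fun _ => measurable_pi_apply _
    refine ⟨hm2, ?_⟩
    rw [Measure.map_map hm2 hm]
    have e : (fun (ω : KG → Fin k) (z : KG) => ω (c * z + b)) ∘ rst hE =
        rst hE ∘ fun (ω : E → Fin k) (z : E) => ω (⟨c, hE c.2⟩ * z + ⟨b, hE b.2⟩) := by
      funext ω z
      rfl
    rw [e, ← Measure.map_map hm h.measurable, h.map_eq]

lemma rst_corr (hE : KG ≤ E) (i : Fin k) (u : KG) :
    ∫ ω, ind i (shift u ω) * ind i ω ∂(μ.map (rst hE)) = phi μ i ⟨u, hE u.2⟩ := by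
  have hm := measurable_rst (k := k) hE
  rw [integral_map hm.aemeasurable]
  · unfold phi
    refine integral_congr_ae (Eventually.of_forall fun ω => ?_)
    simp only [ind, shift, rst, zero_add]
    rfl
  · refine Measurable.aestronglyMeasurable (Measurable.mul ?_ (measurable_ind i))
    exact (measurable_ind i).comp (measurable_pi_lambda _ fun _ => measurable_pi_apply _)

end QSpec

theorem qspec {E : Subfield ℂ} (hE : Euc E) (ht : ∀ l : ℕ, l.Prime → ¬ HP l → PtAt E l) {k : ℕ}
    {μ : Measure (E → Fin k)} (hμ : RandCol E k μ) :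
    ∃ (μ' : Measure (KG → Fin k)) (ν : Fin k → Measure (KG → Circle)), Spec k μ' ν := by
  have := hE.ctb
  have := hμ.prob
  have h1 : ∀ i : Fin k, ∃ σ : Measure (E → Circle), IsFiniteMeasure σ ∧ (∀ᵐ x ∂σ, IsChar x) ∧
      ∀ z, (QSpec.phi μ i z : ℂ) = ∫ x, (x z : ℂ) ∂σ := by
    intro i
    obtain ⟨σ, h2, h3, h4⟩ := bochner (QSpec.U hμ) (fun z w f => QSpec.T_add hμ z w f)
      ((QSpec.memLp_cind (μ := μ) i).toLp (QSpec.cind i))
    exact ⟨σ, h2, h3, fun z => (QSpec.inner_eq hμ i z).symm.trans (h4 z)⟩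
  choose σ h2 h3 h4 using h1
  refine ⟨μ.map (QSpec.rst hE.KG_le), fun i => (σ i).map (line hE.KG_le 1), ?_, ?_, ?_⟩
  · exact QSpec.rst_col hE.KG_le hμ
  · intro i
    have := h2 i
    exact qrig hE ht (σ i) (h3 i) (QSpec.inv_of (h3 i) (h4 i) fun c z hc => by
      rw [QSpec.phi_rot hμ i c z hc])
  · intro i u
    rw [QSpec.rst_corr hE.KG_le i u, h4 i, integral_map (measurable_line hE.KG_le 1).aemeasurable]
    · refine integral_congr_ae (Eventually.of_forall fun x => ?_)
      simp only [line, one_mul]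
    · exact (QSpec.meas_val u).aestronglyMeasurable

end Pool.Agent.MP_8b8716_co_QF
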