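import Mathlib
import Pool.Agent.Lib.MP_8b8716_co.Defs
import Pool.Agent.Lib.MP_8b8716_co_HN.InvCol
import Pool.Agent.Lib.MP_8b8716_co_HN.MeasB
import Pool.Agent.Lib.MP_8b8716_co_QF.Defs
import Pool.Agent.Lib.MP_8b8716_co_QF.QFld
import Pool.Agent.Lib.MP_8b8716_co_QF.QSpec
import Pool.Agent.Lib.MP_8b8716_co_QF.QSoft
import Pool.Agent.Lib.MP_8b8716_co_QF.Hex
import Pool.Agent.Lib.MP_8b8716_co_QF.Pts

set_option autoImplicit false

/-!
# MP_8b8716_co, project QF, module QMain: the final assembly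
-/

noncomputable section

namespace Pool.Agent.MP_8b8716_co_QF

open Complex MeasureTheory Filter Topology Set
open Pool.Agent.MP_8b8716_co_HN
open Pool.Agent.MP8b8716 (unitDistanceGraph)

/-- there is a proper colouring of the plane with `k` colours, all of whose classes are Lebesgue
measurable -/
def MeasColorable (k : ℕ) : Prop :=
  ∃ κ : EuclideanSpace ℝ (Fin 2) → Fin k, (∀ i, NullMeasurableSet (κ ⁻¹' {i})) ∧
    ∀ p q, dist p q = 1 → κ p ≠ κ q

theorem measColorable_of_complex {k : ℕ} (h : ∃ κ : ℂ → Fin k,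
    (∀ i, NullMeasurableSet (κ ⁻¹' {i})) ∧ ∀ z w : ℂ, ‖z - w‖ = 1 → κ z ≠ κ w) :
    MeasColorable k := by
  obtain ⟨κ, h1, h2⟩ := h
  set e := Complex.orthonormalBasisOneI.repr with he
  refine ⟨fun p => κ (e.symm p), fun i => ?_, fun p q hpq => h2 _ _ ?_⟩
  · exact (h1 i).preimage (e.symm.measurePreserving).quasiMeasurePreserving
  · rw [← map_sub, LinearIsometryEquiv.norm_map, ← dist_eq_norm]
    exact hpq

theorem colorable_top_of_meas {k : ℕ} (h : MeasColorable k) :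
    (unitDistanceGraph ⊤).Colorable k := by
  obtain ⟨κ, -, h2⟩ := h
  refine ⟨SimpleGraph.Coloring.mk (fun p => κ (WithLp.toLp 2 ![(p.1 : ℝ), (p.2 : ℝ)])) ?_⟩
  intro p q hpq
  apply h2
  have h3 : (p.1 - q.1) ^ 2 + (p.2 - q.2) ^ 2 = 1 := hpq
  have h4 : ((p.1 : ℝ) - q.1) ^ 2 + ((p.2 : ℝ) - q.2) ^ 2 = 1 := by
    have := congrArg (fun x : (⊤ : Subfield ℝ) => (x : ℝ)) h3
    simpa using this
  rw [EuclideanSpace.dist_eq]
  simp only [Fin.sum_univ_two, Real.dist_eq, sq_abs]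
  simp only [Matrix.cons_val_zero, Matrix.cons_val_one]
  rw [h4, Real.sqrt_one]

theorem colorable_of_top {k : ℕ} (F : Subfield ℝ) (h : (unitDistanceGraph ⊤).Colorable k) :
    (unitDistanceGraph F).Colorable k := by
  let f : unitDistanceGraph F →g unitDistanceGraph ⊤ :=
    { toFun := fun p => (⟨p.1, trivial⟩, ⟨p.2, trivial⟩)
      map_rel' := by
        intro p q hpq
        have h3 : (p.1 - q.1) ^ 2 + (p.2 - q.2) ^ 2 = 1 := hpq
        have h4 := congrArg (fun x : F => (x : ℝ)) h3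
        apply Subtype.ext
        simpa using h4 }
  exact h.of_hom f

theorem qmain_meas {F : Subfield ℝ} (hF : ∀ l : ℕ, l.Prime → (l = 2 ∨ l % 4 = 3) → l < 1250 →
    PtF F l) {k : ℕ} (h : (unitDistanceGraph F).Colorable k) :
    ∃ κ : ℂ → Fin k, (∀ i, NullMeasurableSet (κ ⁻¹' {i})) ∧
      ∀ z w : ℂ, ‖z - w‖ = 1 → κ z ≠ κ w := by
  rcases Nat.lt_or_ge k 7 with hk | hk
  · obtain ⟨E, hE, ht, hEF⟩ := exists_euc hF
    obtain ⟨C⟩ := h
    have hκ : ∀ z w : E, ‖(z : ℂ) - w‖ = 1 →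
        C (⟨z.1.re, (hEF z z.2).1⟩, ⟨z.1.im, (hEF z z.2).2⟩) ≠
          C (⟨w.1.re, (hEF w w.2).1⟩, ⟨w.1.im, (hEF w w.2).2⟩) := by
      intro z w hzw
      apply C.valid
      show (_ : F) = 1
      apply Subtype.ext
      have h1 : ‖(z : ℂ) - w‖ ^ 2 = 1 := by rw [hzw]; norm_num
      rw [← Complex.normSq_eq_norm_sq, Complex.normSq_apply] at h1
      simp only [Complex.sub_re, Complex.sub_im] at h1
      push_cast
      nlinarith [h1]
    obtain ⟨μ, hμ⟩ := exists_randCol hE.ctb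
      (fun z : E => C (⟨z.1.re, (hEF z z.2).1⟩, ⟨z.1.im, (hEF z z.2).2⟩)) hκ
    obtain ⟨μ', ν, hS⟩ := qspec hE ht hμ
    obtain ⟨κ, h1, h2⟩ := qsoft (by omega) hS
    exact upgrade κ h1 h2
  · obtain ⟨κ, h1, h2⟩ := seven hk
    exact ⟨κ, fun i => (h1 (measurableSet_singleton i)).nullMeasurableSet, h2⟩

/-- the chromatic numbers, colourings by colourings -/
theorem qmain (F : Subfield ℝ) (hF : ∀ l : ℕ, l.Prime → (l = 2 ∨ l % 4 = 3) → l < 1250 →
    PtF F l) (k : ℕ) :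
    ((unitDistanceGraph F).Colorable k ↔ (unitDistanceGraph ⊤).Colorable k) ∧
    ((unitDistanceGraph F).Colorable k ↔ MeasColorable k) := by
  have h1 : (unitDistanceGraph F).Colorable k → MeasColorable k := fun h =>
    measColorable_of_complex (qmain_meas hF h)
  have h2 : MeasColorable k → (unitDistanceGraph ⊤).Colorable k := colorable_top_of_meas
  have h3 : (unitDistanceGraph ⊤).Colorable k → (unitDistanceGraph F).Colorable k :=
    colorable_of_top F
  exact ⟨⟨fun h => h2 (h1 h), h3⟩, ⟨h1, fun h => h3 (h2 h)⟩⟩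

theorem qmain_chrom (F : Subfield ℝ) (hF : ∀ l : ℕ, l.Prime → (l = 2 ∨ l % 4 = 3) → l < 1250 →
    PtF F l) :
    (unitDistanceGraph F).chromaticNumber = (unitDistanceGraph ⊤).chromaticNumber := by
  have h : ∀ k : ℕ, (unitDistanceGraph F).Colorable k ↔ (unitDistanceGraph ⊤).Colorable k :=
    fun k => (qmain F hF k).1
  have h' : Set.ofPred (unitDistanceGraph F).Colorable =
      Set.ofPred (unitDistanceGraph ⊤).Colorable :=
    Set.ext fun n => h n
  unfold SimpleGraph.chromaticNumber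
  rw [h']

/-- a sufficient condition: `√D ∈ F` with `D = 7 mod 8` and `-D` a nonzero square modulo the primes
`l < 1250`, `l = 3 mod 4` -/
theorem ptF_of_sqrt {F : Subfield ℝ} {D : ℕ} (hD : Real.sqrt D ∈ F) (h8 : D % 8 = 7)
    (hl : ∀ l : ℕ, l.Prime → l % 4 = 3 → l < 1250 → ∃ b : ℕ, l ∣ b ^ 2 + D ∧ ¬ l ∣ b) :
    ∀ l : ℕ, l.Prime → (l = 2 ∨ l % 4 = 3) → l < 1250 → PtF F l := by
  intro l hp h h1
  rcases h with rfl | h
  · exact ptF_of_sqrt_two hD h8
  · obtain ⟨b, h2, h3⟩ := hl l hp h h1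
    refine ptF_of_sqrt_odd hD hp ?_ b h2 h3
    rintro rfl
    omega

/-- the quadratic fields `ℚ(√(N! - 1))`, `N ≥ 1250` -/
theorem ptF_factorial {F : Subfield ℝ} {N : ℕ} (hN : 1250 ≤ N)
    (hD : Real.sqrt ((N.factorial - 1 : ℕ) : ℝ) ∈ F) :
    ∀ l : ℕ, l.Prime → (l = 2 ∨ l % 4 = 3) → l < 1250 → PtF F l := by
  have hpos : 0 < N.factorial := N.factorial_pos
  have h8 : 8 ∣ N.factorial := Nat.dvd_factorial (by norm_num) (by omega)
  refine ptF_of_sqrt hD (by omega) fun l hp _ h1 => ⟨1, ?_, ?_⟩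
  · have h2 : l ∣ N.factorial := Nat.dvd_factorial hp.pos (by omega)
    have h3 : 1 ^ 2 + (N.factorial - 1) = N.factorial := by omega
    rwa [h3]
  · intro h
    exact hp.one_lt.ne' (Nat.dvd_one.1 h)

end Pool.Agent.MP_8b8716_co_QF
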